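import Pool.Agent.Y734.M.PAIR.Chk

/-!
# Project Y734/M, job PAIR: certificate number 1
-/

set_option autoImplicit false
set_option maxRecDepth 100000

namespace Pool.Agent.Y734.M.PAIR

/-- nodes -/
def A1 : List Nd := [
⟨[⟨0,1,0,-1,-1⟩, ⟨0,0,1,1,1⟩], .br 21 [k 80 0 1 3 4 2 (-1) (0) (0) (0) (-1) (0) [[-1],[0]],
  k 78 1 0 2 3 4 (1) (-1) (-1) (-2) (-2) (-1) [[0],[1]],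
  k 83 3 0 1 4 2 (-2) (0) (0) (-1) (0) (0) [[1],[0]],
  k 78 1 0 2 3 4 (1) (-1) (-1) (-2) (-2) (-1) [[0],[1]],
  k 78 1 0 2 3 4 (2) (-1) (-1) (-2) (-2) (-1) [[0],[2]],
  k 78 1 0 2 3 4 (1) (-1) (-1) (-2) (-2) (-1) [[0],[1]],
  k 78 1 0 2 3 4 (1) (-1) (-1) (-2) (-2) (-1) [[0],[1]],
  k 80 0 2 4 3 1 (-1) (0) (0) (0) (-1) (0) [[1],[0]],
  k 78 1 0 2 3 4 (2) (-1) (-1) (-2) (-2) (-1) [[0],[2]],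
  k 83 4 0 2 3 1 (1) (-1) (-1) (0) (-1) (0) [[0],[1]],
  k 78 1 0 2 3 4 (2) (-1) (-1) (-2) (-2) (-1) [[0],[2]],
  k 78 1 0 2 3 4 (2) (-1) (-1) (-2) (-2) (-1) [[0],[2]],
  k 80 0 1 3 4 2 (-1) (0) (0) (0) (-1) (0) [[-1],[0]],
  k 80 0 2 4 3 1 (-1) (0) (0) (0) (-1) (0) [[1],[0]],
  k 83 4 0 2 3 1 (1) (-1) (-1) (0) (-1) (0) [[0],[1]],
  k 83 3 0 1 4 2 (-2) (0) (0) (-1) (0) (0) [[1],[0]],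
  k 78 1 0 2 3 4 (1) (-1) (-1) (-2) (-2) (-1) [[0],[1]],
  k 78 1 0 2 3 4 (2) (-1) (-1) (-2) (-2) (-1) [[0],[2]],
  k 83 4 0 2 3 1 (1) (-1) (-1) (0) (-1) (0) [[0],[1]],
  k 83 3 0 1 4 2 (-2) (0) (0) (-1) (0) (0) [[1],[0]],
  k 78 1 0 2 3 4 (2) (-1) (-1) (-2) (-2) (-1) [[0],[2]],
  z]⟩,
⟨[⟨0,1,0,-1,-2⟩, ⟨0,0,1,1,1⟩], .br 21 [k 78 0 1 4 3 2 (-1) (0) (0) (0) (-1) (0) [[-1],[0]],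
  k 79 0 4 3 1 2 (1) (-2) (-1) (-2) (-2) (-1) [[0],[1]],
  k 78 0 1 4 3 2 (-2) (0) (0) (0) (-1) (0) [[-2],[0]],
  k 78 0 1 4 3 2 (-1) (0) (0) (0) (-1) (0) [[-1],[0]],
  k 79 0 4 3 1 2 (2) (-2) (-1) (-2) (-2) (-1) [[0],[2]],
  k 79 0 4 3 1 2 (1) (-2) (-1) (-2) (-2) (-1) [[0],[1]],
  k 78 0 1 4 3 2 (-1) (0) (0) (0) (-1) (0) [[-1],[0]],
  k 81 0 4 1 3 2 (-1) (0) (0) (0) (0) (-1) [[-1],[0]],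
  k 85 0 1 2 3 4 (-2) (0) (0) (1) (1) (1) [[-1],[0]],
  k 79 0 4 3 1 2 (2) (-2) (-1) (-2) (-2) (-1) [[0],[2]],
  k 85 0 1 2 3 4 (-2) (0) (0) (1) (1) (1) [[-1],[0]],
  k 79 0 4 3 1 2 (2) (-2) (-1) (-2) (-2) (-1) [[0],[2]],
  k 78 0 1 4 3 2 (-1) (0) (0) (0) (-1) (0) [[-1],[0]],
  k 79 0 4 3 1 2 (1) (-2) (-1) (-2) (-2) (-1) [[0],[1]],
  k 84 0 1 2 3 4 (1) (0) (1) (0) (-1) (-2) [[0],[1]],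
  k 78 0 1 4 3 2 (-2) (0) (0) (0) (-1) (0) [[-2],[0]],
  k 79 0 4 3 1 2 (1) (-2) (-1) (-2) (-2) (-1) [[0],[1]],
  k 78 0 1 4 3 2 (-2) (0) (0) (0) (-1) (0) [[-2],[0]],
  k 84 0 1 2 3 4 (1) (0) (1) (0) (-1) (-2) [[0],[1]],
  k 85 0 1 2 3 4 (-2) (0) (0) (1) (1) (1) [[-1],[0]],
  k 85 0 1 2 3 4 (-2) (0) (0) (1) (1) (1) [[-1],[0]],
  z]⟩,
⟨[⟨0,2,0,-2,-3⟩, ⟨0,0,1,1,1⟩], .br 9 [k 87 0 1 2 3 4 (1) (0) (2) (0) (-2) (-3) [[0],[-1]],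
  k 89 0 1 2 3 4 (-1) (0) (2) (0) (-2) (-3) [[0],[-1]],
  k 86 0 1 2 3 4 (4) (0) (2) (0) (-2) (-3) [[0],[4]],
  k 88 0 1 2 3 4 (1) (0) (0) (1) (1) (1) [[1],[0]],
  k 86 0 1 2 3 4 (1) (0) (2) (0) (-2) (-3) [[0],[1]],
  k 89 0 1 2 3 4 (-1) (0) (2) (0) (-2) (-3) [[0],[-1]],
  k 88 0 1 2 3 4 (1) (0) (0) (1) (1) (1) [[1],[0]],
  k 79 0 1 4 3 2 (1) (0) (0) (0) (-1) (0) [[1],[0]],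
  k 86 0 1 2 3 4 (2) (0) (2) (0) (-2) (-3) [[0],[2]],
  z,
  k 86 0 1 2 3 4 (2) (0) (2) (0) (-2) (-3) [[0],[2]],
  k 86 0 1 2 3 4 (1) (0) (2) (0) (-2) (-3) [[0],[1]],
  k 87 0 1 2 3 4 (1) (0) (2) (0) (-2) (-3) [[0],[-1]],
  k 81 3 0 4 1 2 (1) (0) (-1) (0) (0) (0) [[-1],[0]],
  k 86 0 1 2 3 4 (-1) (0) (2) (0) (-2) (-3) [[0],[-1]],
  k 86 0 1 2 3 4 (4) (0) (2) (0) (-2) (-3) [[0],[4]],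
  k 89 0 1 2 3 4 (-1) (0) (2) (0) (-2) (-3) [[0],[-1]],
  k 86 0 1 2 3 4 (3) (0) (2) (0) (-2) (-3) [[0],[3]],
  k 86 0 1 2 3 4 (-1) (0) (2) (0) (-2) (-3) [[0],[-1]],
  k 86 0 1 2 3 4 (3) (0) (2) (0) (-2) (-3) [[0],[3]],
  k 86 0 1 2 3 4 (2) (0) (2) (0) (-2) (-3) [[0],[2]],
  k 85 0 1 2 3 4 (2) (0) (0) (1) (1) (1) [[1],[0]]]⟩,
⟨[⟨0,1,3,2,0⟩, ⟨0,0,0,0,1⟩], .br 21 [k 85 0 2 4 1 3 (-1) (-2) (-1) (-1) (2) (0) [[0],[1]],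
  k 85 0 2 4 1 3 (-2) (-2) (-1) (-1) (2) (0) [[0],[2]],
  k 90 0 1 2 3 4 (-1) (0) (1) (3) (2) (0) [[0],[1]],
  k 78 3 1 4 0 2 (-1) (1) (0) (0) (0) (0) [[-1],[0]],
  k 85 0 2 4 1 3 (-4) (-2) (-1) (-1) (2) (0) [[0],[4]],
  k 85 0 2 4 1 3 (-2) (-2) (-1) (-1) (2) (0) [[0],[2]],
  k 78 3 1 4 0 2 (-1) (1) (0) (0) (0) (0) [[-1],[0]],
  k 85 0 2 4 1 3 (-3) (-2) (-1) (-1) (2) (0) [[0],[3]],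
  k 89 0 1 2 3 4 (-1) (0) (0) (0) (0) (1) [[-1],[0]],
  k 91 0 1 2 3 4 (-1) (0) (0) (0) (0) (1) [[-1],[0]],
  k 89 0 1 2 3 4 (-1) (0) (0) (0) (0) (1) [[-1],[0]],
  k 85 0 2 4 1 3 (-4) (-2) (-1) (-1) (2) (0) [[0],[4]],
  k 85 0 2 4 1 3 (-1) (-2) (-1) (-1) (2) (0) [[0],[1]],
  k 90 0 1 2 3 4 (-1) (0) (1) (3) (2) (0) [[0],[1]],
  k 85 0 2 4 1 3 (-5) (-2) (-1) (-1) (2) (0) [[0],[5]],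
  k 90 0 1 2 3 4 (-1) (0) (1) (3) (2) (0) [[0],[1]],
  k 85 0 2 4 1 3 (-2) (-2) (-1) (-1) (2) (0) [[0],[2]],
  k 78 3 1 4 0 2 (-2) (1) (0) (0) (0) (0) [[-2],[0]],
  k 85 0 2 4 1 3 (-5) (-2) (-1) (-1) (2) (0) [[0],[5]],
  k 85 0 2 4 1 3 (-3) (-2) (-1) (-1) (2) (0) [[0],[3]],
  k 89 0 1 2 3 4 (-1) (0) (0) (0) (0) (1) [[-1],[0]],
  z]⟩,
⟨[⟨0,1,0,-1,-4⟩, ⟨0,0,1,1,2⟩], .br 7 [k 91 0 1 2 3 4 (2) (0) (1) (0) (-1) (-4) [[0],[2]],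
  k 91 0 1 2 3 4 (1) (0) (1) (0) (-1) (-4) [[0],[1]],
  k 92 0 1 2 3 4 (-2) (0) (0) (1) (1) (2) [[-2],[0]],
  k 93 0 4 2 3 1 (-1) (0) (0) (-1) (-1) (-2) [[-1],[0]],
  k 75 0 1 4 3 2 (-1) (0) (0) (0) (-1) (1) [[-1],[0]],
  k 91 0 1 2 3 4 (1) (0) (1) (0) (-1) (-4) [[0],[1]],
  k 93 0 4 2 3 1 (-1) (0) (0) (-1) (-1) (-2) [[-1],[0]],
  z,
  k 94 0 1 2 3 4 (-2) (0) (0) (1) (1) (2) [[-1],[0]],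
  k 75 0 1 4 3 2 (-2) (0) (0) (0) (-1) (1) [[-2],[0]],
  k 94 0 1 2 3 4 (-2) (0) (0) (1) (1) (2) [[-1],[0]],
  k 75 0 1 4 3 2 (-1) (0) (0) (0) (-1) (1) [[-1],[0]],
  k 91 0 1 2 3 4 (2) (0) (1) (0) (-1) (-4) [[0],[2]],
  k 92 0 1 2 3 4 (-1) (0) (0) (1) (1) (2) [[-1],[0]],
  k 92 0 4 2 3 1 (1) (0) (1) (4) (3) (4) [[0],[1]],
  k 92 0 1 2 3 4 (-2) (0) (0) (1) (1) (2) [[-2],[0]],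
  k 91 0 1 2 3 4 (1) (0) (1) (0) (-1) (-4) [[0],[1]],
  k 95 0 1 2 3 4 (-3) (0) (0) (1) (1) (2) [[-1],[0]],
  k 92 0 4 2 3 1 (1) (0) (1) (4) (3) (4) [[0],[1]],
  k 92 0 1 2 3 4 (-1) (0) (0) (1) (1) (2) [[-1],[0]],
  k 94 0 1 2 3 4 (-2) (0) (0) (1) (1) (2) [[-1],[0]],
  k 93 0 1 2 3 4 (1) (0) (0) (1) (1) (2) [[1],[0]]]⟩,
⟨[⟨0,1,0,-1,-3⟩, ⟨0,0,1,1,2⟩], .br 7 [k 90 0 1 2 3 4 (2) (0) (1) (0) (-1) (-3) [[0],[2]],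
  k 90 0 1 2 3 4 (1) (0) (1) (0) (-1) (-3) [[0],[1]],
  k 96 0 1 2 3 4 (-2) (0) (0) (1) (1) (2) [[-1],[0]],
  k 95 0 4 2 3 1 (-1) (0) (0) (-1) (-1) (-2) [[-1],[0]],
  k 75 0 1 3 4 2 (-1) (-1) (-1) (-1) (-2) (-1) [[-1],[0]],
  k 90 0 1 2 3 4 (1) (0) (1) (0) (-1) (-3) [[0],[1]],
  k 95 0 4 2 3 1 (-1) (0) (0) (-1) (-1) (-2) [[-1],[0]],
  z,
  k 75 0 1 3 4 2 (-2) (-1) (-1) (-1) (-2) (-1) [[-2],[0]],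
  k 76 0 1 4 3 2 (-2) (0) (0) (0) (-1) (1) [[-1],[0]],
  k 75 0 1 3 4 2 (-2) (-1) (-1) (-1) (-2) (-1) [[-2],[0]],
  k 75 0 1 3 4 2 (-1) (-1) (-1) (-1) (-2) (-1) [[-1],[0]],
  k 90 0 1 2 3 4 (2) (0) (1) (0) (-1) (-3) [[0],[2]],
  k 75 0 1 3 4 2 (-1) (-1) (-1) (-1) (-2) (-1) [[-1],[0]],
  k 75 0 4 3 1 2 (1) (-2) (-1) (-2) (-3) (-1) [[0],[1]],
  k 96 0 1 2 3 4 (-2) (0) (0) (1) (1) (2) [[-1],[0]],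
  k 90 0 1 2 3 4 (1) (0) (1) (0) (-1) (-3) [[0],[1]],
  k 75 0 1 3 4 2 (-3) (-1) (-1) (-1) (-2) (-1) [[-3],[0]],
  k 75 0 4 3 1 2 (1) (-2) (-1) (-2) (-3) (-1) [[0],[1]],
  k 95 0 4 2 3 1 (-1) (0) (0) (-1) (-1) (-2) [[-1],[0]],
  k 75 0 1 3 4 2 (-2) (-1) (-1) (-1) (-2) (-1) [[-2],[0]],
  k 95 0 1 2 3 4 (1) (0) (0) (1) (1) (2) [[1],[0]]]⟩,
⟨[⟨0,0,1,1,0⟩, ⟨0,0,0,0,1⟩], .br 17 [k 96 0 1 2 3 4 (-1) (0) (0) (1) (1) (0) [[0],[-1]],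
  k 96 0 1 2 3 4 (-1) (0) (0) (1) (1) (0) [[0],[-1]],
  k 82 0 1 2 3 4 (-1) (0) (0) (1) (1) (0) [[0],[-1]],
  k 72 0 3 1 4 2 (1) (-1) (-1) (-1) (-1) (-1) [[-1],[0]],
  k 82 0 1 2 3 4 (-2) (0) (0) (1) (1) (0) [[0],[-2]],
  k 96 0 1 2 3 4 (-1) (0) (0) (1) (1) (0) [[0],[-1]],
  k 72 0 3 1 4 2 (1) (-1) (-1) (-1) (-1) (-1) [[-1],[0]],
  k 96 0 1 2 3 4 (-1) (0) (0) (1) (1) (0) [[0],[-1]],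
  k 82 0 1 2 3 4 (-1) (0) (0) (1) (1) (0) [[0],[-1]],
  k 82 0 1 2 3 4 (-1) (0) (0) (1) (1) (0) [[0],[-1]],
  k 82 0 1 2 3 4 (-1) (0) (0) (1) (1) (0) [[0],[-1]],
  k 82 0 1 2 3 4 (-2) (0) (0) (1) (1) (0) [[0],[-2]],
  k 96 0 1 2 3 4 (-1) (0) (0) (1) (1) (0) [[0],[-1]],
  k 72 0 3 1 4 2 (1) (-1) (-1) (-1) (-1) (-1) [[-1],[0]],
  k 82 0 1 2 3 4 (-2) (0) (0) (1) (1) (0) [[0],[-2]],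
  k 82 0 1 2 3 4 (-1) (0) (0) (1) (1) (0) [[0],[-1]],
  k 96 0 1 2 3 4 (-1) (0) (0) (1) (1) (0) [[0],[-1]],
  z,
  k 82 0 1 2 3 4 (-2) (0) (0) (1) (1) (0) [[0],[-2]],
  k 82 0 1 2 3 4 (-2) (0) (0) (1) (1) (0) [[0],[-2]],
  k 82 0 1 2 3 4 (-1) (0) (0) (1) (1) (0) [[0],[-1]],
  k 72 0 3 1 4 2 (2) (-1) (-1) (-1) (-1) (-1) [[-2],[0]]]⟩,
⟨[⟨0,1,0,1,0⟩, ⟨0,0,1,0,-1⟩], .br 17 [k 71 0 2 1 4 3 (-2) (-2) (-1) (-2) (0) (-1) [[2],[0]],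
  k 97 4 3 2 1 0 (1) (0) (-1) (0) (-1) (0) [[0],[-1]],
  k 71 0 2 1 4 3 (-1) (-2) (-1) (-2) (0) (-1) [[1],[0]],
  k 71 0 2 1 4 3 (-1) (-2) (-1) (-2) (0) (-1) [[1],[0]],
  k 71 0 2 1 4 3 (-3) (-2) (-1) (-2) (0) (-1) [[3],[0]],
  k 97 0 1 2 3 4 (-1) (0) (1) (0) (1) (0) [[0],[1]],
  k 71 0 2 1 4 3 (-1) (-2) (-1) (-2) (0) (-1) [[1],[0]],
  k 71 0 2 1 4 3 (-3) (-2) (-1) (-2) (0) (-1) [[3],[0]],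
  k 89 1 2 4 3 0 (-1) (0) (1) (1) (1) (1) [[0],[1]],
  k 71 0 2 1 4 3 (-2) (-2) (-1) (-2) (0) (-1) [[2],[0]],
  k 89 3 2 0 1 4 (1) (0) (-1) (-1) (-1) (-1) [[0],[-1]],
  k 71 0 2 1 4 3 (-3) (-2) (-1) (-2) (0) (-1) [[3],[0]],
  k 71 0 2 1 4 3 (-2) (-2) (-1) (-2) (0) (-1) [[2],[0]],
  k 89 1 2 4 3 0 (-1) (0) (1) (1) (1) (1) [[0],[1]],
  k 96 4 3 2 1 0 (1) (0) (-1) (0) (-1) (0) [[0],[-1]],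
  k 71 0 2 1 4 3 (-1) (-2) (-1) (-2) (0) (-1) [[1],[0]],
  k 97 4 3 2 1 0 (1) (0) (-1) (0) (-1) (0) [[0],[-1]],
  z,
  k 96 0 1 2 3 4 (-1) (0) (1) (0) (1) (0) [[0],[1]],
  k 97 0 1 2 3 4 (-1) (0) (1) (0) (1) (0) [[0],[1]],
  k 89 3 2 0 1 4 (1) (0) (-1) (-1) (-1) (-1) [[0],[-1]],
  k 71 0 2 1 4 3 (-2) (-2) (-1) (-2) (0) (-1) [[2],[0]]]⟩,
⟨[⟨0,1,0,1,1⟩, ⟨0,0,1,0,-1⟩], .br 14 [k 74 0 2 4 1 3 (-1) (1) (1) (0) (0) (-1) [[0],[1]],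
  k 72 0 3 2 1 4 (1) (1) (0) (0) (0) (-1) [[1],[0]],
  k 92 0 4 3 1 2 (-2) (0) (-1) (0) (1) (1) [[0],[1]],
  k 92 0 4 3 1 2 (-2) (0) (-1) (0) (1) (1) [[0],[1]],
  k 80 0 2 3 1 4 (-1) (0) (-1) (-1) (0) (-1) [[0],[1]],
  k 80 0 2 3 1 4 (-2) (0) (-1) (-1) (0) (-1) [[0],[2]],
  k 92 0 4 3 1 2 (-2) (0) (-1) (0) (1) (1) [[0],[1]],
  k 80 0 2 3 1 4 (-1) (0) (-1) (-1) (0) (-1) [[0],[1]],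
  k 80 0 2 3 1 4 (-3) (0) (-1) (-1) (0) (-1) [[0],[3]],
  k 80 0 2 3 1 4 (-2) (0) (-1) (-1) (0) (-1) [[0],[2]],
  k 74 0 2 4 1 3 (-1) (1) (1) (0) (0) (-1) [[0],[1]],
  k 80 0 2 3 1 4 (-1) (0) (-1) (-1) (0) (-1) [[0],[1]],
  k 74 0 2 4 1 3 (-1) (1) (1) (0) (0) (-1) [[0],[1]],
  k 80 0 2 3 1 4 (-3) (0) (-1) (-1) (0) (-1) [[0],[3]],
  z,
  k 92 0 4 3 1 2 (-2) (0) (-1) (0) (1) (1) [[0],[1]],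
  k 72 0 3 2 1 4 (1) (1) (0) (0) (0) (-1) [[1],[0]],
  k 89 0 4 3 1 2 (-3) (0) (-1) (0) (1) (1) [[0],[1]],
  k 97 0 1 2 3 4 (1) (0) (0) (1) (0) (-1) [[1],[0]],
  k 80 0 2 3 1 4 (-2) (0) (-1) (-1) (0) (-1) [[0],[2]],
  k 74 0 2 4 1 3 (-1) (1) (1) (0) (0) (-1) [[0],[1]],
  k 74 0 2 4 1 3 (-1) (1) (1) (0) (0) (-1) [[0],[1]]]⟩,
⟨[⟨0,1,0,1,0⟩, ⟨0,0,1,0,0⟩], .br 14 [k 97 0 1 2 3 4 (-1) (0) (1) (0) (1) (0) [[0],[-1]],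
  k 69 0 2 1 4 3 (1) (-1) (-1) (-1) (0) (0) [[-1],[0]],
  k 97 0 1 2 3 4 (-1) (0) (1) (0) (1) (0) [[0],[-1]],
  k 97 0 1 2 3 4 (-1) (0) (1) (0) (1) (0) [[0],[-1]],
  k 79 0 2 3 1 4 (-1) (0) (-1) (-1) (-1) (-1) [[0],[1]],
  k 79 0 2 3 1 4 (-2) (0) (-1) (-1) (-1) (-1) [[0],[2]],
  k 97 0 1 2 3 4 (-1) (0) (1) (0) (1) (0) [[0],[-1]],
  k 79 0 2 3 1 4 (-1) (0) (-1) (-1) (-1) (-1) [[0],[1]],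
  k 79 0 2 3 1 4 (-2) (0) (-1) (-1) (-1) (-1) [[0],[2]],
  k 79 0 2 3 1 4 (-1) (0) (-1) (-1) (-1) (-1) [[0],[1]],
  k 69 0 2 1 4 3 (1) (-1) (-1) (-1) (0) (0) [[-1],[0]],
  k 79 0 2 3 1 4 (-1) (0) (-1) (-1) (-1) (-1) [[0],[1]],
  k 97 0 1 2 3 4 (-1) (0) (1) (0) (1) (0) [[0],[-1]],
  k 79 0 2 3 1 4 (-2) (0) (-1) (-1) (-1) (-1) [[0],[2]],
  z,
  k 97 0 1 2 3 4 (-1) (0) (1) (0) (1) (0) [[0],[-1]],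
  k 69 0 2 1 4 3 (1) (-1) (-1) (-1) (0) (0) [[-1],[0]],
  k 97 0 1 2 3 4 (-1) (0) (1) (0) (1) (0) [[0],[-1]],
  k 70 0 1 4 3 2 (1) (0) (0) (1) (0) (0) [[1],[0]],
  k 79 0 2 3 1 4 (-2) (0) (-1) (-1) (-1) (-1) [[0],[2]],
  k 69 0 2 1 4 3 (1) (-1) (-1) (-1) (0) (0) [[-1],[0]],
  k 97 0 1 2 3 4 (-1) (0) (1) (0) (1) (0) [[0],[-1]]]⟩,
⟨[⟨0,1,0,1,2⟩, ⟨0,0,1,1,0⟩], .br 13 [k 97 0 1 2 3 4 (-1) (0) (0) (1) (1) (0) [[-1],[0]],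
  k 82 2 4 0 3 1 (-1) (0) (0) (1) (1) (0) [[-1],[0]],
  k 72 2 1 4 3 0 (1) (-1) (-1) (0) (0) (2) [[0],[1]],
  k 68 0 3 1 4 2 (1) (-3) (-2) (-2) (-1) (-2) [[0],[-1]],
  k 91 2 1 0 3 4 (-2) (0) (0) (1) (1) (0) [[-1],[0]],
  k 86 2 1 0 3 4 (-1) (0) (0) (1) (1) (0) [[-1],[0]],
  k 68 0 3 1 4 2 (1) (-3) (-2) (-2) (-1) (-2) [[0],[-1]],
  k 97 0 1 2 3 4 (-1) (0) (0) (1) (1) (0) [[-1],[0]],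
  k 86 2 0 4 1 3 (-1) (-1) (0) (0) (1) (0) [[1],[0]],
  k 72 2 1 4 3 0 (1) (-1) (-1) (0) (0) (2) [[0],[1]],
  k 86 2 1 0 3 4 (-1) (0) (0) (1) (1) (0) [[-1],[0]],
  k 91 2 1 0 3 4 (-2) (0) (0) (1) (1) (0) [[-1],[0]],
  k 97 0 1 2 3 4 (-1) (0) (0) (1) (1) (0) [[-1],[0]],
  z,
  k 86 2 1 0 3 4 (-2) (0) (0) (1) (1) (0) [[-2],[0]],
  k 72 2 1 4 3 0 (1) (-1) (-1) (0) (0) (2) [[0],[1]],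
  k 82 2 4 0 3 1 (-1) (0) (0) (1) (1) (0) [[-1],[0]],
  k 68 0 3 1 4 2 (-1) (-3) (-2) (-2) (-1) (-2) [[0],[1]],
  k 72 2 1 4 3 0 (2) (-1) (-1) (0) (0) (2) [[0],[2]],
  k 72 2 1 4 3 0 (2) (-1) (-1) (0) (0) (2) [[0],[2]],
  k 86 2 1 0 3 4 (-1) (0) (0) (1) (1) (0) [[-1],[0]],
  k 68 0 3 1 4 2 (3) (-3) (-2) (-2) (-1) (-2) [[0],[-3]]]⟩,
⟨[⟨0,1,0,0,1⟩, ⟨0,0,0,1,1⟩], .br 8 [k 85 4 0 1 3 2 (1) (0) (0) (-1) (0) (-1) [[1],[0]],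
  k 84 1 0 4 2 3 (2) (-1) (-1) (-1) (0) (1) [[0],[-2]],
  k 67 0 3 1 2 4 (1) (-1) (-1) (0) (-1) (-1) [[0],[1]],
  k 68 0 1 3 2 4 (1) (-1) (-1) (-1) (0) (-1) [[1],[0]],
  k 85 4 0 1 3 2 (1) (0) (0) (-1) (0) (-1) [[1],[0]],
  k 84 1 0 4 2 3 (1) (-1) (-1) (-1) (0) (1) [[0],[-1]],
  k 68 0 1 3 2 4 (1) (-1) (-1) (-1) (0) (-1) [[1],[0]],
  k 97 0 1 2 3 4 (1) (0) (1) (0) (0) (1) [[0],[-1]],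
  z,
  k 68 0 1 3 2 4 (1) (-1) (-1) (-1) (0) (-1) [[1],[0]],
  k 84 1 0 4 2 3 (1) (-1) (-1) (-1) (0) (1) [[0],[-1]],
  k 85 4 0 1 3 2 (1) (0) (0) (-1) (0) (-1) [[1],[0]],
  k 85 4 0 1 3 2 (1) (0) (0) (-1) (0) (-1) [[1],[0]],
  k 85 2 0 4 1 3 (-1) (1) (0) (-1) (-1) (-1) [[0],[1]],
  k 84 1 0 4 2 3 (2) (-1) (-1) (-1) (0) (1) [[0],[-2]],
  k 67 0 3 1 2 4 (1) (-1) (-1) (0) (-1) (-1) [[0],[1]],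
  k 84 1 0 4 2 3 (2) (-1) (-1) (-1) (0) (1) [[0],[-2]],
  k 67 0 3 1 2 4 (-1) (-1) (-1) (0) (-1) (-1) [[0],[-1]],
  k 84 1 0 4 2 3 (1) (-1) (-1) (-1) (0) (1) [[0],[-1]],
  k 67 0 3 1 2 4 (2) (-1) (-1) (0) (-1) (-1) [[0],[2]],
  k 84 1 0 4 2 3 (1) (-1) (-1) (-1) (0) (1) [[0],[-1]],
  k 97 0 1 2 3 4 (1) (0) (1) (0) (0) (1) [[0],[-1]]]⟩,
⟨[⟨0,1,0,-1,0⟩, ⟨0,0,1,1,0⟩], .br 13 [k 69 3 1 4 0 2 (-1) (-1) (-1) (0) (0) (0) [[-1],[0]],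
  k 67 0 1 4 3 2 (-1) (0) (0) (0) (-1) (-1) [[-1],[0]],
  k 69 3 1 4 0 2 (-1) (-1) (-1) (0) (0) (0) [[-1],[0]],
  k 66 0 3 1 4 2 (1) (-1) (-2) (-2) (-1) (0) [[0],[-1]],
  k 69 0 1 4 3 2 (-2) (0) (0) (0) (-1) (-1) [[-1],[0]],
  k 67 0 1 4 3 2 (-1) (0) (0) (0) (-1) (-1) [[-1],[0]],
  k 66 0 3 1 4 2 (1) (-1) (-2) (-2) (-1) (0) [[0],[-1]],
  k 66 1 0 2 3 4 (1) (-1) (-1) (-1) (-2) (-1) [[0],[1]],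
  k 67 0 1 4 3 2 (-1) (0) (0) (0) (-1) (-1) [[-1],[0]],
  k 66 1 0 2 3 4 (1) (-1) (-1) (-1) (-2) (-1) [[0],[1]],
  k 67 0 1 4 3 2 (-1) (0) (0) (0) (-1) (-1) [[-1],[0]],
  k 69 0 1 4 3 2 (-2) (0) (0) (0) (-1) (-1) [[-1],[0]],
  k 69 3 1 4 0 2 (-1) (-1) (-1) (0) (0) (0) [[-1],[0]],
  z,
  k 66 1 0 2 3 4 (2) (-1) (-1) (-1) (-2) (-1) [[0],[2]],
  k 69 3 1 4 0 2 (-1) (-1) (-1) (0) (0) (0) [[-1],[0]],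
  k 67 0 1 4 3 2 (-1) (0) (0) (0) (-1) (-1) [[-1],[0]],
  k 66 0 3 1 4 2 (1) (-1) (-2) (-2) (-1) (0) [[0],[-1]],
  k 66 1 0 2 3 4 (2) (-1) (-1) (-1) (-2) (-1) [[0],[2]],
  k 67 0 1 4 3 2 (-2) (0) (0) (0) (-1) (-1) [[-2],[0]],
  k 67 0 1 4 3 2 (-1) (0) (0) (0) (-1) (-1) [[-1],[0]],
  k 66 0 3 1 4 2 (1) (-1) (-2) (-2) (-1) (0) [[0],[-1]]]⟩,
⟨[⟨0,1,0,2,3⟩, ⟨0,0,1,0,-1⟩], .br 7 [k 69 2 1 4 3 0 (-1) (-1) (-1) (1) (0) (3) [[0],[-1]],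
  k 82 2 0 4 3 1 (1) (1) (0) (-1) (-3) (-3) [[0],[1]],
  k 82 0 1 2 4 3 (2) (-1) (-2) (-2) (-1) (0) [[2],[0]],
  k 91 4 2 1 3 0 (2) (0) (0) (-1) (-2) (-1) [[1],[0]],
  k 82 2 0 4 3 1 (-1) (1) (0) (-1) (-3) (-3) [[0],[-1]],
  k 82 0 1 2 4 3 (1) (-1) (-2) (-2) (-1) (0) [[1],[0]],
  k 91 4 2 1 3 0 (2) (0) (0) (-1) (-2) (-1) [[1],[0]],
  z,
  k 96 0 1 2 3 4 (2) (0) (0) (1) (0) (-1) [[1],[0]],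
  k 68 3 1 4 0 2 (1) (-1) (0) (1) (0) (0) [[1],[0]],
  k 82 0 1 2 4 3 (1) (-1) (-2) (-2) (-1) (0) [[1],[0]],
  k 82 2 0 4 3 1 (-1) (1) (0) (-1) (-3) (-3) [[0],[-1]],
  k 69 2 1 4 3 0 (-1) (-1) (-1) (1) (0) (3) [[0],[-1]],
  k 82 0 1 2 4 3 (2) (-1) (-2) (-2) (-1) (0) [[2],[0]],
  k 69 2 1 4 3 0 (1) (-1) (-1) (1) (0) (3) [[0],[1]],
  k 82 0 1 2 4 3 (2) (-1) (-2) (-2) (-1) (0) [[2],[0]],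
  k 82 2 0 4 3 1 (1) (1) (0) (-1) (-3) (-3) [[0],[1]],
  k 82 0 1 2 4 3 (3) (-1) (-2) (-2) (-1) (0) [[3],[0]],
  k 82 2 0 4 3 1 (-2) (1) (0) (-1) (-3) (-3) [[0],[-2]],
  k 68 3 1 4 0 2 (1) (-1) (0) (1) (0) (0) [[1],[0]],
  k 82 0 1 2 4 3 (1) (-1) (-2) (-2) (-1) (0) [[1],[0]],
  k 97 0 1 2 3 4 (1) (0) (0) (1) (0) (-1) [[1],[0]]]⟩,
⟨[⟨0,0,1,0,-1⟩, ⟨0,0,0,1,1⟩], .br 14 [k 81 0 2 1 3 4 (-1) (0) (0) (0) (1) (1) [[-1],[0]],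
  k 64 0 3 1 2 4 (1) (2) (1) (1) (1) (1) [[0],[1]],
  k 97 0 1 4 3 2 (-2) (0) (0) (-1) (-1) (0) [[1],[0]],
  k 97 0 1 2 3 4 (-1) (0) (0) (0) (1) (1) [[-1],[0]],
  k 64 0 3 1 4 2 (1) (2) (1) (1) (1) (1) [[0],[-1]],
  k 81 0 2 1 3 4 (-1) (0) (0) (0) (1) (1) [[-1],[0]],
  k 97 0 1 2 3 4 (-1) (0) (0) (0) (1) (1) [[-1],[0]],
  k 64 0 3 1 2 4 (1) (2) (1) (1) (1) (1) [[0],[1]],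
  k 97 0 1 4 3 2 (-2) (0) (0) (-1) (-1) (0) [[1],[0]],
  k 81 0 2 1 3 4 (-1) (0) (0) (0) (1) (1) [[-1],[0]],
  k 81 0 2 1 3 4 (-1) (0) (0) (0) (1) (1) [[-1],[0]],
  k 64 0 3 1 4 2 (1) (2) (1) (1) (1) (1) [[0],[-1]],
  k 81 0 2 1 3 4 (-1) (0) (0) (0) (1) (1) [[-1],[0]],
  k 97 0 1 2 3 4 (-1) (0) (0) (0) (1) (1) [[-1],[0]],
  z,
  k 97 0 1 4 3 2 (-2) (0) (0) (-1) (-1) (0) [[1],[0]],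
  k 64 0 3 1 2 4 (1) (2) (1) (1) (1) (1) [[0],[1]],
  k 81 0 2 1 3 4 (-2) (0) (0) (0) (1) (1) [[-2],[0]],
  k 64 0 3 1 4 2 (1) (2) (1) (1) (1) (1) [[0],[-1]],
  k 64 0 3 1 4 2 (2) (2) (1) (1) (1) (1) [[0],[-2]],
  k 81 0 2 1 3 4 (-1) (0) (0) (0) (1) (1) [[-1],[0]],
  k 64 0 3 1 2 4 (2) (2) (1) (1) (1) (1) [[0],[2]]]⟩,
⟨[⟨0,2,1,0,0⟩, ⟨0,0,0,0,1⟩], .br 9 [k 89 1 0 4 3 2 (1) (0) (0) (1) (0) (0) [[1],[0]],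
  k 68 0 4 1 3 2 (1) (0) (0) (0) (1) (0) [[1],[0]],
  k 73 0 2 4 1 3 (3) (1) (-1) (-1) (0) (0) [[0],[-3]],
  k 73 0 2 4 1 3 (1) (1) (-1) (-1) (0) (0) [[0],[-1]],
  k 68 0 4 1 3 2 (1) (0) (0) (0) (1) (0) [[1],[0]],
  k 67 2 0 1 4 3 (1) (2) (1) (1) (1) (0) [[0],[1]],
  k 73 0 2 4 1 3 (1) (1) (-1) (-1) (0) (0) [[0],[-1]],
  k 87 1 3 4 0 2 (1) (1) (0) (0) (0) (0) [[-1],[0]],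
  k 73 0 2 4 1 3 (1) (1) (-1) (-1) (0) (0) [[0],[-1]],
  z,
  k 73 0 2 4 1 3 (2) (1) (-1) (-1) (0) (0) [[0],[-2]],
  k 68 0 4 1 3 2 (1) (0) (0) (0) (1) (0) [[1],[0]],
  k 89 1 0 4 3 2 (1) (0) (0) (1) (0) (0) [[1],[0]],
  k 73 0 2 4 1 3 (-1) (1) (-1) (-1) (0) (0) [[0],[1]],
  k 67 2 0 1 4 3 (1) (2) (1) (1) (1) (0) [[0],[1]],
  k 73 0 2 4 1 3 (3) (1) (-1) (-1) (0) (0) [[0],[-3]],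
  k 68 0 4 1 3 2 (1) (0) (0) (0) (1) (0) [[1],[0]],
  k 81 3 1 4 2 0 (1) (-1) (-1) (-3) (-2) (-2) [[0],[-1]],
  k 87 1 3 4 0 2 (1) (1) (0) (0) (0) (0) [[-1],[0]],
  k 89 1 0 4 3 2 (1) (0) (0) (1) (0) (0) [[1],[0]],
  k 73 0 2 4 1 3 (2) (1) (-1) (-1) (0) (0) [[0],[-2]],
  k 67 2 0 1 4 3 (1) (2) (1) (1) (1) (0) [[0],[1]]]⟩,
⟨[⟨0,1,0,-1,2⟩, ⟨0,0,1,2,-1⟩], .br 9 [k 65 3 1 4 2 0 (-2) (-2) (-1) (1) (0) (0) [[-2],[0]],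
  k 96 0 1 2 3 4 (-1) (0) (0) (1) (2) (-1) [[-1],[0]],
  k 65 3 1 4 2 0 (-1) (-2) (-1) (1) (0) (0) [[-1],[0]],
  k 92 1 0 3 2 4 (1) (-1) (-2) (-1) (1) (-1) [[1],[0]],
  k 98 0 1 2 3 4 (-3) (0) (0) (1) (2) (-1) [[-1],[0]],
  k 92 1 2 4 3 0 (-2) (0) (0) (-2) (-1) (1) [[-1],[0]],
  k 92 1 0 3 2 4 (1) (-1) (-2) (-1) (1) (-1) [[1],[0]],
  k 65 3 1 4 2 0 (-1) (-2) (-1) (1) (0) (0) [[-1],[0]],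
  k 62 0 1 3 4 2 (1) (-4) (-3) (-4) (-2) (-3) [[0],[1]],
  z,
  k 95 0 4 1 3 2 (1) (-1) (-1) (0) (3) (1) [[0],[-1]],
  k 98 0 1 2 3 4 (-3) (0) (0) (1) (2) (-1) [[-1],[0]],
  k 65 3 1 4 2 0 (-2) (-2) (-1) (1) (0) (0) [[-2],[0]],
  k 62 0 1 3 4 2 (-1) (-4) (-3) (-4) (-2) (-3) [[0],[-1]],
  k 92 1 2 4 3 0 (-2) (0) (0) (-2) (-1) (1) [[-1],[0]],
  k 65 3 1 4 2 0 (-1) (-2) (-1) (1) (0) (0) [[-1],[0]],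
  k 96 0 1 2 3 4 (-1) (0) (0) (1) (2) (-1) [[-1],[0]],
  k 62 0 1 3 4 2 (-2) (-4) (-3) (-4) (-2) (-3) [[0],[-2]],
  k 62 0 1 3 4 2 (3) (-4) (-3) (-4) (-2) (-3) [[0],[3]],
  k 97 0 1 2 3 4 (-4) (0) (0) (1) (2) (-1) [[-1],[0]],
  k 95 0 4 1 3 2 (1) (-1) (-1) (0) (3) (1) [[0],[-1]],
  k 95 0 4 1 3 2 (2) (-1) (-1) (0) (3) (1) [[0],[-2]]]⟩,
⟨[⟨0,1,0,-1,1⟩, ⟨0,0,1,2,-1⟩], .br 9 [k 92 2 4 0 3 1 (-2) (0) (0) (3) (2) (1) [[-1],[0]],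
  k 76 2 1 0 3 4 (-1) (0) (0) (2) (1) (-1) [[-1],[0]],
  k 76 2 1 0 3 4 (-1) (0) (0) (2) (1) (-1) [[-1],[0]],
  k 88 0 3 4 2 1 (1) (1) (-1) (-1) (-1) (2) [[1],[0]],
  k 71 0 2 3 1 4 (3) (2) (1) (1) (2) (1) [[0],[-3]],
  k 71 0 2 3 1 4 (2) (2) (1) (1) (2) (1) [[0],[-2]],
  k 88 0 3 4 2 1 (1) (1) (-1) (-1) (-1) (2) [[1],[0]],
  k 71 0 2 3 1 4 (1) (2) (1) (1) (2) (1) [[0],[-1]],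
  k 71 0 2 3 1 4 (1) (2) (1) (1) (2) (1) [[0],[-1]],
  z,
  k 94 0 4 1 3 2 (1) (-1) (-1) (0) (2) (1) [[0],[-1]],
  k 71 0 2 3 1 4 (3) (2) (1) (1) (2) (1) [[0],[-3]],
  k 92 2 4 0 3 1 (-2) (0) (0) (3) (2) (1) [[-1],[0]],
  k 71 0 2 3 1 4 (-1) (2) (1) (1) (2) (1) [[0],[1]],
  k 71 0 2 3 1 4 (2) (2) (1) (1) (2) (1) [[0],[-2]],
  k 76 2 1 0 3 4 (-1) (0) (0) (2) (1) (-1) [[-1],[0]],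
  k 76 2 1 0 3 4 (-1) (0) (0) (2) (1) (-1) [[-1],[0]],
  k 79 3 1 4 2 0 (-1) (1) (0) (-2) (-1) (-1) [[0],[1]],
  k 83 4 2 3 0 1 (2) (2) (1) (2) (1) (3) [[0],[-1]],
  k 71 0 2 3 1 4 (4) (2) (1) (1) (2) (1) [[0],[-4]],
  k 94 0 4 1 3 2 (1) (-1) (-1) (0) (2) (1) [[0],[-1]],
  k 94 0 4 1 3 2 (1) (-1) (-1) (0) (2) (1) [[0],[-1]]]⟩,
⟨[⟨0,1,0,-1,1⟩, ⟨0,0,1,2,0⟩], .br 8 [k 84 1 0 4 3 2 (2) (0) (1) (3) (2) (1) [[0],[-2]],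
  k 74 1 2 4 3 0 (1) (0) (1) (2) (1) (-1) [[0],[-1]],
  k 84 1 0 4 3 2 (1) (0) (1) (3) (2) (1) [[0],[-1]],
  k 68 2 1 4 0 3 (-1) (1) (2) (3) (1) (0) [[0],[-1]],
  k 87 1 3 0 4 2 (-1) (-1) (1) (1) (1) (-1) [[-1],[0]],
  k 84 1 0 4 3 2 (1) (0) (1) (3) (2) (1) [[0],[-1]],
  k 68 2 1 4 0 3 (-1) (1) (2) (3) (1) (0) [[0],[-1]],
  k 87 0 3 4 2 1 (1) (1) (0) (0) (0) (2) [[1],[0]],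
  z,
  k 60 0 1 3 4 2 (-1) (-3) (-2) (-3) (-1) (-2) [[0],[-1]],
  k 87 0 3 4 2 1 (1) (1) (0) (0) (0) (2) [[1],[0]],
  k 87 1 3 0 4 2 (-1) (-1) (1) (1) (1) (-1) [[-1],[0]],
  k 84 1 0 4 3 2 (2) (0) (1) (3) (2) (1) [[0],[-2]],
  k 60 0 1 3 4 2 (-2) (-3) (-2) (-3) (-1) (-2) [[0],[-2]],
  k 84 1 0 4 3 2 (1) (0) (1) (3) (2) (1) [[0],[-1]],
  k 84 1 0 4 3 2 (1) (0) (1) (3) (2) (1) [[0],[-1]],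
  k 74 1 2 4 3 0 (1) (0) (1) (2) (1) (-1) [[0],[-1]],
  k 60 0 1 3 4 2 (-2) (-3) (-2) (-3) (-1) (-2) [[0],[-2]],
  k 60 0 1 3 4 2 (1) (-3) (-2) (-3) (-1) (-2) [[0],[1]],
  k 97 0 1 2 3 4 (-2) (0) (0) (1) (2) (0) [[-1],[0]],
  k 87 0 3 4 2 1 (1) (1) (0) (0) (0) (2) [[1],[0]],
  k 87 0 3 4 2 1 (2) (1) (0) (0) (0) (2) [[2],[0]]]⟩,
⟨[⟨0,0,1,2,0⟩, ⟨0,0,0,0,1⟩], .br 17 [k 76 0 2 1 3 4 (-2) (0) (0) (1) (0) (2) [[0],[-2]],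
  k 97 0 1 2 3 4 (-1) (0) (0) (1) (2) (0) [[0],[-1]],
  k 83 1 0 2 3 4 (1) (0) (0) (1) (0) (0) [[1],[0]],
  k 83 1 0 4 3 2 (1) (0) (0) (1) (0) (0) [[-1],[0]],
  k 97 0 1 4 3 2 (2) (0) (0) (0) (0) (1) [[-1],[0]],
  k 76 0 2 1 3 4 (-2) (0) (0) (1) (0) (2) [[0],[-2]],
  k 83 1 0 4 3 2 (1) (0) (0) (1) (0) (0) [[-1],[0]],
  k 97 0 1 2 3 4 (-1) (0) (0) (1) (2) (0) [[0],[-1]],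
  k 83 1 0 2 3 4 (1) (0) (0) (1) (0) (0) [[1],[0]],
  k 76 0 2 1 3 4 (-1) (0) (0) (1) (0) (2) [[0],[-1]],
  k 76 0 2 1 3 4 (-1) (0) (0) (1) (0) (2) [[0],[-1]],
  k 97 0 1 4 3 2 (2) (0) (0) (0) (0) (1) [[-1],[0]],
  k 76 0 2 1 3 4 (-2) (0) (0) (1) (0) (2) [[0],[-2]],
  k 83 1 0 4 3 2 (1) (0) (0) (1) (0) (0) [[-1],[0]],
  k 76 0 2 1 3 4 (-2) (0) (0) (1) (0) (2) [[0],[-2]],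
  k 83 1 0 2 3 4 (1) (0) (0) (1) (0) (0) [[1],[0]],
  k 97 0 1 2 3 4 (-1) (0) (0) (1) (2) (0) [[0],[-1]],
  z,
  k 97 0 1 4 3 2 (2) (0) (0) (0) (0) (1) [[-1],[0]],
  k 83 1 0 2 3 4 (2) (0) (0) (1) (0) (0) [[2],[0]],
  k 76 0 2 1 3 4 (-1) (0) (0) (1) (0) (2) [[0],[-1]],
  k 83 1 0 4 3 2 (2) (0) (0) (1) (0) (0) [[-2],[0]]]⟩,
⟨[⟨0,1,0,-1,0⟩, ⟨0,0,2,4,1⟩], .br 8 [k 74 4 2 1 3 0 (1) (0) (1) (1) (1) (-1) [[0],[-1]],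
  k 75 1 0 4 2 3 (3) (-1) (1) (-3) (-2) (-4) [[3],[0]],
  k 96 0 1 2 3 4 (1) (0) (1) (0) (-1) (0) [[0],[1]],
  k 97 0 1 2 3 4 (-1) (0) (1) (0) (-1) (0) [[0],[-1]],
  k 85 1 3 0 4 2 (1) (1) (-1) (0) (-1) (1) [[0],[1]],
  k 75 1 0 4 2 3 (1) (-1) (1) (-3) (-2) (-4) [[1],[0]],
  k 97 0 1 2 3 4 (-1) (0) (1) (0) (-1) (0) [[0],[-1]],
  k 80 4 2 3 0 1 (-1) (1) (1) (1) (1) (2) [[0],[1]],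
  z,
  k 82 0 3 2 1 4 (-1) (1) (2) (1) (1) (1) [[0],[1]],
  k 75 1 0 4 2 3 (2) (-1) (1) (-3) (-2) (-4) [[2],[0]],
  k 85 1 3 0 4 2 (1) (1) (-1) (0) (-1) (1) [[0],[1]],
  k 74 4 2 1 3 0 (1) (0) (1) (1) (1) (-1) [[0],[-1]],
  k 82 0 3 2 1 4 (-2) (1) (2) (1) (1) (1) [[0],[2]],
  k 75 1 0 4 2 3 (1) (-1) (1) (-3) (-2) (-4) [[1],[0]],
  k 96 0 1 2 3 4 (1) (0) (1) (0) (-1) (0) [[0],[1]],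
  k 75 1 0 4 2 3 (3) (-1) (1) (-3) (-2) (-4) [[3],[0]],
  k 80 4 2 3 0 1 (-1) (1) (1) (1) (1) (2) [[0],[1]],
  k 75 1 0 4 2 3 (-1) (-1) (1) (-3) (-2) (-4) [[-1],[0]],
  k 94 0 1 2 3 4 (2) (0) (1) (0) (-1) (0) [[0],[1]],
  k 75 1 0 4 2 3 (2) (-1) (1) (-3) (-2) (-4) [[2],[0]],
  k 98 0 1 2 3 4 (-1) (0) (1) (0) (-1) (0) [[0],[-1]]]⟩,
⟨[⟨0,1,0,-1,0⟩, ⟨0,0,1,2,0⟩], .br 13 [k 98 0 1 2 3 4 (-2) (0) (0) (1) (2) (0) [[-1],[0]],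
  k 60 3 1 4 2 0 (-1) (-1) (-1) (1) (0) (0) [[-1],[0]],
  k 98 0 1 2 3 4 (-2) (0) (0) (1) (2) (0) [[-1],[0]],
  k 81 1 0 4 3 2 (1) (0) (1) (2) (2) (1) [[0],[-1]],
  k 67 0 2 3 1 4 (3) (2) (1) (1) (1) (1) [[0],[-3]],
  k 67 0 2 3 1 4 (2) (2) (1) (1) (1) (1) [[0],[-2]],
  k 81 1 0 4 3 2 (1) (0) (1) (2) (2) (1) [[0],[-1]],
  k 67 0 2 3 1 4 (1) (2) (1) (1) (1) (1) [[0],[-1]],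
  k 67 0 2 3 1 4 (2) (2) (1) (1) (1) (1) [[0],[-2]],
  k 67 0 2 3 1 4 (1) (2) (1) (1) (1) (1) [[0],[-1]],
  k 60 3 1 4 2 0 (-1) (-1) (-1) (1) (0) (0) [[-1],[0]],
  k 67 0 2 3 1 4 (3) (2) (1) (1) (1) (1) [[0],[-3]],
  k 98 0 1 2 3 4 (-2) (0) (0) (1) (2) (0) [[-1],[0]],
  z,
  k 67 0 2 3 1 4 (2) (2) (1) (1) (1) (1) [[0],[-2]],
  k 98 0 1 2 3 4 (-2) (0) (0) (1) (2) (0) [[-1],[0]],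
  k 60 3 1 4 2 0 (-1) (-1) (-1) (1) (0) (0) [[-1],[0]],
  k 81 1 0 4 3 2 (1) (0) (1) (2) (2) (1) [[0],[-1]],
  k 60 0 1 4 2 3 (2) (0) (0) (2) (1) (1) [[0],[1]],
  k 67 0 2 3 1 4 (4) (2) (1) (1) (1) (1) [[0],[-4]],
  k 60 3 1 4 2 0 (-1) (-1) (-1) (1) (0) (0) [[-1],[0]],
  k 81 1 0 4 3 2 (1) (0) (1) (2) (2) (1) [[0],[-1]]]⟩,
⟨[⟨0,2,0,1,1⟩, ⟨0,0,1,1,0⟩], .br 8 [k 56 0 3 1 4 2 (3) (-3) (-2) (-2) (0) (-1) [[0],[-3]],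
  k 56 0 3 1 4 2 (4) (-3) (-2) (-2) (0) (-1) [[0],[-4]],
  k 56 0 3 1 4 2 (2) (-3) (-2) (-2) (0) (-1) [[0],[-2]],
  k 86 2 1 0 3 4 (1) (0) (2) (1) (0) (1) [[0],[-1]],
  k 86 1 2 4 3 0 (-1) (0) (0) (-1) (-1) (0) [[-1],[0]],
  k 56 0 3 1 4 2 (1) (-3) (-2) (-2) (0) (-1) [[0],[-1]],
  k 86 2 1 0 3 4 (1) (0) (2) (1) (0) (1) [[0],[-1]],
  k 56 0 3 1 4 2 (2) (-3) (-2) (-2) (0) (-1) [[0],[-2]],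
  z,
  k 56 0 3 1 4 2 (1) (-3) (-2) (-2) (0) (-1) [[0],[-1]],
  k 56 0 3 1 4 2 (3) (-3) (-2) (-2) (0) (-1) [[0],[-3]],
  k 86 1 2 4 3 0 (-1) (0) (0) (-1) (-1) (0) [[-1],[0]],
  k 56 0 3 1 4 2 (3) (-3) (-2) (-2) (0) (-1) [[0],[-3]],
  k 60 0 2 4 1 3 (-1) (2) (1) (0) (0) (-1) [[0],[1]],
  k 87 2 1 0 3 4 (-1) (0) (0) (1) (1) (0) [[-1],[0]],
  k 56 0 3 1 4 2 (2) (-3) (-2) (-2) (0) (-1) [[0],[-2]],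
  k 56 0 3 1 4 2 (4) (-3) (-2) (-2) (0) (-1) [[0],[-4]],
  k 74 3 1 4 0 2 (1) (-1) (-1) (0) (0) (0) [[-1],[0]],
  k 60 0 2 4 1 3 (1) (2) (1) (0) (0) (-1) [[0],[-1]],
  k 74 3 2 0 4 1 (-1) (1) (1) (0) (0) (0) [[1],[0]],
  k 56 0 3 1 4 2 (3) (-3) (-2) (-2) (0) (-1) [[0],[-3]],
  k 87 1 2 4 3 0 (1) (0) (0) (-1) (-1) (0) [[1],[0]]]⟩,
⟨[⟨0,1,0,1,1⟩, ⟨0,0,1,1,0⟩], .br 8 [k 55 0 3 1 4 2 (2) (-2) (-1) (-1) (0) (-1) [[0],[-2]],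
  k 55 0 3 1 4 2 (3) (-2) (-1) (-1) (0) (-1) [[0],[-3]],
  k 55 0 3 1 4 2 (1) (-2) (-1) (-1) (0) (-1) [[0],[-1]],
  k 82 1 0 4 3 2 (1) (0) (1) (1) (0) (-1) [[0],[-1]],
  k 82 1 3 0 4 2 (-1) (-1) (0) (0) (0) (-1) [[-1],[0]],
  k 55 0 3 1 4 2 (1) (-2) (-1) (-1) (0) (-1) [[0],[-1]],
  k 82 1 0 4 3 2 (1) (0) (1) (1) (0) (-1) [[0],[-1]],
  k 55 0 3 1 4 2 (2) (-2) (-1) (-1) (0) (-1) [[0],[-2]],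
  z,
  k 55 0 3 1 4 2 (1) (-2) (-1) (-1) (0) (-1) [[0],[-1]],
  k 55 0 3 1 4 2 (2) (-2) (-1) (-1) (0) (-1) [[0],[-2]],
  k 82 1 3 0 4 2 (-1) (-1) (0) (0) (0) (-1) [[-1],[0]],
  k 55 0 3 1 4 2 (2) (-2) (-1) (-1) (0) (-1) [[0],[-2]],
  k 57 0 3 2 1 4 (1) (0) (-1) (-1) (-1) (-1) [[1],[0]],
  k 70 2 4 0 3 1 (-1) (0) (0) (1) (1) (0) [[-1],[0]],
  k 55 0 3 1 4 2 (1) (-2) (-1) (-1) (0) (-1) [[0],[-1]],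
  k 55 0 3 1 4 2 (3) (-2) (-1) (-1) (0) (-1) [[0],[-3]],
  k 57 0 3 2 1 4 (1) (0) (-1) (-1) (-1) (-1) [[1],[0]],
  k 57 1 4 2 3 0 (1) (1) (0) (2) (1) (1) [[0],[-1]],
  k 57 1 4 2 3 0 (1) (1) (0) (2) (1) (1) [[0],[-1]],
  k 55 0 3 1 4 2 (2) (-2) (-1) (-1) (0) (-1) [[0],[-2]],
  k 70 1 0 4 3 2 (1) (0) (0) (-1) (-1) (0) [[1],[0]]]⟩,
⟨[⟨0,1,0,-1,0⟩, ⟨0,0,1,0,0⟩], .br 14 [k 96 0 1 2 3 4 (1) (0) (1) (0) (-1) (0) [[0],[-1]],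
  k 71 1 0 4 2 3 (1) (0) (1) (1) (1) (0) [[1],[0]],
  k 96 0 1 2 3 4 (1) (0) (1) (0) (-1) (0) [[0],[-1]],
  k 96 3 1 2 0 4 (-1) (0) (-1) (0) (1) (0) [[0],[1]],
  k 82 1 0 3 4 2 (1) (-1) (1) (0) (1) (-1) [[0],[-1]],
  k 71 1 0 4 2 3 (2) (0) (1) (1) (1) (0) [[2],[0]],
  k 96 3 1 2 0 4 (-1) (0) (-1) (0) (1) (0) [[0],[1]],
  k 82 1 2 0 4 3 (-1) (-1) (-2) (-2) (-2) (-1) [[0],[1]],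
  k 71 1 0 4 2 3 (2) (0) (1) (1) (1) (0) [[2],[0]],
  k 82 1 2 0 4 3 (-1) (-1) (-2) (-2) (-2) (-1) [[0],[1]],
  k 71 1 0 4 2 3 (1) (0) (1) (1) (1) (0) [[1],[0]],
  k 82 1 0 3 4 2 (1) (-1) (1) (0) (1) (-1) [[0],[-1]],
  k 96 0 1 2 3 4 (1) (0) (1) (0) (-1) (0) [[0],[-1]],
  k 82 1 2 0 4 3 (-2) (-1) (-2) (-2) (-2) (-1) [[0],[2]],
  z,
  k 96 0 1 2 3 4 (1) (0) (1) (0) (-1) (0) [[0],[-1]],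
  k 71 1 0 4 2 3 (1) (0) (1) (1) (1) (0) [[1],[0]],
  k 96 3 1 2 0 4 (-1) (0) (-1) (0) (1) (0) [[0],[1]],
  k 71 1 0 4 2 3 (1) (0) (1) (1) (1) (0) [[1],[0]],
  k 82 1 0 3 4 2 (2) (-1) (1) (0) (1) (-1) [[0],[-2]],
  k 71 1 0 4 2 3 (1) (0) (1) (1) (1) (0) [[1],[0]],
  k 96 3 1 2 0 4 (-1) (0) (-1) (0) (1) (0) [[0],[1]]]⟩,
⟨[⟨3,1,0,1,1⟩, ⟨0,0,1,1,0⟩], .br 21 [k 82 4 2 3 0 1 (-1) (-1) (-1) (-1) (0) (-1) [[1],[0]],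
  k 83 0 3 1 2 4 (1) (-1) (2) (0) (-1) (0) [[0],[1]],
  k 96 0 1 2 3 4 (-1) (3) (1) (0) (1) (1) [[0],[1]],
  k 53 0 3 1 4 2 (-1) (-2) (2) (-1) (0) (-1) [[0],[1]],
  k 82 4 2 3 0 1 (-2) (-1) (-1) (-1) (0) (-1) [[2],[0]],
  k 96 0 1 2 3 4 (-1) (3) (1) (0) (1) (1) [[0],[1]],
  k 53 0 3 1 4 2 (2) (-2) (2) (-1) (0) (-1) [[0],[-2]],
  k 76 0 1 4 2 3 (-1) (-1) (-1) (-2) (-1) (-1) [[1],[0]],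
  k 83 0 3 1 2 4 (1) (-1) (2) (0) (-1) (0) [[0],[1]],
  k 99 0 1 2 3 4 (-1) (0) (0) (1) (1) (0) [[-1],[0]],
  k 76 0 1 4 2 3 (-1) (-1) (-1) (-2) (-1) (-1) [[1],[0]],
  k 97 0 1 2 3 4 (-2) (0) (0) (1) (1) (0) [[-1],[0]],
  k 98 0 1 2 3 4 (-1) (0) (0) (1) (1) (0) [[-1],[0]],
  k 53 0 3 1 4 2 (1) (-2) (2) (-1) (0) (-1) [[0],[-1]],
  k 99 0 1 2 3 4 (-2) (0) (0) (1) (1) (0) [[-2],[0]],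
  k 99 0 1 2 3 4 (-1) (0) (0) (1) (1) (0) [[-1],[0]],
  k 98 3 1 4 2 0 (-1) (-1) (-1) (0) (0) (0) [[1],[0]],
  k 53 0 3 1 4 2 (1) (-2) (2) (-1) (0) (-1) [[0],[-1]],
  k 83 0 3 1 2 4 (2) (-1) (2) (0) (-1) (0) [[0],[2]],
  k 100 0 1 2 3 4 (-1) (3) (1) (0) (1) (1) [[0],[1]],
  k 82 4 2 3 0 1 (-1) (-1) (-1) (-1) (0) (-1) [[1],[0]],
  z]⟩,
⟨[⟨1,0,0,0,0⟩, ⟨0,1,3,4,1⟩], .br 1 [k 62 2 3 4 0 1 (-1) (4) (1) (2) (1) (3) [[1],[0]],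
  z,
  k 62 2 3 4 0 1 (-2) (4) (1) (2) (1) (3) [[2],[0]],
  k 62 2 3 4 0 1 (1) (4) (1) (2) (1) (3) [[-1],[0]],
  k 62 2 3 4 0 1 (-4) (4) (1) (2) (1) (3) [[4],[0]],
  k 62 2 3 4 0 1 (-2) (4) (1) (2) (1) (3) [[2],[0]],
  k 95 4 3 2 1 0 (1) (0) (0) (-1) (-1) (-1) [[0],[-1]],
  k 101 0 1 2 3 4 (1) (1) (0) (0) (0) (0) [[0],[1]],
  k 75 0 1 4 2 3 (1) (1) (0) (0) (0) (0) [[0],[-1]],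
  k 103 0 1 2 3 4 (1) (1) (0) (0) (0) (0) [[0],[1]],
  k 101 0 1 2 3 4 (1) (1) (0) (0) (0) (0) [[0],[1]],
  k 100 0 1 2 3 4 (1) (1) (0) (0) (0) (0) [[0],[1]],
  k 95 4 3 2 1 0 (-1) (0) (0) (-1) (-1) (-1) [[0],[1]],
  k 67 2 4 0 3 1 (1) (1) (0) (1) (0) (1) [[0],[1]],
  k 75 0 1 4 2 3 (1) (1) (0) (0) (0) (0) [[0],[-1]],
  k 103 0 1 2 3 4 (1) (1) (0) (0) (0) (0) [[0],[1]],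
  k 67 2 4 0 3 1 (1) (1) (0) (1) (0) (1) [[0],[1]],
  k 67 2 4 0 3 1 (1) (1) (0) (1) (0) (1) [[0],[1]],
  k 102 0 1 2 3 4 (1) (1) (0) (0) (0) (0) [[0],[1]],
  k 62 2 3 4 0 1 (-5) (4) (1) (2) (1) (3) [[5],[0]],
  k 62 2 3 4 0 1 (-1) (4) (1) (2) (1) (3) [[1],[0]],
  k 62 2 3 4 0 1 (2) (4) (1) (2) (1) (3) [[-2],[0]]]⟩,
⟨[⟨1,0,-1,-1,0⟩, ⟨0,1,2,3,1⟩], .br 3 [k 68 0 1 4 2 3 (1) (2) (1) (2) (1) (1) [[0],[-1]],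
  k 78 1 3 0 4 2 (1) (1) (1) (0) (0) (1) [[0],[1]],
  k 78 2 0 4 1 3 (1) (1) (0) (0) (-1) (1) [[0],[-1]],
  z,
  k 104 0 1 2 3 4 (2) (1) (0) (-1) (-1) (0) [[0],[1]],
  k 78 2 0 4 1 3 (1) (1) (0) (0) (-1) (1) [[0],[-1]],
  k 78 1 3 0 4 2 (1) (1) (1) (0) (0) (1) [[0],[1]],
  k 104 1 2 3 4 0 (-1) (-1) (-1) (0) (-2) (-1) [[1],[0]],
  k 104 0 1 2 3 4 (2) (1) (0) (-1) (-1) (0) [[0],[1]],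
  k 68 0 1 4 2 3 (2) (2) (1) (2) (1) (1) [[0],[-2]],
  k 104 1 2 3 4 0 (-1) (-1) (-1) (0) (-2) (-1) [[1],[0]],
  k 68 0 1 4 2 3 (3) (2) (1) (2) (1) (1) [[0],[-3]],
  k 53 0 3 1 4 2 (-1) (0) (1) (1) (2) (-1) [[-1],[0]],
  k 68 0 1 4 2 3 (1) (2) (1) (2) (1) (1) [[0],[-1]],
  k 103 0 1 2 3 4 (-2) (0) (1) (2) (3) (1) [[-1],[0]],
  k 68 0 1 4 2 3 (2) (2) (1) (2) (1) (1) [[0],[-2]],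
  k 78 1 3 0 4 2 (2) (1) (1) (0) (0) (1) [[0],[2]],
  k 68 0 1 4 2 3 (1) (2) (1) (2) (1) (1) [[0],[-1]],
  k 103 4 3 2 1 0 (3) (1) (0) (-1) (-1) (0) [[0],[-1]],
  k 78 2 0 4 1 3 (2) (1) (0) (0) (-1) (1) [[0],[-2]],
  k 68 0 1 4 2 3 (1) (2) (1) (2) (1) (1) [[0],[-1]],
  k 53 0 3 1 4 2 (1) (0) (1) (1) (2) (-1) [[1],[0]]]⟩,
⟨[⟨1,0,1,1,0⟩, ⟨0,1,-1,0,1⟩], .br 4 [k 51 0 1 2 3 4 (1) (1) (0) (1) (1) (0) [[0],[-1]],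
  k 77 1 0 4 3 2 (1) (1) (0) (-1) (-1) (0) [[0],[1]],
  k 77 0 2 4 1 3 (1) (-1) (0) (1) (1) (0) [[0],[1]],
  k 103 0 1 2 3 4 (2) (1) (0) (1) (1) (0) [[0],[1]],
  z,
  k 77 0 2 4 1 3 (1) (-1) (0) (1) (1) (0) [[0],[1]],
  k 51 0 1 2 3 4 (3) (1) (0) (1) (1) (0) [[0],[-3]],
  k 103 2 0 3 1 4 (-1) (2) (1) (1) (2) (1) [[-1],[0]],
  k 103 0 1 2 3 4 (2) (1) (0) (1) (1) (0) [[0],[1]],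
  k 51 0 1 2 3 4 (2) (1) (0) (1) (1) (0) [[0],[-2]],
  k 103 2 0 3 1 4 (-1) (2) (1) (1) (2) (1) [[-1],[0]],
  k 77 1 0 4 3 2 (1) (1) (0) (-1) (-1) (0) [[0],[1]],
  k 52 0 1 2 3 4 (-1) (0) (1) (-1) (0) (1) [[1],[0]],
  k 104 0 1 2 3 4 (3) (1) (0) (1) (1) (0) [[0],[1]],
  k 96 2 0 3 1 4 (1) (-1) (0) (-1) (-1) (0) [[0],[1]],
  k 51 0 1 2 3 4 (2) (1) (0) (1) (1) (0) [[0],[-2]],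
  k 77 1 0 4 3 2 (2) (1) (0) (-1) (-1) (0) [[0],[2]],
  k 104 0 1 2 3 4 (3) (1) (0) (1) (1) (0) [[0],[1]],
  k 51 0 1 2 3 4 (1) (1) (0) (1) (1) (0) [[0],[-1]],
  k 52 0 1 2 3 4 (-1) (0) (1) (-1) (0) (1) [[1],[0]],
  k 51 0 1 2 3 4 (1) (1) (0) (1) (1) (0) [[0],[-1]],
  k 51 0 1 2 3 4 (2) (1) (0) (1) (1) (0) [[0],[-2]]]⟩,
⟨[⟨2,1,0,1,1⟩, ⟨0,0,1,1,0⟩], .br 18 [k 76 0 2 4 1 3 (-1) (1) (1) (2) (0) (-1) [[0],[-1]],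
  k 76 2 0 4 1 3 (1) (-1) (0) (0) (1) (0) [[-1],[0]],
  k 71 0 3 4 2 1 (1) (1) (0) (0) (0) (1) [[-1],[0]],
  k 76 0 2 4 1 3 (-2) (1) (1) (2) (0) (-1) [[0],[-2]],
  k 49 0 3 1 4 2 (-1) (-2) (1) (-1) (0) (-1) [[0],[1]],
  k 71 0 3 4 2 1 (1) (1) (0) (0) (0) (1) [[-1],[0]],
  k 76 2 0 4 1 3 (2) (-1) (0) (0) (1) (0) [[-2],[0]],
  k 71 2 3 4 0 1 (1) (1) (1) (0) (-1) (-2) [[0],[-1]],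
  k 76 0 2 4 1 3 (-1) (1) (1) (2) (0) (-1) [[0],[-1]],
  k 76 2 0 4 1 3 (1) (-1) (0) (0) (1) (0) [[-1],[0]],
  k 71 2 3 4 0 1 (1) (1) (1) (0) (-1) (-2) [[0],[-1]],
  k 49 0 3 1 4 2 (1) (-2) (1) (-1) (0) (-1) [[0],[-1]],
  k 100 0 1 2 3 4 (1) (0) (0) (1) (1) (0) [[1],[0]],
  k 104 0 1 2 3 4 (-1) (2) (1) (0) (1) (1) [[0],[-1]],
  k 49 0 3 1 4 2 (2) (-2) (1) (-1) (0) (-1) [[0],[-2]],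
  k 76 2 0 4 1 3 (1) (-1) (0) (0) (1) (0) [[-1],[0]],
  k 100 2 1 0 3 4 (1) (0) (0) (1) (1) (0) [[-1],[0]],
  k 104 0 1 2 3 4 (-1) (2) (1) (0) (1) (1) [[0],[-1]],
  z,
  k 49 0 3 1 4 2 (-2) (-2) (1) (-1) (0) (-1) [[0],[2]],
  k 76 0 2 4 1 3 (-1) (1) (1) (2) (0) (-1) [[0],[-1]],
  k 104 0 1 2 3 4 (-1) (2) (1) (0) (1) (1) [[0],[-1]]]⟩,
⟨[⟨1,0,-1,-1,0⟩, ⟨0,1,1,2,1⟩], .br 18 [k 49 0 1 2 3 4 (-2) (1) (0) (-1) (-1) (0) [[0],[2]],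
  k 104 0 1 2 3 4 (-2) (1) (0) (-1) (-1) (0) [[0],[-1]],
  k 70 0 1 4 2 3 (1) (-1) (0) (-1) (-1) (-2) [[1],[0]],
  k 104 2 3 0 1 4 (2) (1) (0) (-1) (-1) (0) [[1],[0]],
  k 49 0 1 2 3 4 (-1) (1) (0) (-1) (-1) (0) [[0],[1]],
  k 70 0 1 4 2 3 (1) (-1) (0) (-1) (-1) (-2) [[1],[0]],
  k 49 0 1 2 3 4 (-2) (1) (0) (-1) (-1) (0) [[0],[2]],
  k 70 2 3 4 0 1 (-1) (-1) (0) (-1) (-1) (-2) [[0],[-1]],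
  k 50 1 4 2 3 0 (-1) (-1) (-1) (0) (0) (1) [[0],[1]],
  k 49 0 1 2 3 4 (-1) (1) (0) (-1) (-1) (0) [[0],[1]],
  k 70 2 3 4 0 1 (-1) (-1) (0) (-1) (-1) (-2) [[0],[-1]],
  k 50 0 3 1 4 2 (1) (-1) (0) (0) (1) (-1) [[1],[0]],
  k 104 2 3 0 1 4 (2) (1) (0) (-1) (-1) (0) [[1],[0]],
  k 70 0 1 4 2 3 (1) (-1) (0) (-1) (-1) (-2) [[1],[0]],
  k 50 0 3 1 4 2 (2) (-1) (0) (0) (1) (-1) [[2],[0]],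
  k 49 0 1 2 3 4 (-1) (1) (0) (-1) (-1) (0) [[0],[1]],
  k 105 0 1 2 3 4 (-1) (1) (0) (-1) (-1) (0) [[0],[-1]],
  k 70 0 1 4 2 3 (1) (-1) (0) (-1) (-1) (-2) [[1],[0]],
  z,
  k 50 1 4 2 3 0 (-1) (-1) (-1) (0) (0) (1) [[0],[1]],
  k 49 0 1 2 3 4 (-2) (1) (0) (-1) (-1) (0) [[0],[2]],
  k 49 0 1 2 3 4 (-3) (1) (0) (-1) (-1) (0) [[0],[3]]]⟩,
⟨[⟨1,0,1,1,0⟩, ⟨0,1,-2,-1,1⟩], .br 3 [k 77 0 3 1 2 4 (-1) (1) (1) (0) (0) (1) [[0],[-1]],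
  k 103 1 2 3 0 4 (-1) (-1) (-1) (0) (0) (-1) [[0],[1]],
  k 74 2 0 4 1 3 (-1) (-1) (0) (0) (1) (1) [[0],[1]],
  z,
  k 99 4 2 1 0 3 (-2) (0) (1) (0) (1) (-1) [[0],[-1]],
  k 74 2 0 4 1 3 (-1) (-1) (0) (0) (1) (1) [[0],[1]],
  k 62 1 0 4 3 2 (1) (1) (0) (-1) (-1) (0) [[0],[1]],
  k 49 0 1 2 3 4 (3) (0) (1) (-2) (-1) (1) [[-3],[0]],
  k 49 0 1 2 3 4 (1) (0) (1) (-2) (-1) (1) [[-1],[0]],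
  k 49 0 1 2 3 4 (2) (0) (1) (-2) (-1) (1) [[-2],[0]],
  k 49 0 1 2 3 4 (3) (0) (1) (-2) (-1) (1) [[-3],[0]],
  k 97 0 1 2 3 4 (-1) (1) (0) (1) (1) (0) [[0],[-1]],
  k 103 0 1 2 3 4 (-2) (1) (0) (1) (1) (0) [[0],[-1]],
  k 65 2 1 4 0 3 (1) (-1) (-1) (-2) (-1) (0) [[0],[1]],
  k 105 0 1 2 3 4 (-1) (1) (0) (1) (1) (0) [[0],[-1]],
  k 49 0 1 2 3 4 (2) (0) (1) (-2) (-1) (1) [[-2],[0]],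
  k 49 0 1 2 3 4 (4) (0) (1) (-2) (-1) (1) [[-4],[0]],
  k 65 2 1 4 0 3 (1) (-1) (-1) (-2) (-1) (0) [[0],[1]],
  k 103 1 2 3 0 4 (-1) (-1) (-1) (0) (0) (-1) [[0],[1]],
  k 74 2 0 4 1 3 (-2) (-1) (0) (0) (1) (1) [[0],[2]],
  k 77 0 3 1 2 4 (-1) (1) (1) (0) (0) (1) [[0],[-1]],
  k 49 0 1 2 3 4 (1) (0) (1) (-2) (-1) (1) [[-1],[0]]]⟩,
⟨[⟨1,0,-3,-4,-1⟩, ⟨0,1,3,4,1⟩], .br 4 [k 46 1 0 3 4 2 (-3) (0) (2) (-1) (3) (-1) [[0],[3]],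
  k 46 1 0 3 4 2 (-4) (0) (2) (-1) (3) (-1) [[0],[4]],
  k 46 1 0 3 4 2 (-2) (0) (2) (-1) (3) (-1) [[0],[2]],
  k 105 0 1 2 3 4 (5) (0) (1) (3) (4) (1) [[1],[0]],
  z,
  k 61 4 2 0 1 3 (2) (2) (3) (5) (2) (1) [[1],[0]],
  k 46 1 0 3 4 2 (-5) (0) (2) (-1) (3) (-1) [[0],[5]],
  k 46 1 0 3 4 2 (-3) (0) (2) (-1) (3) (-1) [[0],[3]],
  k 46 1 0 3 4 2 (-1) (0) (2) (-1) (3) (-1) [[0],[1]],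
  k 46 1 0 3 4 2 (-2) (0) (2) (-1) (3) (-1) [[0],[2]],
  k 105 0 3 4 1 2 (-2) (-3) (-4) (-3) (-4) (-1) [[0],[1]],
  k 61 2 4 0 3 1 (1) (1) (0) (-2) (-2) (2) [[0],[1]],
  k 108 0 1 2 3 4 (3) (0) (1) (3) (4) (1) [[1],[0]],
  k 106 0 1 2 3 4 (4) (0) (1) (3) (4) (1) [[1],[0]],
  k 108 0 3 4 1 2 (1) (2) (3) (3) (4) (1) [[-1],[0]],
  k 106 0 3 4 1 2 (-1) (-3) (-4) (-3) (-4) (-1) [[0],[1]],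
  k 107 0 1 2 3 4 (-3) (1) (0) (-3) (-4) (-1) [[0],[-1]],
  k 46 1 0 3 4 2 (-4) (0) (2) (-1) (3) (-1) [[0],[4]],
  k 46 1 0 3 4 2 (1) (0) (2) (-1) (3) (-1) [[0],[-1]],
  k 46 1 0 3 4 2 (1) (0) (2) (-1) (3) (-1) [[0],[-1]],
  k 46 1 0 3 4 2 (-3) (0) (2) (-1) (3) (-1) [[0],[3]],
  k 107 0 3 4 1 2 (6) (2) (3) (3) (4) (1) [[-1],[0]]]⟩,
⟨[⟨1,0,0,-1,-1⟩, ⟨0,0,1,1,0⟩], .br 3 [k 47 0 1 4 3 2 (-1) (0) (0) (0) (-1) (-1) [[1],[0]],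
  k 69 0 2 1 4 3 (-1) (-1) (0) (-2) (-1) (-1) [[0],[-1]],
  k 73 2 1 0 4 3 (1) (0) (-1) (-1) (-2) (-1) [[0],[-1]],
  z,
  k 47 0 1 4 3 2 (-2) (0) (0) (0) (-1) (-1) [[2],[0]],
  k 47 0 1 4 3 2 (-1) (0) (0) (0) (-1) (-1) [[1],[0]],
  k 45 0 3 1 4 2 (1) (1) (1) (0) (0) (1) [[0],[-1]],
  k 47 0 1 4 3 2 (-1) (0) (0) (0) (-1) (-1) [[1],[0]],
  k 67 2 1 4 3 0 (-1) (0) (0) (0) (-1) (-1) [[-1],[0]],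
  k 73 2 1 0 4 3 (1) (0) (-1) (-1) (-2) (-1) [[0],[-1]],
  k 73 2 1 0 4 3 (1) (0) (-1) (-1) (-2) (-1) [[0],[-1]],
  k 71 1 4 0 3 2 (1) (0) (1) (0) (1) (1) [[0],[1]],
  k 69 0 2 1 4 3 (-1) (-1) (0) (-2) (-1) (-1) [[0],[-1]],
  k 45 0 3 1 4 2 (1) (1) (1) (0) (0) (1) [[0],[-1]],
  k 47 0 1 4 3 2 (-2) (0) (0) (0) (-1) (-1) [[2],[0]],
  k 67 2 1 4 3 0 (-1) (0) (0) (0) (-1) (-1) [[-1],[0]],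
  k 47 0 1 4 3 2 (-1) (0) (0) (0) (-1) (-1) [[1],[0]],
  k 45 0 3 1 4 2 (2) (1) (1) (0) (0) (1) [[0],[-2]],
  k 71 1 4 0 3 2 (1) (0) (1) (0) (1) (1) [[0],[1]],
  k 71 1 4 0 3 2 (1) (0) (1) (0) (1) (1) [[0],[1]],
  k 47 0 1 4 3 2 (-1) (0) (0) (0) (-1) (-1) [[1],[0]],
  k 45 0 3 1 4 2 (-1) (1) (1) (0) (0) (1) [[0],[1]]]⟩,
⟨[⟨1,0,-2,-3,-1⟩, ⟨0,1,2,3,1⟩], .br 5 [k 107 0 3 4 1 2 (1) (1) (2) (2) (3) (1) [[-1],[0]],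
  k 95 1 0 4 3 2 (-1) (1) (0) (2) (3) (1) [[0],[-1]],
  k 71 1 3 0 4 2 (1) (1) (0) (-1) (-1) (2) [[0],[1]],
  k 44 1 0 3 4 2 (-2) (0) (1) (-1) (2) (-1) [[0],[2]],
  k 71 3 1 0 2 4 (-1) (1) (2) (3) (1) (0) [[-1],[0]],
  z,
  k 95 1 0 4 3 2 (-1) (1) (0) (2) (3) (1) [[0],[-1]],
  k 107 0 3 4 1 2 (1) (1) (2) (2) (3) (1) [[-1],[0]],
  k 71 3 1 0 2 4 (-1) (1) (2) (3) (1) (0) [[-1],[0]],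
  k 71 1 3 0 4 2 (1) (1) (0) (-1) (-1) (2) [[0],[1]],
  k 108 0 1 2 3 4 (1) (1) (0) (-2) (-3) (-1) [[0],[-1]],
  k 43 1 2 3 4 0 (-1) (-1) (-1) (0) (-2) (-1) [[3,2],[0,0]],
  k 44 1 0 3 4 2 (-1) (0) (1) (-1) (2) (-1) [[0],[1]],
  k 44 1 0 3 4 2 (-1) (0) (1) (-1) (2) (-1) [[0],[1]],
  k 71 1 3 0 4 2 (2) (1) (0) (-1) (-1) (2) [[0],[2]],
  k 71 1 3 0 4 2 (2) (1) (0) (-1) (-1) (2) [[0],[2]],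
  k 107 0 3 4 1 2 (2) (1) (2) (2) (3) (1) [[-2],[0]],
  k 107 0 3 4 1 2 (1) (1) (2) (2) (3) (1) [[-1],[0]],
  k 107 0 1 2 3 4 (-2) (0) (1) (2) (3) (1) [[-1],[0]],
  k 107 0 1 2 3 4 (-2) (0) (1) (2) (3) (1) [[-1],[0]],
  k 107 0 3 4 1 2 (1) (1) (2) (2) (3) (1) [[-1],[0]],
  k 44 1 0 3 4 2 (-3) (0) (1) (-1) (2) (-1) [[0],[3]]]⟩,
⟨[⟨2,3,0,1,1⟩, ⟨0,0,1,1,0⟩], .br 5 [k 43 0 3 1 4 2 (3) (-4) (-1) (-3) (0) (-1) [[0],[-3]],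
  k 43 0 3 1 4 2 (4) (-4) (-1) (-3) (0) (-1) [[0],[-4]],
  k 43 0 3 1 4 2 (2) (-4) (-1) (-3) (0) (-1) [[0],[-2]],
  k 58 3 2 4 0 1 (1) (1) (0) (1) (0) (0) [[-1],[0]],
  k 58 4 2 0 1 3 (-1) (1) (1) (2) (1) (1) [[-1],[0]],
  z,
  k 109 0 1 2 3 4 (1) (0) (0) (1) (1) (0) [[1],[0]],
  k 43 0 3 1 4 2 (3) (-4) (-1) (-3) (0) (-1) [[0],[-3]],
  k 43 0 3 1 4 2 (1) (-4) (-1) (-3) (0) (-1) [[0],[-1]],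
  k 43 0 3 1 4 2 (2) (-4) (-1) (-3) (0) (-1) [[0],[-2]],
  k 43 0 3 1 4 2 (5) (-4) (-1) (-3) (0) (-1) [[0],[-5]],
  k 91 4 1 3 2 0 (-1) (1) (0) (1) (1) (1) [[-1],[0]],
  k 43 0 3 1 4 2 (1) (-4) (-1) (-3) (0) (-1) [[0],[-1]],
  k 65 3 1 4 2 0 (-1) (1) (2) (0) (-1) (-3) [[0],[-1]],
  k 110 0 1 2 3 4 (-1) (0) (0) (1) (1) (0) [[-1],[0]],
  k 43 0 3 1 4 2 (4) (-4) (-1) (-3) (0) (-1) [[0],[-4]],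
  k 43 0 3 1 4 2 (6) (-4) (-1) (-3) (0) (-1) [[0],[-6]],
  k 108 0 1 2 3 4 (1) (2) (3) (0) (1) (1) [[0],[-1]],
  k 106 0 1 2 3 4 (-1) (0) (0) (1) (1) (0) [[-1],[0]],
  k 106 0 1 2 3 4 (-1) (0) (0) (1) (1) (0) [[-1],[0]],
  k 43 0 3 1 4 2 (3) (-4) (-1) (-3) (0) (-1) [[0],[-3]],
  k 108 0 1 2 3 4 (1) (2) (3) (0) (1) (1) [[0],[-1]]]⟩,
⟨[⟨1,0,2,1,-1⟩, ⟨0,1,-2,-1,1⟩], .br 8 [k 42 1 0 3 4 2 (-2) (0) (-3) (-1) (-2) (-1) [[0],[2]],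
  k 42 1 0 3 4 2 (-3) (0) (-3) (-1) (-2) (-1) [[0],[3]],
  k 42 1 0 3 4 2 (-1) (0) (-3) (-1) (-2) (-1) [[0],[1]],
  k 64 2 1 4 3 0 (-1) (-1) (-1) (0) (2) (3) [[-1],[0]],
  k 42 1 0 3 4 2 (-4) (0) (-3) (-1) (-2) (-1) [[0],[4]],
  k 110 0 3 4 1 2 (1) (-3) (-2) (-2) (-1) (1) [[-1],[0]],
  k 42 1 0 3 4 2 (1) (0) (-3) (-1) (-2) (-1) [[0],[-1]],
  k 42 1 0 3 4 2 (-2) (0) (-3) (-1) (-2) (-1) [[0],[2]],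
  z,
  k 42 1 0 3 4 2 (-1) (0) (-3) (-1) (-2) (-1) [[0],[1]],
  k 64 4 3 2 1 0 (-1) (-1) (1) (0) (0) (-3) [[0],[-1]],
  k 110 0 1 2 3 4 (-3) (1) (0) (2) (1) (-1) [[0],[-1]],
  k 108 0 1 2 3 4 (2) (0) (1) (-2) (-1) (1) [[1],[0]],
  k 64 4 3 2 1 0 (1) (-1) (1) (0) (0) (-3) [[0],[1]],
  k 108 0 3 4 1 2 (-4) (2) (1) (2) (1) (-1) [[0],[1]],
  k 64 2 1 4 3 0 (1) (-1) (-1) (0) (2) (3) [[1],[0]],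
  k 57 3 0 2 1 4 (-2) (2) (1) (-1) (0) (1) [[0],[1]],
  k 42 1 0 3 4 2 (2) (0) (-3) (-1) (-2) (-1) [[0],[-2]],
  k 42 1 0 3 4 2 (-3) (0) (-3) (-1) (-2) (-1) [[0],[3]],
  k 42 1 0 3 4 2 (-3) (0) (-3) (-1) (-2) (-1) [[0],[3]],
  k 42 1 0 3 4 2 (-2) (0) (-3) (-1) (-2) (-1) [[0],[2]],
  k 57 1 0 4 3 2 (-1) (1) (0) (-2) (-1) (1) [[0],[-1]]]⟩,
⟨[⟨1,0,1,0,-1⟩, ⟨0,1,-1,0,1⟩], .br 3 [k 68 3 0 2 1 4 (-1) (1) (0) (-1) (0) (1) [[0],[1]],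
  k 78 2 1 3 4 0 (-2) (2) (2) (3) (2) (2) [[0],[-1]],
  k 69 2 1 0 4 3 (1) (-1) (2) (0) (1) (-1) [[-1],[0]],
  z,
  k 78 2 1 3 4 0 (-2) (2) (2) (3) (2) (2) [[0],[-1]],
  k 41 1 0 3 4 2 (-1) (0) (-2) (-1) (-1) (-1) [[0],[1]],
  k 68 1 0 4 3 2 (1) (1) (0) (-1) (0) (1) [[0],[1]],
  k 68 3 0 2 1 4 (-1) (1) (0) (-1) (0) (1) [[0],[1]],
  k 68 1 0 4 3 2 (1) (1) (0) (-1) (0) (1) [[0],[1]],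
  k 69 2 1 0 4 3 (1) (-1) (2) (0) (1) (-1) [[-1],[0]],
  k 69 2 1 0 4 3 (2) (-1) (2) (0) (1) (-1) [[-2],[0]],
  k 72 4 3 2 0 1 (-1) (0) (-1) (-2) (-2) (0) [[0],[1]],
  k 41 1 0 3 4 2 (-2) (0) (-2) (-1) (-1) (-1) [[0],[2]],
  k 41 1 0 3 4 2 (1) (0) (-2) (-1) (-1) (-1) [[0],[-1]],
  k 68 3 0 2 1 4 (-2) (1) (0) (-1) (0) (1) [[0],[2]],
  k 72 2 1 4 0 3 (1) (0) (-1) (-2) (-2) (0) [[0],[1]],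
  k 72 4 3 2 0 1 (-1) (0) (-1) (-2) (-2) (0) [[0],[1]],
  k 78 4 3 1 2 0 (-1) (-1) (-2) (-3) (-3) (-2) [[1],[0]],
  k 68 3 0 2 1 4 (-1) (1) (0) (-1) (0) (1) [[0],[1]],
  k 68 3 0 2 1 4 (-1) (1) (0) (-1) (0) (1) [[0],[1]],
  k 68 3 0 2 1 4 (-1) (1) (0) (-1) (0) (1) [[0],[1]],
  k 41 1 0 3 4 2 (-1) (0) (-2) (-1) (-1) (-1) [[0],[1]]]⟩,
⟨[⟨1,0,-1,-3,-2⟩, ⟨0,1,1,1,0⟩], .br 1 [k 50 0 2 3 1 4 (2) (3) (2) (4) (1) (3) [[0],[-2]],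
  z,
  k 50 0 2 3 1 4 (4) (3) (2) (4) (1) (3) [[0],[-4]],
  k 50 0 2 3 1 4 (1) (3) (2) (4) (1) (3) [[0],[-1]],
  k 89 2 3 0 4 1 (-1) (0) (0) (-1) (-1) (-1) [[1],[0]],
  k 62 1 0 2 4 3 (-1) (0) (0) (1) (0) (0) [[-1],[0]],
  k 50 0 2 3 1 4 (2) (3) (2) (4) (1) (3) [[0],[-2]],
  k 109 0 1 2 3 4 (1) (1) (0) (-1) (-3) (-2) [[0],[1]],
  k 110 0 1 2 3 4 (-1) (0) (1) (1) (1) (0) [[-1],[0]],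
  k 89 2 3 0 4 1 (-1) (0) (0) (-1) (-1) (-1) [[1],[0]],
  k 50 0 2 3 1 4 (3) (3) (2) (4) (1) (3) [[0],[-3]],
  k 105 4 3 1 0 2 (-1) (0) (1) (0) (0) (0) [[-1],[0]],
  k 50 0 2 3 1 4 (1) (3) (2) (4) (1) (3) [[0],[-1]],
  k 62 1 0 2 4 3 (-1) (0) (0) (1) (0) (0) [[-1],[0]],
  k 62 1 0 2 4 3 (-1) (0) (0) (1) (0) (0) [[-1],[0]],
  k 50 0 2 3 1 4 (5) (3) (2) (4) (1) (3) [[0],[-5]],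
  k 50 0 2 3 1 4 (1) (3) (2) (4) (1) (3) [[0],[-1]],
  k 50 0 2 3 1 4 (4) (3) (2) (4) (1) (3) [[0],[-4]],
  k 62 1 0 2 4 3 (-2) (0) (0) (1) (0) (0) [[-2],[0]],
  k 110 0 1 2 3 4 (-1) (0) (1) (1) (1) (0) [[-1],[0]],
  k 50 0 2 3 1 4 (2) (3) (2) (4) (1) (3) [[0],[-2]],
  k 50 0 2 3 1 4 (-1) (3) (2) (4) (1) (3) [[0],[1]]]⟩]

end Pool.Agent.Y734.M.PAIR
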