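import Pool.Agent.Y734.M.PAIR.Chk

/-!
# Project Y734/M, job PAIR: certificate number 2
-/

set_option autoImplicit false
set_option maxRecDepth 100000

namespace Pool.Agent.Y734.M.PAIR

/-- nodes -/
def A2 : List Nd := [
⟨[⟨1,0,-1,0,1⟩, ⟨0,1,1,-1,-2⟩], .br 1 [k 44 1 0 3 4 2 (-1) (2) (2) (1) (1) (1) [[0],[1]],
  z,
  k 44 1 0 3 4 2 (-2) (2) (2) (1) (1) (1) [[0],[2]],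
  k 56 1 0 2 4 3 (-2) (0) (-2) (-2) (-1) (0) [[0],[2]],
  k 67 2 0 1 4 3 (1) (0) (2) (0) (1) (-2) [[-1],[0]],
  k 56 1 0 2 4 3 (-1) (0) (-2) (-2) (-1) (0) [[0],[1]],
  k 44 1 0 3 4 2 (-1) (2) (2) (1) (1) (1) [[0],[1]],
  k 56 1 0 2 4 3 (1) (0) (-2) (-2) (-1) (0) [[0],[-1]],
  k 96 0 1 2 3 4 (-1) (1) (0) (-1) (0) (1) [[0],[-1]],
  k 67 2 0 1 4 3 (1) (0) (2) (0) (1) (-2) [[-1],[0]],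
  k 67 2 0 1 4 3 (2) (0) (2) (0) (1) (-2) [[-2],[0]],
  k 96 3 1 2 0 4 (1) (1) (0) (-1) (0) (1) [[0],[-1]],
  k 56 1 0 2 4 3 (-2) (0) (-2) (-2) (-1) (0) [[0],[2]],
  k 56 1 0 2 4 3 (-1) (0) (-2) (-2) (-1) (0) [[0],[1]],
  k 111 0 1 2 3 4 (-1) (0) (1) (1) (-1) (-2) [[-1],[0]],
  k 110 0 1 2 3 4 (-1) (1) (0) (-1) (0) (1) [[0],[-1]],
  k 44 1 3 0 4 2 (1) (2) (2) (1) (1) (1) [[0],[1]],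
  k 44 1 0 3 4 2 (-2) (2) (2) (1) (1) (1) [[0],[2]],
  k 44 1 3 0 4 2 (1) (2) (2) (1) (1) (1) [[0],[1]],
  k 96 0 1 2 3 4 (-1) (1) (0) (-1) (0) (1) [[0],[-1]],
  k 44 1 0 3 4 2 (-1) (2) (2) (1) (1) (1) [[0],[1]],
  k 44 1 3 0 4 2 (-1) (2) (2) (1) (1) (1) [[0],[-1]]]⟩,
⟨[⟨1,0,-1,-2,-1⟩, ⟨0,1,1,0,-1⟩], .br 10 [k 40 0 4 3 1 2 (-1) (-2) (-1) (-1) (-1) (-2) [[0],[-1]],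
  k 112 0 1 2 3 4 (-1) (0) (1) (1) (0) (-1) [[-1],[0]],
  k 62 0 2 1 4 3 (1) (-1) (-1) (-2) (0) (-1) [[-1],[0]],
  k 40 0 4 3 1 2 (-2) (-2) (-1) (-1) (-1) (-2) [[0],[-2]],
  k 62 0 2 1 4 3 (-1) (-1) (-1) (-2) (0) (-1) [[1],[0]],
  k 56 0 3 2 1 4 (-1) (1) (2) (3) (2) (1) [[0],[1]],
  k 40 0 4 3 1 2 (-1) (-2) (-1) (-1) (-1) (-2) [[0],[-1]],
  k 103 4 0 1 3 2 (-1) (-1) (-1) (1) (0) (0) [[0],[-1]],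
  k 40 0 4 3 1 2 (1) (-2) (-1) (-1) (-1) (-2) [[0],[1]],
  k 62 0 2 1 4 3 (-1) (-1) (-1) (-2) (0) (-1) [[1],[0]],
  z,
  k 107 0 1 2 3 4 (1) (1) (0) (-1) (-2) (-1) [[0],[1]],
  k 40 0 4 3 1 2 (-2) (-2) (-1) (-1) (-1) (-2) [[0],[-2]],
  k 56 0 3 2 1 4 (-1) (1) (2) (3) (2) (1) [[0],[1]],
  k 62 0 2 1 4 3 (-2) (-1) (-1) (-2) (0) (-1) [[2],[0]],
  k 56 0 3 2 1 4 (1) (1) (2) (3) (2) (1) [[0],[-1]],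
  k 56 0 3 2 1 4 (-1) (1) (2) (3) (2) (1) [[0],[1]],
  k 62 0 2 1 4 3 (1) (-1) (-1) (-2) (0) (-1) [[-1],[0]],
  k 113 0 1 2 3 4 (1) (1) (0) (-1) (-2) (-1) [[0],[1]],
  k 40 0 4 3 1 2 (1) (-2) (-1) (-1) (-1) (-2) [[0],[1]],
  k 40 0 4 3 1 2 (-1) (-2) (-1) (-1) (-1) (-2) [[0],[-1]],
  k 111 0 1 2 3 4 (-1) (0) (1) (1) (0) (-1) [[-1],[0]]]⟩,
⟨[⟨1,2,0,0,0⟩, ⟨0,0,1,0,-1⟩], .br 2 [k 61 3 1 4 0 2 (-1) (-1) (0) (1) (0) (0) [[1],[0]],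
  k 61 3 1 4 0 2 (-2) (-1) (0) (1) (0) (0) [[2],[0]],
  z,
  k 54 2 0 4 3 1 (-2) (2) (1) (1) (1) (0) [[0],[-2]],
  k 61 3 1 4 0 2 (-2) (-1) (0) (1) (0) (0) [[2],[0]],
  k 113 0 1 2 3 4 (-1) (0) (0) (1) (0) (-1) [[-1],[0]],
  k 54 2 0 4 3 1 (-1) (2) (1) (1) (1) (0) [[0],[-1]],
  k 107 3 2 4 1 0 (-1) (0) (2) (1) (1) (-1) [[0],[1]],
  k 54 2 0 4 3 1 (-1) (2) (1) (1) (1) (0) [[0],[-1]],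
  k 74 4 3 1 2 0 (-1) (1) (0) (-1) (-2) (-1) [[0],[-1]],
  k 61 1 2 3 4 0 (1) (-1) (1) (1) (2) (0) [[0],[1]],
  k 80 0 4 3 2 1 (1) (-1) (-1) (1) (0) (0) [[0],[-1]],
  k 74 4 3 1 2 0 (-1) (1) (0) (-1) (-2) (-1) [[0],[-1]],
  k 54 2 0 4 3 1 (-3) (2) (1) (1) (1) (0) [[0],[-3]],
  k 114 0 1 2 3 4 (1) (1) (2) (0) (0) (0) [[0],[1]],
  k 54 2 0 4 3 1 (1) (2) (1) (1) (1) (0) [[0],[1]],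
  k 80 0 4 3 2 1 (1) (-1) (-1) (1) (0) (0) [[0],[-1]],
  k 61 1 2 3 4 0 (-1) (-1) (1) (1) (2) (0) [[0],[-1]],
  k 107 3 2 4 1 0 (-1) (0) (2) (1) (1) (-1) [[0],[1]],
  k 61 3 1 4 0 2 (-1) (-1) (0) (1) (0) (0) [[1],[0]],
  k 61 3 1 4 0 2 (-1) (-1) (0) (1) (0) (0) [[1],[0]],
  k 113 0 1 2 3 4 (-1) (0) (0) (1) (0) (-1) [[-1],[0]]]⟩,
⟨[⟨1,2,0,1,1⟩, ⟨0,0,1,2,1⟩], .br 6 [k 58 0 1 4 2 3 (1) (1) (1) (2) (0) (-1) [[0],[1]],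
  k 53 0 2 1 3 4 (2) (2) (1) (0) (1) (1) [[0],[2]],
  k 63 1 0 4 2 3 (-2) (-1) (0) (-2) (-1) (-2) [[2],[0]],
  k 53 0 2 1 3 4 (-1) (2) (1) (0) (1) (1) [[0],[-1]],
  k 109 3 2 4 0 1 (1) (0) (-1) (-2) (-1) (1) [[0],[1]],
  k 58 4 2 1 0 3 (-1) (1) (1) (2) (2) (3) [[0],[-1]],
  z,
  k 53 0 2 1 3 4 (1) (2) (1) (0) (1) (1) [[0],[1]],
  k 106 3 2 4 1 0 (-1) (1) (2) (2) (1) (-1) [[0],[1]],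
  k 63 1 0 4 2 3 (-1) (-1) (0) (-2) (-1) (-2) [[1],[0]],
  k 104 2 3 0 4 1 (-1) (1) (0) (0) (0) (-1) [[-1],[0]],
  k 58 0 1 4 2 3 (2) (1) (1) (2) (0) (-1) [[0],[2]],
  k 63 1 0 4 2 3 (-1) (-1) (0) (-2) (-1) (-2) [[1],[0]],
  k 53 0 2 1 3 4 (-2) (2) (1) (0) (1) (1) [[0],[-2]],
  k 114 0 1 2 3 4 (-1) (0) (0) (1) (2) (1) [[-1],[0]],
  k 109 3 2 4 0 1 (1) (0) (-1) (-2) (-1) (1) [[0],[1]],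
  k 53 0 2 1 3 4 (3) (2) (1) (0) (1) (1) [[0],[3]],
  k 58 4 2 1 0 3 (-1) (1) (1) (2) (2) (3) [[0],[-1]],
  k 63 1 0 4 2 3 (-2) (-1) (0) (-2) (-1) (-2) [[2],[0]],
  k 63 1 0 4 2 3 (-3) (-1) (0) (-2) (-1) (-2) [[3],[0]],
  k 58 0 1 4 2 3 (1) (1) (1) (2) (0) (-1) [[0],[1]],
  k 63 1 0 4 2 3 (1) (-1) (0) (-2) (-1) (-2) [[-1],[0]]]⟩,
⟨[⟨1,2,0,2,2⟩, ⟨0,0,1,1,0⟩], .br 1 [k 35 0 3 1 4 2 (-2) (-4) (-1) (-2) (0) (-2) [[0],[2]],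
  z,
  k 35 0 3 1 4 2 (-4) (-4) (-1) (-2) (0) (-2) [[0],[4]],
  k 116 0 1 2 3 4 (1) (0) (0) (1) (1) (0) [[1],[0]],
  k 111 0 1 2 3 4 (-1) (0) (0) (1) (1) (0) [[-1],[0]],
  k 35 0 3 1 4 2 (-4) (-4) (-1) (-2) (0) (-2) [[0],[4]],
  k 88 1 2 3 4 0 (1) (0) (-1) (0) (-1) (0) [[-1],[0]],
  k 35 0 3 1 4 2 (-1) (-4) (-1) (-2) (0) (-2) [[0],[1]],
  k 35 0 3 1 4 2 (-5) (-4) (-1) (-2) (0) (-2) [[0],[5]],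
  k 35 0 3 1 4 2 (-3) (-4) (-1) (-2) (0) (-2) [[0],[3]],
  k 35 0 3 1 4 2 (-1) (-4) (-1) (-2) (0) (-2) [[0],[1]],
  k 88 2 0 3 1 4 (-1) (2) (2) (0) (2) (1) [[0],[1]],
  k 35 0 3 1 4 2 (-3) (-4) (-1) (-2) (0) (-2) [[0],[3]],
  k 114 0 1 2 3 4 (1) (0) (0) (1) (1) (0) [[1],[0]],
  k 57 0 1 4 2 3 (1) (1) (2) (2) (0) (-2) [[0],[1]],
  k 35 0 3 1 4 2 (-3) (-4) (-1) (-2) (0) (-2) [[0],[3]],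
  k 35 0 3 1 4 2 (1) (-4) (-1) (-2) (0) (-2) [[0],[-1]],
  k 114 0 1 2 3 4 (1) (0) (0) (1) (1) (0) [[1],[0]],
  k 113 4 2 0 3 1 (-1) (0) (0) (0) (1) (1) [[1],[0]],
  k 115 0 1 2 3 4 (-1) (0) (0) (1) (1) (0) [[-1],[0]],
  k 35 0 3 1 4 2 (-2) (-4) (-1) (-2) (0) (-2) [[0],[2]],
  k 72 0 3 4 1 2 (1) (1) (1) (1) (1) (0) [[1],[0]]]⟩,
⟨[⟨1,2,0,-3,-3⟩, ⟨0,0,1,1,0⟩], .br 10 [k 34 0 3 1 4 2 (-1) (1) (-1) (-2) (0) (3) [[0],[1]],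
  k 34 0 3 1 4 2 (-4) (1) (-1) (-2) (0) (3) [[0],[4]],
  k 34 0 3 1 4 2 (2) (1) (-1) (-2) (0) (3) [[0],[-2]],
  k 115 2 4 1 3 0 (1) (0) (0) (0) (-1) (-1) [[-1],[0]],
  k 110 4 2 0 3 1 (-1) (-1) (-2) (2) (1) (-1) [[0],[-1]],
  k 34 0 3 1 4 2 (-3) (1) (-1) (-2) (0) (3) [[0],[3]],
  k 117 0 1 2 3 4 (1) (0) (0) (1) (1) (0) [[1],[0]],
  k 34 0 3 1 4 2 (-5) (1) (-1) (-2) (0) (3) [[0],[5]],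
  k 34 0 3 1 4 2 (1) (1) (-1) (-2) (0) (3) [[0],[-1]],
  k 34 0 3 1 4 2 (-2) (1) (-1) (-2) (0) (3) [[0],[2]],
  z,
  k 102 4 3 1 2 0 (-1) (0) (1) (1) (1) (1) [[-1],[0]],
  k 34 0 3 1 4 2 (-2) (1) (-1) (-2) (0) (3) [[0],[2]],
  k 86 2 0 3 1 4 (1) (-1) (0) (-1) (-1) (-1) [[-1],[0]],
  k 118 0 1 2 3 4 (-1) (0) (0) (1) (1) (0) [[-1],[0]],
  k 34 0 3 1 4 2 (3) (1) (-1) (-2) (0) (3) [[0],[-3]],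
  k 34 0 3 1 4 2 (-3) (1) (-1) (-2) (0) (3) [[0],[3]],
  k 110 4 2 0 3 1 (1) (-1) (-2) (2) (1) (-1) [[0],[1]],
  k 86 1 2 3 4 0 (-1) (0) (-1) (0) (-1) (0) [[-1],[0]],
  k 117 0 1 2 3 4 (-1) (0) (0) (1) (1) (0) [[-1],[0]],
  k 34 0 3 1 4 2 (-1) (1) (-1) (-2) (0) (3) [[0],[1]],
  k 116 0 1 2 3 4 (1) (0) (0) (1) (1) (0) [[1],[0]]]⟩,
⟨[⟨1,2,1,0,-1⟩, ⟨0,0,0,1,1⟩], .br 10 [k 33 0 3 1 2 4 (-1) (2) (2) (3) (1) (1) [[0],[-1]],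
  k 57 0 4 3 2 1 (1) (1) (0) (1) (1) (1) [[1],[0]],
  k 57 1 2 3 4 0 (-1) (-1) (0) (-1) (-1) (-1) [[-1],[0]],
  k 33 0 3 1 2 4 (-2) (2) (2) (3) (1) (1) [[0],[-2]],
  k 33 0 3 1 2 4 (-2) (2) (2) (3) (1) (1) [[0],[-2]],
  k 33 0 3 1 2 4 (-3) (2) (2) (3) (1) (1) [[0],[-3]],
  k 33 0 3 1 2 4 (-1) (2) (2) (3) (1) (1) [[0],[-1]],
  k 55 0 1 4 2 3 (1) (0) (1) (0) (0) (-1) [[1],[0]],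
  k 55 1 0 2 4 3 (-1) (0) (0) (0) (-1) (-2) [[0],[1]],
  k 33 0 3 1 2 4 (-2) (2) (2) (3) (1) (1) [[0],[-2]],
  z,
  k 33 0 3 1 2 4 (-1) (2) (2) (3) (1) (1) [[0],[-1]],
  k 33 0 3 1 2 4 (-2) (2) (2) (3) (1) (1) [[0],[-2]],
  k 33 0 3 1 2 4 (-3) (2) (2) (3) (1) (1) [[0],[-3]],
  k 57 0 4 3 2 1 (1) (1) (0) (1) (1) (1) [[1],[0]],
  k 35 0 2 4 1 3 (1) (1) (-1) (1) (1) (1) [[0],[-1]],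
  k 35 0 2 4 1 3 (-1) (1) (-1) (1) (1) (1) [[0],[1]],
  k 57 1 2 3 4 0 (-1) (-1) (0) (-1) (-1) (-1) [[-1],[0]],
  k 33 0 3 1 2 4 (-3) (2) (2) (3) (1) (1) [[0],[-3]],
  k 55 1 0 2 4 3 (-1) (0) (0) (0) (-1) (-2) [[0],[1]],
  k 33 0 3 1 2 4 (-1) (2) (2) (3) (1) (1) [[0],[-1]],
  k 55 0 1 4 2 3 (1) (0) (1) (0) (0) (-1) [[1],[0]]]⟩,
⟨[⟨1,0,0,-2,-2⟩, ⟨0,0,1,1,0⟩], .br 2 [k 32 0 3 1 4 2 (-2) (2) (1) (0) (0) (2) [[0],[2]],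
  k 32 0 3 1 4 2 (-4) (2) (1) (0) (0) (2) [[0],[4]],
  z,
  k 74 1 2 3 0 4 (1) (-1) (-1) (-1) (0) (-1) [[-1],[0]],
  k 117 0 1 2 3 4 (-1) (0) (0) (1) (1) (0) [[-1],[0]],
  k 32 0 3 1 4 2 (-2) (2) (1) (0) (0) (2) [[0],[2]],
  k 54 4 1 2 3 0 (-1) (0) (1) (1) (-1) (-2) [[0],[-1]],
  k 32 0 3 1 4 2 (-3) (2) (1) (0) (0) (2) [[0],[3]],
  k 32 0 3 1 4 2 (1) (2) (1) (0) (0) (2) [[0],[-1]],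
  k 32 0 3 1 4 2 (-1) (2) (1) (0) (0) (2) [[0],[1]],
  k 32 0 3 1 4 2 (-1) (2) (1) (0) (0) (2) [[0],[1]],
  k 95 1 3 4 0 2 (-1) (-2) (-2) (-1) (-2) (0) [[0],[-1]],
  k 32 0 3 1 4 2 (-3) (2) (1) (0) (0) (2) [[0],[3]],
  k 54 4 1 2 3 0 (-1) (0) (1) (1) (-1) (-2) [[0],[-1]],
  k 107 2 0 1 4 3 (-1) (-1) (0) (0) (1) (0) [[-1],[0]],
  k 32 0 3 1 4 2 (1) (2) (1) (0) (0) (2) [[0],[-1]],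
  k 32 0 3 1 4 2 (-3) (2) (1) (0) (0) (2) [[0],[3]],
  k 95 1 3 4 0 2 (1) (-2) (-2) (-1) (-2) (0) [[0],[1]],
  k 95 1 3 4 0 2 (-1) (-2) (-2) (-1) (-2) (0) [[0],[-1]],
  k 37 1 3 4 0 2 (-1) (0) (1) (1) (1) (1) [[-1],[0]],
  k 32 0 3 1 4 2 (-2) (2) (1) (0) (0) (2) [[0],[2]],
  k 109 3 4 1 2 0 (1) (-1) (-1) (0) (0) (0) [[-1],[0]]]⟩,
⟨[⟨1,0,0,2,2⟩, ⟨0,0,1,2,1⟩], .br 1 [k 36 0 3 4 1 2 (-1) (1) (2) (2) (2) (1) [[-1],[0]],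
  z,
  k 36 0 3 4 1 2 (-2) (1) (2) (2) (2) (1) [[-2],[0]],
  k 48 0 2 1 3 4 (-2) (0) (1) (0) (2) (2) [[0],[-2]],
  k 59 2 0 1 4 3 (-2) (-1) (-3) (-1) (-1) (1) [[0],[-2]],
  k 36 0 3 4 1 2 (-1) (1) (2) (2) (2) (1) [[-1],[0]],
  k 48 0 2 1 3 4 (-1) (0) (1) (0) (2) (2) [[0],[-1]],
  k 48 0 2 1 3 4 (1) (0) (1) (0) (2) (2) [[0],[1]],
  k 54 4 1 2 3 0 (-2) (0) (0) (-1) (1) (0) [[-1],[0]],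
  k 59 2 0 1 4 3 (-1) (-1) (-3) (-1) (-1) (1) [[0],[-1]],
  k 59 2 0 1 4 3 (-1) (-1) (-3) (-1) (-1) (1) [[0],[-1]],
  k 54 2 1 4 3 0 (-1) (0) (1) (3) (1) (2) [[0],[1]],
  k 93 0 3 4 1 2 (-1) (1) (2) (2) (2) (1) [[1],[0]],
  k 48 0 2 1 3 4 (-1) (0) (1) (0) (2) (2) [[0],[-1]],
  k 93 0 3 2 1 4 (1) (-2) (-2) (-1) (-2) (0) [[0],[-1]],
  k 54 4 1 2 3 0 (-2) (0) (0) (-1) (1) (0) [[-1],[0]],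
  k 48 0 2 1 3 4 (1) (0) (1) (0) (2) (2) [[0],[1]],
  k 93 0 3 4 1 2 (-1) (1) (2) (2) (2) (1) [[1],[0]],
  k 54 2 1 4 3 0 (-1) (0) (1) (3) (1) (2) [[0],[1]],
  k 117 0 1 2 3 4 (-3) (0) (0) (1) (2) (1) [[-1],[0]],
  k 36 0 3 4 1 2 (-1) (1) (2) (2) (2) (1) [[-1],[0]],
  k 36 0 3 2 1 4 (1) (-1) (-2) (-2) (-2) (-1) [[1],[0]]]⟩,
⟨[⟨3,1,0,-1,1⟩, ⟨0,0,1,1,0⟩], .br 12 [k 30 0 3 1 4 2 (3) (-2) (0) (-3) (-2) (-1) [[0],[-3]],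
  k 30 0 3 1 4 2 (2) (-2) (0) (-3) (-2) (-1) [[0],[-2]],
  k 30 0 3 1 4 2 (2) (-2) (0) (-3) (-2) (-1) [[0],[-2]],
  k 43 0 2 3 4 1 (1) (-1) (0) (-1) (-1) (-1) [[-1],[0]],
  k 43 0 3 4 2 1 (-1) (1) (0) (0) (0) (1) [[1],[0]],
  k 30 0 3 1 4 2 (2) (-2) (0) (-3) (-2) (-1) [[0],[-2]],
  k 117 0 1 2 3 4 (1) (0) (0) (1) (1) (0) [[1],[0]],
  k 30 0 3 1 4 2 (4) (-2) (0) (-3) (-2) (-1) [[0],[-4]],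
  k 30 0 3 1 4 2 (4) (-2) (0) (-3) (-2) (-1) [[0],[-4]],
  k 30 0 3 1 4 2 (3) (-2) (0) (-3) (-2) (-1) [[0],[-3]],
  k 30 0 3 1 4 2 (4) (-2) (0) (-3) (-2) (-1) [[0],[-4]],
  k 117 1 0 4 3 2 (-1) (0) (0) (-1) (-1) (0) [[-1],[0]],
  z,
  k 118 1 0 4 3 2 (1) (0) (0) (-1) (-1) (0) [[1],[0]],
  k 118 0 1 2 3 4 (-1) (0) (0) (1) (1) (0) [[-1],[0]],
  k 30 0 3 1 4 2 (5) (-2) (0) (-3) (-2) (-1) [[0],[-5]],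
  k 30 0 3 1 4 2 (5) (-2) (0) (-3) (-2) (-1) [[0],[-5]],
  k 118 1 0 4 3 2 (1) (0) (0) (-1) (-1) (0) [[1],[0]],
  k 118 0 1 2 3 4 (-1) (0) (0) (1) (1) (0) [[-1],[0]],
  k 119 0 1 2 3 4 (-1) (0) (0) (1) (1) (0) [[-1],[0]],
  k 30 0 3 1 4 2 (1) (-2) (0) (-3) (-2) (-1) [[0],[-1]],
  k 119 0 3 1 4 2 (1) (-2) (0) (-3) (-2) (-1) [[0],[1]]]⟩,
⟨[⟨2,0,2,1,1⟩, ⟨0,2,-4,-3,-1⟩], .br 5 [k 33 1 0 4 2 3 (2) (1) (-3) (0) (-1) (5) [[-2],[0]],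
  k 47 2 4 3 1 0 (-1) (2) (1) (0) (-1) (0) [[0],[2]],
  k 47 2 4 3 1 0 (-1) (2) (1) (0) (-1) (0) [[0],[2]],
  k 33 1 0 4 2 3 (-2) (1) (-3) (0) (-1) (5) [[2],[0]],
  k 47 2 4 3 1 0 (-2) (2) (1) (0) (-1) (0) [[0],[4]],
  z,
  k 33 2 0 4 3 1 (2) (0) (2) (2) (1) (1) [[0],[-4]],
  k 55 0 4 3 2 1 (1) (-1) (0) (-1) (1) (1) [[0],[-2]],
  k 55 0 4 3 2 1 (1) (-1) (0) (-1) (1) (1) [[0],[-2]],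
  k 33 1 0 4 2 3 (2) (1) (-3) (0) (-1) (5) [[-2],[0]],
  k 33 1 0 4 2 3 (4) (1) (-3) (0) (-1) (5) [[-4],[0]],
  k 33 1 0 4 2 3 (6) (1) (-3) (0) (-1) (5) [[-6],[0]],
  k 33 2 0 4 3 1 (-2) (0) (2) (2) (1) (1) [[0],[4]],
  k 119 0 1 2 3 4 (2) (2) (0) (2) (1) (1) [[0],[2]],
  k 79 1 0 2 4 3 (-1) (2) (1) (2) (2) (1) [[0],[-2]],
  k 74 0 3 1 2 4 (1) (1) (1) (-1) (-1) (0) [[0],[-2]],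
  k 74 0 3 1 2 4 (1) (1) (1) (-1) (-1) (0) [[0],[-2]],
  k 33 2 0 4 3 1 (1) (0) (2) (2) (1) (1) [[0],[-2]],
  k 33 1 0 4 2 3 (4) (1) (-3) (0) (-1) (5) [[-4],[0]],
  k 120 0 1 2 3 4 (-1) (2) (0) (2) (1) (1) [[0],[-2]],
  k 119 0 1 2 3 4 (-2) (2) (0) (2) (1) (1) [[0],[-2]],
  k 47 2 4 3 1 0 (1) (2) (1) (0) (-1) (0) [[0],[-2]]]⟩,
⟨[⟨2,0,1,0,1⟩, ⟨0,2,-3,-2,-1⟩], .br 11 [k 71 2 0 1 4 3 (-1) (-1) (-1) (0) (-1) (-1) [[0],[-2]],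
  k 46 4 3 1 2 0 (-2) (1) (0) (2) (0) (1) [[0],[4]],
  k 46 4 3 1 2 0 (-2) (1) (0) (2) (0) (1) [[0],[4]],
  k 71 2 0 1 4 3 (-2) (-1) (-1) (0) (-1) (-1) [[0],[-4]],
  k 59 4 2 1 3 0 (-2) (2) (0) (1) (0) (1) [[0],[-2]],
  k 121 0 1 2 3 4 (-1) (2) (0) (1) (0) (1) [[0],[2]],
  k 29 0 2 4 1 3 (-6) (5) (1) (2) (-1) (1) [[-6],[0]],
  k 29 0 2 4 1 3 (-4) (5) (1) (2) (-1) (1) [[-4],[0]],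
  k 29 0 2 4 1 3 (-4) (5) (1) (2) (-1) (1) [[-4],[0]],
  k 71 2 0 1 4 3 (-1) (-1) (-1) (0) (-1) (-1) [[0],[-2]],
  k 46 4 3 1 2 0 (-1) (1) (0) (2) (0) (1) [[0],[2]],
  z,
  k 46 4 3 1 2 0 (-3) (1) (0) (2) (0) (1) [[0],[6]],
  k 29 0 2 4 1 3 (-8) (5) (1) (2) (-1) (1) [[-8],[0]],
  k 32 2 0 4 3 1 (-1) (0) (2) (1) (1) (0) [[0],[2]],
  k 29 0 2 4 1 3 (-2) (5) (1) (2) (-1) (1) [[-2],[0]],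
  k 29 0 2 4 1 3 (-2) (5) (1) (2) (-1) (1) [[-2],[0]],
  k 121 0 1 2 3 4 (-1) (2) (0) (1) (0) (1) [[0],[2]],
  k 29 0 2 4 1 3 (-2) (5) (1) (2) (-1) (1) [[-2],[0]],
  k 46 4 3 1 2 0 (-1) (1) (0) (2) (0) (1) [[0],[2]],
  k 120 0 1 2 3 4 (-1) (0) (2) (-3) (-2) (-1) [[-2],[0]],
  k 72 4 2 0 1 3 (-1) (1) (0) (0) (1) (0) [[0],[2]]]⟩,
⟨[⟨2,0,2,1,1⟩, ⟨0,2,2,3,-1⟩], .br 4 [k 44 0 1 3 4 2 (2) (2) (1) (0) (-1) (0) [[0],[4]],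
  k 57 4 1 2 0 3 (1) (1) (1) (0) (-1) (1) [[0],[-2]],
  k 57 4 1 2 0 3 (1) (1) (1) (0) (-1) (1) [[0],[-2]],
  k 121 0 1 2 3 4 (2) (2) (0) (2) (1) (1) [[0],[-2]],
  z,
  k 57 4 2 1 3 0 (2) (2) (0) (0) (-1) (1) [[0],[2]],
  k 44 0 1 3 4 2 (4) (2) (1) (0) (-1) (0) [[0],[8]],
  k 121 3 2 1 0 4 (1) (3) (-1) (2) (0) (2) [[-2],[0]],
  k 121 3 2 1 0 4 (1) (3) (-1) (2) (0) (2) [[-2],[0]],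
  k 44 0 1 3 4 2 (2) (2) (1) (0) (-1) (0) [[0],[4]],
  k 121 0 1 2 3 4 (2) (2) (0) (2) (1) (1) [[0],[-2]],
  k 57 4 2 1 3 0 (2) (2) (0) (0) (-1) (1) [[0],[2]],
  k 31 1 0 4 2 3 (2) (1) (3) (0) (-1) (-1) [[-2],[0]],
  k 122 0 1 2 3 4 (2) (0) (2) (2) (3) (-1) [[2],[0]],
  k 44 0 1 3 4 2 (1) (2) (1) (0) (-1) (0) [[0],[2]],
  k 44 0 1 3 4 2 (3) (2) (1) (0) (-1) (0) [[0],[6]],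
  k 44 0 1 3 4 2 (3) (2) (1) (0) (-1) (0) [[0],[6]],
  k 122 3 2 1 0 4 (3) (1) (1) (2) (2) (0) [[0],[2]],
  k 31 4 1 2 3 0 (2) (0) (2) (0) (1) (-1) [[0],[-4]],
  k 31 4 1 2 3 0 (1) (0) (2) (0) (1) (-1) [[0],[-2]],
  k 31 1 0 4 2 3 (4) (1) (3) (0) (-1) (-1) [[-4],[0]],
  k 44 0 1 3 4 2 (3) (2) (1) (0) (-1) (0) [[0],[6]]]⟩,
⟨[⟨2,0,0,-1,1⟩, ⟨0,0,1,1,0⟩], .br 3 [k 30 1 0 4 2 3 (-1) (0) (1) (0) (0) (-1) [[1],[0]],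
  k 27 0 2 4 1 3 (1) (0) (-1) (0) (-2) (-1) [[0],[1]],
  k 27 0 2 4 1 3 (1) (0) (-1) (0) (-2) (-1) [[0],[1]],
  z,
  k 27 0 2 4 1 3 (2) (0) (-1) (0) (-2) (-1) [[0],[2]],
  k 30 1 0 4 2 3 (-1) (0) (1) (0) (0) (-1) [[1],[0]],
  k 26 0 3 1 4 2 (2) (-1) (0) (-2) (-2) (-1) [[0],[-2]],
  k 39 0 4 1 3 2 (-1) (0) (0) (0) (-1) (-1) [[-1],[0]],
  k 39 0 4 1 3 2 (-1) (0) (0) (0) (-1) (-1) [[-1],[0]],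
  k 30 1 0 4 2 3 (-1) (0) (1) (0) (0) (-1) [[1],[0]],
  k 30 1 0 4 2 3 (-1) (0) (1) (0) (0) (-1) [[1],[0]],
  k 30 1 0 4 2 3 (-2) (0) (1) (0) (0) (-1) [[2],[0]],
  k 30 0 1 2 4 3 (-1) (0) (-1) (0) (0) (1) [[1],[0]],
  k 26 0 3 1 4 2 (2) (-1) (0) (-2) (-2) (-1) [[0],[-2]],
  k 72 1 0 2 4 3 (-2) (1) (1) (2) (1) (1) [[-1],[0]],
  k 39 0 4 1 3 2 (-1) (0) (0) (0) (-1) (-1) [[-1],[0]],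
  k 39 0 4 1 3 2 (-1) (0) (0) (0) (-1) (-1) [[-1],[0]],
  k 26 0 3 1 4 2 (1) (-1) (0) (-2) (-2) (-1) [[0],[-1]],
  k 30 1 0 4 2 3 (-2) (0) (1) (0) (0) (-1) [[2],[0]],
  k 72 1 0 2 4 3 (-2) (1) (1) (2) (1) (1) [[-1],[0]],
  k 30 0 1 2 4 3 (-1) (0) (-1) (0) (0) (1) [[1],[0]],
  k 26 0 3 1 4 2 (1) (-1) (0) (-2) (-2) (-1) [[0],[-1]]]⟩,
⟨[⟨1,0,0,0,1⟩, ⟨0,2,0,1,-1⟩], .br 18 [k 28 0 1 2 3 4 (-1) (1) (0) (0) (0) (1) [[0],[1]],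
  k 71 3 0 1 2 4 (-1) (-1) (0) (-1) (-1) (-1) [[0],[1]],
  k 121 0 1 2 3 4 (-2) (1) (0) (0) (0) (1) [[0],[-1]],
  k 29 3 0 1 2 4 (-2) (-1) (0) (-1) (-1) (-1) [[0],[-2]],
  k 28 0 1 2 3 4 (-1) (1) (0) (0) (0) (1) [[0],[1]],
  k 29 0 2 1 4 3 (-1) (1) (1) (1) (0) (1) [[0],[1]],
  k 28 0 1 2 3 4 (-1) (1) (0) (0) (0) (1) [[0],[1]],
  k 25 0 1 2 4 3 (1) (1) (1) (0) (-1) (1) [[-1],[0]],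
  k 29 3 0 1 2 4 (-1) (-1) (0) (-1) (-1) (-1) [[0],[-1]],
  k 28 0 1 2 3 4 (-1) (1) (0) (0) (0) (1) [[0],[1]],
  k 121 1 3 0 2 4 (-1) (1) (1) (0) (0) (0) [[0],[-1]],
  k 25 0 1 2 4 3 (2) (1) (1) (0) (-1) (1) [[-2],[0]],
  k 29 3 0 1 2 4 (-2) (-1) (0) (-1) (-1) (-1) [[0],[-2]],
  k 29 0 2 1 4 3 (-1) (1) (1) (1) (0) (1) [[0],[1]],
  k 25 0 1 2 4 3 (3) (1) (1) (0) (-1) (1) [[-3],[0]],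
  k 71 3 0 1 2 4 (-1) (-1) (0) (-1) (-1) (-1) [[0],[1]],
  k 25 0 1 2 4 3 (3) (1) (1) (0) (-1) (1) [[-3],[0]],
  k 121 0 1 2 3 4 (-2) (1) (0) (0) (0) (1) [[0],[-1]],
  z,
  k 29 3 0 1 2 4 (-1) (-1) (0) (-1) (-1) (-1) [[0],[-1]],
  k 28 0 1 2 3 4 (-2) (1) (0) (0) (0) (1) [[0],[2]],
  k 29 3 0 1 2 4 (-1) (-1) (0) (-1) (-1) (-1) [[0],[-1]]]⟩,
⟨[⟨1,0,0,0,1⟩, ⟨0,2,-1,0,-1⟩], .br 10 [k 24 0 1 2 4 3 (-2) (1) (2) (0) (-1) (0) [[2],[0]],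
  k 24 0 1 2 4 3 (-1) (1) (2) (0) (-1) (0) [[1],[0]],
  k 93 0 1 3 4 2 (-1) (0) (-1) (-1) (-1) (-1) [[0],[1]],
  k 81 4 1 3 2 0 (-1) (-1) (0) (0) (0) (-1) [[0],[-1]],
  k 24 0 1 2 4 3 (-1) (1) (2) (0) (-1) (0) [[1],[0]],
  k 24 0 1 2 4 3 (-4) (1) (2) (0) (-1) (0) [[4],[0]],
  k 24 0 1 2 4 3 (-3) (1) (2) (0) (-1) (0) [[3],[0]],
  k 47 2 1 4 0 3 (1) (0) (1) (1) (1) (1) [[0],[1]],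
  k 24 0 1 2 4 3 (-3) (1) (2) (0) (-1) (0) [[3],[0]],
  k 24 0 1 2 4 3 (-2) (1) (2) (0) (-1) (0) [[2],[0]],
  z,
  k 57 1 4 3 0 2 (1) (0) (1) (1) (0) (0) [[0],[-1]],
  k 56 1 2 0 4 3 (-1) (-1) (0) (-1) (0) (0) [[0],[1]],
  k 24 0 1 2 4 3 (-5) (1) (2) (0) (-1) (0) [[5],[0]],
  k 42 3 4 1 0 2 (1) (0) (1) (0) (1) (0) [[0],[-1]],
  k 24 0 1 2 4 3 (-1) (1) (2) (0) (-1) (0) [[1],[0]],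
  k 57 1 4 3 0 2 (1) (0) (1) (1) (0) (0) [[0],[-1]],
  k 56 1 2 0 4 3 (-1) (-1) (0) (-1) (0) (0) [[0],[1]],
  k 47 2 1 4 0 3 (1) (0) (1) (1) (1) (1) [[0],[1]],
  k 24 0 1 2 4 3 (-2) (1) (2) (0) (-1) (0) [[2],[0]],
  k 42 3 4 1 0 2 (-1) (0) (1) (0) (1) (0) [[0],[1]],
  k 24 0 1 2 4 3 (-4) (1) (2) (0) (-1) (0) [[4],[0]]]⟩,
⟨[⟨1,0,1,1,1⟩, ⟨0,2,1,2,-1⟩], .br 2 [k 26 1 2 3 4 0 (1) (-1) (-1) (-1) (-1) (0) [[0],[1]],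
  k 41 3 2 0 1 4 (1) (1) (1) (1) (1) (0) [[0],[-1]],
  z,
  k 41 3 2 0 1 4 (1) (1) (1) (1) (1) (0) [[0],[-1]],
  k 23 0 2 3 4 1 (-2) (-1) (-1) (-3) (-2) (-3) [[-2],[0]],
  k 80 2 1 0 3 4 (1) (-1) (-1) (0) (0) (0) [[0],[-1]],
  k 41 3 2 0 1 4 (2) (1) (1) (1) (1) (0) [[0],[-2]],
  k 26 1 2 3 4 0 (2) (-1) (-1) (-1) (-1) (0) [[0],[2]],
  k 49 2 4 1 3 0 (1) (1) (0) (1) (0) (0) [[0],[-1]],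
  k 26 1 2 3 4 0 (1) (-1) (-1) (-1) (-1) (0) [[0],[1]],
  k 56 0 3 1 4 2 (1) (0) (1) (0) (0) (-1) [[0],[1]],
  k 49 2 4 1 3 0 (1) (1) (0) (1) (0) (0) [[0],[-1]],
  k 23 0 2 3 4 1 (-1) (-1) (-1) (-3) (-2) (-3) [[-1],[0]],
  k 26 1 2 3 4 0 (2) (-1) (-1) (-1) (-1) (0) [[0],[2]],
  k 26 1 2 3 4 0 (1) (-1) (-1) (-1) (-1) (0) [[0],[1]],
  k 41 3 2 0 1 4 (1) (1) (1) (1) (1) (0) [[0],[-1]],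
  k 41 3 2 0 1 4 (2) (1) (1) (1) (1) (0) [[0],[-2]],
  k 56 0 3 1 4 2 (1) (0) (1) (0) (0) (-1) [[0],[1]],
  k 120 0 1 2 3 4 (1) (1) (0) (1) (1) (1) [[0],[1]],
  k 23 0 2 3 4 1 (-3) (-1) (-1) (-3) (-2) (-3) [[-3],[0]],
  k 23 0 2 3 4 1 (1) (-1) (-1) (-3) (-2) (-3) [[1],[0]],
  k 96 2 1 0 3 4 (-1) (0) (2) (2) (1) (-1) [[1],[0]]]⟩,
⟨[⟨2,2,0,1,1⟩, ⟨0,0,1,1,0⟩], .br 10 [k 22 0 3 1 4 2 (-2) (-3) (0) (-2) (0) (-1) [[0],[2]],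
  k 22 0 3 1 4 2 (-1) (-3) (0) (-2) (0) (-1) [[0],[1]],
  k 22 0 3 1 4 2 (-3) (-3) (0) (-2) (0) (-1) [[0],[3]],
  k 45 4 1 0 3 2 (1) (0) (0) (-1) (0) (-1) [[-1],[0]],
  k 33 2 4 1 3 0 (-1) (0) (0) (0) (-1) (-1) [[1],[0]],
  k 22 0 3 1 4 2 (-4) (-3) (0) (-2) (0) (-1) [[0],[4]],
  k 91 3 0 4 1 2 (1) (0) (-1) (-1) (0) (0) [[-1],[0]],
  k 22 0 3 1 4 2 (-1) (-3) (0) (-2) (0) (-1) [[0],[1]],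
  k 22 0 3 1 4 2 (-3) (-3) (0) (-2) (0) (-1) [[0],[3]],
  k 22 0 3 1 4 2 (-2) (-3) (0) (-2) (0) (-1) [[0],[2]],
  z,
  k 25 0 1 2 3 4 (-1) (0) (0) (1) (1) (0) [[1],[0]],
  k 22 0 3 1 4 2 (-4) (-3) (0) (-2) (0) (-1) [[0],[4]],
  k 45 4 1 0 3 2 (1) (0) (0) (-1) (0) (-1) [[-1],[0]],
  k 40 3 0 4 2 1 (1) (-1) (1) (2) (2) (2) [[0],[1]],
  k 22 0 3 1 4 2 (-1) (-3) (0) (-2) (0) (-1) [[0],[1]],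
  k 22 0 3 1 4 2 (1) (-3) (0) (-2) (0) (-1) [[0],[-1]],
  k 48 2 4 1 3 0 (1) (0) (0) (0) (-1) (-1) [[-1],[0]],
  k 33 2 4 1 3 0 (-1) (0) (0) (0) (-1) (-1) [[1],[0]],
  k 120 0 1 2 3 4 (-1) (0) (0) (1) (1) (0) [[-1],[0]],
  k 22 0 3 1 4 2 (-2) (-3) (0) (-2) (0) (-1) [[0],[2]],
  k 48 2 4 1 3 0 (1) (0) (0) (0) (-1) (-1) [[-1],[0]]]⟩,
⟨[⟨2,-2,0,-1,3⟩, ⟨0,0,1,1,0⟩], .br 5 [k 21 0 3 1 4 2 (-2) (-1) (0) (-2) (-4) (-3) [[0],[2]],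
  k 21 0 3 1 4 2 (-3) (-1) (0) (-2) (-4) (-3) [[0],[3]],
  k 21 0 3 1 4 2 (-5) (-1) (0) (-2) (-4) (-3) [[0],[5]],
  k 94 3 2 1 4 0 (1) (0) (-1) (-1) (0) (0) [[1],[0]],
  k 91 3 4 0 2 1 (-1) (0) (1) (1) (0) (0) [[1],[0]],
  z,
  k 64 2 4 3 0 1 (1) (0) (1) (0) (1) (0) [[1],[0]],
  k 21 0 3 1 4 2 (1) (-1) (0) (-2) (-4) (-3) [[0],[-1]],
  k 21 0 3 1 4 2 (-1) (-1) (0) (-2) (-4) (-3) [[0],[1]],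
  k 21 0 3 1 4 2 (-2) (-1) (0) (-2) (-4) (-3) [[0],[2]],
  k 21 0 3 1 4 2 (-4) (-1) (0) (-2) (-4) (-3) [[0],[4]],
  k 64 4 1 3 2 0 (-1) (1) (0) (1) (1) (1) [[1],[0]],
  k 21 0 3 1 4 2 (-4) (-1) (0) (-2) (-4) (-3) [[0],[4]],
  k 64 4 1 3 2 0 (1) (1) (0) (1) (1) (1) [[-1],[0]],
  k 35 3 4 0 1 2 (-1) (-1) (1) (2) (2) (-2) [[0],[1]],
  k 21 0 3 1 4 2 (-3) (-1) (0) (-2) (-4) (-3) [[0],[3]],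
  k 21 0 3 1 4 2 (-1) (-1) (0) (-2) (-4) (-3) [[0],[1]],
  k 71 0 2 3 4 1 (1) (-1) (0) (-1) (-1) (-1) [[-1],[0]],
  k 64 2 4 3 0 1 (-1) (0) (1) (0) (1) (0) [[-1],[0]],
  k 35 3 4 0 1 2 (-1) (-1) (1) (2) (2) (-2) [[0],[1]],
  k 21 0 3 1 4 2 (-6) (-1) (0) (-2) (-4) (-3) [[0],[6]],
  k 53 1 2 0 4 3 (-1) (-1) (0) (-2) (1) (2) [[0],[-1]]]⟩,
⟨[⟨1,0,0,0,1⟩, ⟨0,0,1,2,1⟩], .br 19 [k 20 0 1 2 4 3 (2) (1) (0) (2) (1) (2) [[-2],[0]],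
  k 20 0 1 2 4 3 (3) (1) (0) (2) (1) (2) [[-3],[0]],
  k 24 1 2 4 3 0 (-1) (-1) (-1) (0) (0) (0) [[0],[-1]],
  k 110 1 2 4 0 3 (-1) (-1) (-1) (0) (0) (0) [[0],[1]],
  k 20 0 1 2 4 3 (1) (1) (0) (2) (1) (2) [[-1],[0]],
  k 20 0 1 2 4 3 (2) (1) (0) (2) (1) (2) [[-2],[0]],
  k 20 0 1 2 4 3 (3) (1) (0) (2) (1) (2) [[-3],[0]],
  k 110 1 4 2 0 3 (1) (-1) (-1) (0) (0) (0) [[0],[1]],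
  k 20 0 1 2 4 3 (1) (1) (0) (2) (1) (2) [[-1],[0]],
  k 20 0 1 2 4 3 (2) (1) (0) (2) (1) (2) [[-2],[0]],
  k 20 0 1 2 4 3 (2) (1) (0) (2) (1) (2) [[-2],[0]],
  k 24 1 4 2 3 0 (1) (-1) (-1) (0) (0) (0) [[0],[-1]],
  k 33 2 0 4 3 1 (-1) (0) (1) (0) (0) (-1) [[0],[-1]],
  k 20 0 1 2 4 3 (3) (1) (0) (2) (1) (2) [[-3],[0]],
  k 33 4 0 2 3 1 (1) (0) (1) (0) (0) (-1) [[0],[-1]],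
  k 20 0 1 2 4 3 (1) (1) (0) (2) (1) (2) [[-1],[0]],
  k 110 1 4 2 0 3 (1) (-1) (-1) (0) (0) (0) [[0],[1]],
  k 33 2 0 4 3 1 (-1) (0) (1) (0) (0) (-1) [[0],[-1]],
  k 24 1 4 2 3 0 (1) (-1) (-1) (0) (0) (0) [[0],[-1]],
  z,
  k 33 2 0 4 3 1 (-1) (0) (1) (0) (0) (-1) [[0],[-1]],
  k 20 0 1 2 4 3 (4) (1) (0) (2) (1) (2) [[-4],[0]]]⟩,
⟨[⟨1,0,1,2,2⟩, ⟨0,1,1,1,-1⟩], .br 4 [k 32 1 0 2 4 3 (1) (1) (-1) (1) (1) (2) [[0],[1]],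
  k 76 1 4 2 3 0 (1) (1) (0) (-1) (0) (0) [[-1],[0]],
  k 33 1 3 0 2 4 (-1) (1) (0) (-1) (-1) (1) [[0],[1]],
  k 107 2 4 1 3 0 (1) (1) (0) (2) (1) (0) [[0],[-1]],
  z,
  k 36 0 3 2 1 4 (1) (-1) (-2) (-1) (-2) (0) [[0],[-1]],
  k 32 1 0 2 4 3 (2) (1) (-1) (1) (1) (2) [[0],[2]],
  k 36 0 3 2 1 4 (3) (-1) (-2) (-1) (-2) (0) [[0],[-3]],
  k 23 1 2 4 3 0 (1) (0) (1) (-1) (0) (0) [[1],[0]],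
  k 32 1 0 2 4 3 (1) (1) (-1) (1) (1) (2) [[0],[1]],
  k 107 2 4 1 3 0 (1) (1) (0) (2) (1) (0) [[0],[-1]],
  k 36 0 3 2 1 4 (1) (-1) (-2) (-1) (-2) (0) [[0],[-1]],
  k 23 1 2 4 3 0 (1) (0) (1) (-1) (0) (0) [[1],[0]],
  k 76 1 4 2 3 0 (1) (1) (0) (-1) (0) (0) [[-1],[0]],
  k 36 0 3 2 1 4 (2) (-1) (-2) (-1) (-2) (0) [[0],[-2]],
  k 23 1 2 4 3 0 (2) (0) (1) (-1) (0) (0) [[2],[0]],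
  k 118 0 1 2 3 4 (1) (0) (1) (1) (1) (-1) [[1],[0]],
  k 23 1 2 4 3 0 (3) (0) (1) (-1) (0) (0) [[3],[0]],
  k 37 4 1 0 3 2 (1) (-1) (-1) (-3) (-2) (-1) [[0],[-1]],
  k 36 0 3 2 1 4 (-1) (-1) (-2) (-1) (-2) (0) [[0],[1]],
  k 23 1 2 4 3 0 (2) (0) (1) (-1) (0) (0) [[2],[0]],
  k 118 0 1 2 3 4 (1) (0) (1) (1) (1) (-1) [[1],[0]]]⟩,
⟨[⟨2,0,1,2,3⟩, ⟨0,2,1,0,-3⟩], .br 20 [k 18 0 1 2 3 4 (2) (2) (0) (1) (2) (3) [[0],[-4]],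
  k 18 0 1 2 3 4 (3) (2) (0) (1) (2) (3) [[0],[-6]],
  k 18 0 1 2 3 4 (-1) (2) (0) (1) (2) (3) [[0],[2]],
  k 18 0 1 2 3 4 (1) (2) (0) (1) (2) (3) [[0],[-2]],
  k 50 3 1 0 2 4 (1) (1) (-1) (0) (-2) (-2) [[0],[-2]],
  k 32 3 1 4 2 0 (2) (2) (1) (3) (2) (0) [[0],[2]],
  k 49 0 3 2 4 1 (-1) (1) (-1) (-3) (-3) (0) [[2],[0]],
  k 18 0 1 2 3 4 (5) (2) (0) (1) (2) (3) [[0],[-10]],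
  k 18 0 1 2 3 4 (1) (2) (0) (1) (2) (3) [[0],[-2]],
  k 18 0 1 2 3 4 (2) (2) (0) (1) (2) (3) [[0],[-4]],
  k 44 1 0 4 3 2 (2) (2) (0) (1) (-2) (-1) [[0],[2]],
  k 18 0 1 2 3 4 (3) (2) (0) (1) (2) (3) [[0],[-6]],
  k 31 2 0 4 3 1 (-2) (2) (0) (3) (3) (4) [[-2],[0]],
  k 18 0 1 2 3 4 (3) (2) (0) (1) (2) (3) [[0],[-6]],
  k 18 0 1 2 3 4 (4) (2) (0) (1) (2) (3) [[0],[-8]],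
  k 31 1 0 2 4 3 (1) (1) (-2) (0) (1) (2) [[0],[2]],
  k 118 0 1 2 3 4 (-3) (0) (2) (1) (0) (-3) [[-2],[0]],
  k 31 2 0 4 3 1 (2) (2) (0) (3) (3) (4) [[2],[0]],
  k 82 4 0 3 2 1 (3) (2) (1) (4) (3) (2) [[0],[-2]],
  k 31 2 0 4 3 1 (-2) (2) (0) (3) (3) (4) [[-2],[0]],
  z,
  k 18 0 1 2 3 4 (4) (2) (0) (1) (2) (3) [[0],[-8]]]⟩,
⟨[⟨2,1,0,-1,0⟩, ⟨0,0,1,2,1⟩], .br 3 [k 50 0 4 3 2 1 (-1) (1) (1) (1) (2) (1) [[-1],[0]],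
  k 34 0 2 1 3 4 (1) (1) (2) (0) (0) (-1) [[0],[1]],
  k 34 3 0 4 1 2 (2) (1) (2) (2) (1) (2) [[0],[2]],
  z,
  k 34 3 0 4 1 2 (2) (1) (2) (2) (1) (2) [[0],[2]],
  k 34 3 0 4 1 2 (1) (1) (2) (2) (1) (2) [[0],[1]],
  k 34 0 2 1 3 4 (2) (1) (2) (0) (0) (-1) [[0],[2]],
  k 34 0 2 1 3 4 (2) (1) (2) (0) (0) (-1) [[0],[2]],
  k 31 3 1 4 2 0 (-2) (0) (-1) (1) (0) (0) [[-1],[0]],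
  k 50 0 4 3 2 1 (-1) (1) (1) (1) (2) (1) [[-1],[0]],
  k 31 1 3 0 2 4 (-1) (0) (-1) (-1) (-1) (1) [[1],[0]],
  k 50 0 4 3 2 1 (-2) (1) (1) (1) (2) (1) [[-2],[0]],
  k 21 1 0 3 4 2 (-1) (1) (0) (1) (-1) (1) [[1],[0]],
  k 34 0 2 1 3 4 (1) (1) (2) (0) (0) (-1) [[0],[1]],
  k 31 1 3 0 2 4 (-1) (0) (-1) (-1) (-1) (1) [[1],[0]],
  k 50 0 4 3 2 1 (-2) (1) (1) (1) (2) (1) [[-2],[0]],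
  k 34 0 2 1 3 4 (3) (1) (2) (0) (0) (-1) [[0],[3]],
  k 50 0 4 3 2 1 (-1) (1) (1) (1) (2) (1) [[-1],[0]],
  k 31 3 1 4 2 0 (-2) (0) (-1) (1) (0) (0) [[-1],[0]],
  k 34 3 0 4 1 2 (3) (1) (2) (2) (1) (2) [[0],[3]],
  k 34 3 0 4 1 2 (1) (1) (2) (2) (1) (2) [[0],[1]],
  k 21 1 0 3 4 2 (1) (1) (0) (1) (-1) (1) [[-1],[0]]]⟩,
⟨[⟨2,0,1,2,3⟩, ⟨0,2,-1,-2,-3⟩], .br 2 [k 16 1 0 3 4 2 (3) (3) (2) (1) (-1) (1) [[0],[-6]],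
  k 16 1 0 3 4 2 (4) (3) (2) (1) (-1) (1) [[0],[-8]],
  z,
  k 117 0 4 3 2 1 (2) (1) (-1) (1) (2) (3) [[0],[-2]],
  k 16 1 0 3 4 2 (2) (3) (2) (1) (-1) (1) [[0],[-4]],
  k 109 0 3 1 4 2 (3) (-2) (1) (-1) (-1) (-3) [[0],[-2]],
  k 16 1 0 3 4 2 (4) (3) (2) (1) (-1) (1) [[0],[-8]],
  k 16 1 0 3 4 2 (6) (3) (2) (1) (-1) (1) [[0],[-12]],
  k 16 1 0 3 4 2 (2) (3) (2) (1) (-1) (1) [[0],[-4]],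
  k 16 1 0 3 4 2 (3) (3) (2) (1) (-1) (1) [[0],[-6]],
  k 117 0 1 2 3 4 (-1) (0) (2) (-1) (-2) (-3) [[-2],[0]],
  k 109 0 2 4 1 3 (-2) (3) (-1) (2) (1) (3) [[-2],[0]],
  k 65 4 3 2 1 0 (1) (-2) (-1) (-3) (-3) (-1) [[0],[-2]],
  k 119 0 1 2 3 4 (4) (2) (0) (1) (2) (3) [[0],[2]],
  k 119 0 4 3 2 1 (-3) (-3) (-1) (-1) (-2) (-3) [[2],[0]],
  k 65 1 2 3 4 0 (2) (-3) (-1) (-3) (-2) (-1) [[0],[2]],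
  k 118 0 1 2 3 4 (-4) (0) (2) (-1) (-2) (-3) [[-2],[0]],
  k 16 1 0 3 4 2 (1) (3) (2) (1) (-1) (1) [[0],[-2]],
  k 16 1 0 3 4 2 (4) (3) (2) (1) (-1) (1) [[0],[-8]],
  k 16 1 0 3 4 2 (1) (3) (2) (1) (-1) (1) [[0],[-2]],
  k 16 1 0 3 4 2 (1) (3) (2) (1) (-1) (1) [[0],[-2]],
  k 118 0 4 3 2 1 (5) (1) (-1) (1) (2) (3) [[0],[-2]]]⟩,
⟨[⟨1,-1,0,-2,-1⟩, ⟨0,0,1,0,0⟩], .br 8 [k 25 1 2 4 0 3 (-3) (1) (-1) (0) (-2) (-1) [[0],[3]],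
  k 109 1 4 0 2 3 (-1) (1) (0) (1) (0) (1) [[1],[0]],
  k 25 1 2 4 0 3 (-2) (1) (-1) (0) (-2) (-1) [[0],[2]],
  k 25 1 2 4 0 3 (-3) (1) (-1) (0) (-2) (-1) [[0],[3]],
  k 21 0 1 4 3 2 (-1) (0) (0) (1) (0) (0) [[1],[0]],
  k 25 1 2 4 0 3 (-2) (1) (-1) (0) (-2) (-1) [[0],[2]],
  k 25 1 2 4 0 3 (-2) (1) (-1) (0) (-2) (-1) [[0],[2]],
  k 21 0 1 4 3 2 (-1) (0) (0) (1) (0) (0) [[1],[0]],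
  z,
  k 42 0 4 2 1 3 (-1) (-1) (-1) (-1) (0) (0) [[-1],[0]],
  k 21 0 1 4 3 2 (-1) (0) (0) (1) (0) (0) [[1],[0]],
  k 42 0 4 2 1 3 (-1) (-1) (-1) (-1) (0) (0) [[-1],[0]],
  k 25 1 2 4 0 3 (-4) (1) (-1) (0) (-2) (-1) [[0],[4]],
  k 25 1 2 4 0 3 (-1) (1) (-1) (0) (-2) (-1) [[0],[1]],
  k 42 0 4 2 1 3 (-2) (-1) (-1) (-1) (0) (0) [[-2],[0]],
  k 25 1 2 4 0 3 (-1) (1) (-1) (0) (-2) (-1) [[0],[1]],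
  k 68 1 0 3 4 2 (-1) (-1) (-1) (-1) (-1) (-1) [[-1],[0]],
  k 25 1 2 4 0 3 (-1) (1) (-1) (0) (-2) (-1) [[0],[1]],
  k 19 0 1 3 4 2 (-1) (1) (2) (0) (1) (-1) [[0],[-1]],
  k 25 1 2 4 0 3 (-1) (1) (-1) (0) (-2) (-1) [[0],[1]],
  k 68 1 0 3 4 2 (-1) (-1) (-1) (-1) (-1) (-1) [[-1],[0]],
  k 25 1 2 4 0 3 (-4) (1) (-1) (0) (-2) (-1) [[0],[4]]]⟩,
⟨[⟨1,0,-1,0,0⟩, ⟨0,1,2,2,1⟩], .br 12 [k 31 0 1 2 4 3 (1) (2) (1) (1) (0) (0) [[0],[1]],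
  k 31 0 1 2 4 3 (2) (2) (1) (1) (0) (0) [[0],[2]],
  k 31 0 1 4 2 3 (1) (2) (1) (1) (0) (0) [[0],[-1]],
  k 31 0 1 2 4 3 (1) (2) (1) (1) (0) (0) [[0],[1]],
  k 31 0 1 4 2 3 (2) (2) (1) (1) (0) (0) [[0],[-2]],
  k 31 0 1 4 2 3 (1) (2) (1) (1) (0) (0) [[0],[-1]],
  k 31 0 1 2 4 3 (2) (2) (1) (1) (0) (0) [[0],[2]],
  k 69 1 4 3 2 0 (-1) (2) (1) (1) (1) (1) [[-1],[0]],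
  k 31 0 1 4 2 3 (2) (2) (1) (1) (0) (0) [[0],[-2]],
  k 69 1 2 3 4 0 (-2) (0) (0) (1) (-1) (0) [[1],[0]],
  k 69 1 4 3 2 0 (-1) (2) (1) (1) (1) (1) [[-1],[0]],
  k 69 1 2 3 4 0 (-2) (0) (0) (1) (-1) (0) [[1],[0]],
  z,
  k 20 1 2 3 4 0 (-1) (0) (0) (1) (-1) (0) [[-1],[0]],
  k 20 1 2 3 4 0 (-2) (0) (0) (1) (-1) (0) [[-2],[0]],
  k 20 1 2 3 4 0 (-1) (0) (0) (1) (-1) (0) [[-1],[0]],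
  k 31 0 1 2 4 3 (3) (2) (1) (1) (0) (0) [[0],[3]],
  k 20 1 2 3 4 0 (-1) (0) (0) (1) (-1) (0) [[-1],[0]],
  k 31 0 1 4 2 3 (3) (2) (1) (1) (0) (0) [[0],[-3]],
  k 20 0 1 2 3 4 (1) (1) (0) (-1) (0) (0) [[0],[-1]],
  k 20 1 2 3 4 0 (-1) (0) (0) (1) (-1) (0) [[-1],[0]],
  k 20 0 1 4 3 2 (1) (1) (0) (-1) (0) (0) [[0],[1]]]⟩,
⟨[⟨1,0,1,0,0⟩, ⟨0,1,1,2,1⟩], .br 1 [k 15 1 2 4 3 0 (1) (-1) (-1) (-2) (-1) (-1) [[0],[1]],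
  z,
  k 117 0 1 2 3 4 (1) (1) (0) (1) (0) (0) [[0],[1]],
  k 15 1 2 4 3 0 (1) (-1) (-1) (-2) (-1) (-1) [[0],[1]],
  k 13 1 0 2 4 3 (-2) (0) (-1) (1) (0) (1) [[2],[0]],
  k 117 0 1 2 3 4 (1) (1) (0) (1) (0) (0) [[0],[1]],
  k 19 1 2 3 4 0 (-1) (-1) (0) (0) (-1) (-1) [[-1],[0]],
  k 15 1 2 4 3 0 (1) (-1) (-1) (-2) (-1) (-1) [[0],[1]],
  k 102 1 2 4 3 0 (2) (-1) (-1) (-2) (-1) (-1) [[0],[-1]],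
  k 117 0 1 2 3 4 (1) (1) (0) (1) (0) (0) [[0],[1]],
  k 15 1 2 4 3 0 (1) (-1) (-1) (-2) (-1) (-1) [[0],[1]],
  k 117 0 1 2 3 4 (1) (1) (0) (1) (0) (0) [[0],[1]],
  k 13 1 0 2 4 3 (-1) (0) (-1) (1) (0) (1) [[1],[0]],
  k 15 1 2 4 3 0 (2) (-1) (-1) (-2) (-1) (-1) [[0],[2]],
  k 13 1 0 2 4 3 (-1) (0) (-1) (1) (0) (1) [[1],[0]],
  k 15 1 2 4 3 0 (2) (-1) (-1) (-2) (-1) (-1) [[0],[2]],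
  k 15 1 4 2 3 0 (1) (-1) (-1) (-2) (-1) (-1) [[0],[-1]],
  k 15 1 2 4 3 0 (2) (-1) (-1) (-2) (-1) (-1) [[0],[2]],
  k 118 0 1 2 3 4 (1) (1) (0) (1) (0) (0) [[0],[1]],
  k 118 0 1 2 3 4 (1) (1) (0) (1) (0) (0) [[0],[1]],
  k 13 1 0 2 4 3 (-1) (0) (-1) (1) (0) (1) [[1],[0]],
  k 15 1 4 2 3 0 (1) (-1) (-1) (-2) (-1) (-1) [[0],[-1]]]⟩,
⟨[⟨1,0,2,2,2⟩, ⟨0,1,1,0,-1⟩], .br 2 [k 20 3 4 2 0 1 (-1) (1) (1) (2) (1) (0) [[-1],[0]],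
  k 16 0 3 1 4 2 (2) (0) (1) (0) (0) (-2) [[0],[-2]],
  z,
  k 20 3 4 2 0 1 (-1) (1) (1) (2) (1) (0) [[-1],[0]],
  k 40 0 3 2 1 4 (-2) (1) (1) (0) (0) (-1) [[2],[0]],
  k 16 0 3 1 4 2 (2) (0) (1) (0) (0) (-2) [[0],[-2]],
  k 11 0 1 3 4 2 (-1) (0) (1) (0) (1) (1) [[-1,-3],[0,0]],
  k 16 0 3 1 4 2 (3) (0) (1) (0) (0) (-2) [[0],[-3]],
  k 16 0 3 1 4 2 (1) (0) (1) (0) (0) (-2) [[0],[-1]],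
  k 63 0 2 3 4 1 (1) (-1) (-1) (-1) (-2) (0) [[0],[-1]],
  k 16 0 3 1 4 2 (1) (0) (1) (0) (0) (-2) [[0],[-1]],
  k 63 0 2 3 4 1 (1) (-1) (-1) (-1) (-2) (0) [[0],[-1]],
  k 16 0 3 1 4 2 (1) (0) (1) (0) (0) (-2) [[0],[-1]],
  k 60 0 3 4 1 2 (-2) (0) (-1) (-1) (0) (-1) [[-1],[0]],
  k 118 0 1 2 3 4 (1) (1) (0) (2) (2) (2) [[0],[1]],
  k 14 0 4 3 1 2 (1) (2) (2) (3) (2) (2) [[0],[1]],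
  k 60 0 3 4 1 2 (-2) (0) (-1) (-1) (0) (-1) [[-1],[0]],
  k 14 0 4 3 1 2 (1) (2) (2) (3) (2) (2) [[0],[1]],
  k 118 0 1 2 3 4 (1) (1) (0) (2) (2) (2) [[0],[1]],
  k 40 0 3 2 1 4 (-1) (1) (1) (0) (0) (-1) [[1],[0]],
  k 40 0 3 2 1 4 (-1) (1) (1) (0) (0) (-1) [[1],[0]],
  k 20 3 4 2 0 1 (-2) (1) (1) (2) (1) (0) [[-2],[0]]]⟩,
⟨[⟨1,0,2,2,2⟩, ⟨0,1,-1,-2,-3⟩], .br 7 [k 115 0 1 2 3 4 (-1) (1) (0) (2) (2) (2) [[0],[-1]],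
  k 12 0 1 3 4 2 (-1) (1) (0) (0) (-2) (0) [[0],[1]],
  k 118 0 1 2 3 4 (-3) (1) (0) (2) (2) (2) [[0],[-1]],
  k 115 0 1 2 3 4 (-1) (1) (0) (2) (2) (2) [[0],[-1]],
  k 12 0 1 3 4 2 (-3) (1) (0) (0) (-2) (0) [[0],[3]],
  k 12 0 1 3 4 2 (-1) (1) (0) (0) (-2) (0) [[0],[1]],
  k 39 0 3 2 1 4 (2) (1) (3) (2) (2) (-1) [[-2],[0]],
  z,
  k 115 0 1 2 3 4 (-2) (1) (0) (2) (2) (2) [[0],[-2]],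
  k 18 3 4 2 0 1 (-2) (-2) (0) (-1) (-1) (-1) [[0],[-1]],
  k 115 0 1 2 3 4 (-2) (1) (0) (2) (2) (2) [[0],[-2]],
  k 18 3 4 2 0 1 (-2) (-2) (0) (-1) (-1) (-1) [[0],[-1]],
  k 12 0 1 3 4 2 (-2) (1) (0) (0) (-2) (0) [[0],[2]],
  k 39 0 3 2 1 4 (1) (1) (3) (2) (2) (-1) [[-1],[0]],
  k 12 0 1 3 4 2 (-2) (1) (0) (0) (-2) (0) [[0],[2]],
  k 119 0 1 2 3 4 (-2) (1) (0) (2) (2) (2) [[0],[-1]],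
  k 39 0 3 2 1 4 (1) (1) (3) (2) (2) (-1) [[-1],[0]],
  k 119 0 1 2 3 4 (-2) (1) (0) (2) (2) (2) [[0],[-1]],
  k 12 0 1 3 4 2 (-2) (1) (0) (0) (-2) (0) [[0],[2]],
  k 59 4 0 1 3 2 (-3) (-1) (-1) (-3) (-1) (-1) [[0],[1]],
  k 59 4 0 1 3 2 (-3) (-1) (-1) (-3) (-1) (-1) [[0],[1]],
  k 12 0 1 3 4 2 (1) (1) (0) (0) (-2) (0) [[0],[-1]]]⟩,
⟨[⟨1,2,0,-2,-4⟩, ⟨0,0,1,1,1⟩], .br 21 [k 18 3 4 2 0 1 (-1) (-1) (0) (0) (0) (0) [[-1],[0]],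
  k 18 4 3 2 0 1 (-1) (-1) (0) (0) (0) (0) [[1],[0]],
  k 18 3 4 2 0 1 (-2) (-1) (0) (0) (0) (0) [[-2],[0]],
  k 18 3 4 2 0 1 (-1) (-1) (0) (0) (0) (0) [[-1],[0]],
  k 18 4 3 2 0 1 (-2) (-1) (0) (0) (0) (0) [[2],[0]],
  k 18 4 3 2 0 1 (-1) (-1) (0) (0) (0) (0) [[1],[0]],
  k 56 0 3 4 1 2 (-1) (1) (1) (1) (1) (1) [[-1],[0]],
  k 56 0 4 3 1 2 (1) (-4) (-2) (-3) (-4) (-2) [[0],[-1]],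
  k 120 0 1 2 4 3 (-2) (0) (0) (1) (1) (1) [[1],[0]],
  k 120 0 1 2 3 4 (-2) (0) (0) (1) (1) (1) [[-1],[0]],
  k 120 0 1 2 4 3 (-2) (0) (0) (1) (1) (1) [[1],[0]],
  k 120 0 1 2 3 4 (-2) (0) (0) (1) (1) (1) [[-1],[0]],
  k 16 0 3 1 4 2 (-1) (0) (0) (0) (0) (-1) [[1],[0]],
  k 16 0 3 1 4 2 (-1) (0) (0) (0) (0) (-1) [[1],[0]],
  k 119 0 1 2 4 3 (-2) (0) (0) (1) (1) (1) [[1],[0]],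
  k 119 0 1 2 3 4 (-2) (0) (0) (1) (1) (1) [[-1],[0]],
  k 16 0 3 1 4 2 (-1) (0) (0) (0) (0) (-1) [[1],[0]],
  k 119 0 1 2 3 4 (-2) (0) (0) (1) (1) (1) [[-1],[0]],
  k 119 0 1 2 4 3 (-2) (0) (0) (1) (1) (1) [[1],[0]],
  k 16 0 3 1 4 2 (-2) (0) (0) (0) (0) (-1) [[2],[0]],
  k 16 0 3 1 4 2 (-2) (0) (0) (0) (0) (-1) [[2],[0]],
  z]⟩,
⟨[⟨1,2,0,0,-2⟩, ⟨0,0,1,1,1⟩], .br 18 [k 41 0 3 1 4 2 (1) (0) (1) (0) (2) (2) [[0],[-1]],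
  k 41 0 3 1 4 2 (1) (0) (1) (0) (2) (2) [[0],[-1]],
  k 19 0 1 2 3 4 (3) (1) (2) (0) (0) (-2) [[0],[3]],
  k 41 0 3 1 4 2 (1) (0) (1) (0) (2) (2) [[0],[-1]],
  k 19 0 1 2 3 4 (1) (1) (2) (0) (0) (-2) [[0],[1]],
  k 13 0 4 3 1 2 (-1) (-2) (-2) (-1) (-2) (0) [[0],[-1]],
  k 48 4 0 3 1 2 (1) (0) (-1) (0) (0) (0) [[1],[0]],
  k 14 0 4 3 1 2 (1) (1) (1) (1) (1) (1) [[1],[0]],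
  k 19 0 1 2 3 4 (2) (1) (2) (0) (0) (-2) [[0],[2]],
  k 19 0 1 2 3 4 (2) (1) (2) (0) (0) (-2) [[0],[2]],
  k 19 0 1 2 3 4 (4) (1) (2) (0) (0) (-2) [[0],[4]],
  k 19 0 1 2 3 4 (2) (1) (2) (0) (0) (-2) [[0],[2]],
  k 14 0 4 3 1 2 (1) (1) (1) (1) (1) (1) [[1],[0]],
  k 14 0 4 3 1 2 (1) (1) (1) (1) (1) (1) [[1],[0]],
  k 19 0 1 2 3 4 (2) (1) (2) (0) (0) (-2) [[0],[2]],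
  k 19 0 1 2 3 4 (4) (1) (2) (0) (0) (-2) [[0],[4]],
  k 48 4 0 3 1 2 (1) (0) (-1) (0) (0) (0) [[1],[0]],
  k 19 0 1 2 3 4 (4) (1) (2) (0) (0) (-2) [[0],[4]],
  z,
  k 19 0 1 2 3 4 (1) (1) (2) (0) (0) (-2) [[0],[1]],
  k 19 0 1 2 3 4 (3) (1) (2) (0) (0) (-2) [[0],[3]],
  k 120 0 1 2 3 4 (-1) (1) (2) (0) (0) (-2) [[0],[-1]]]⟩,
⟨[⟨1,2,3,0,-2⟩, ⟨0,0,0,1,1⟩], .br 4 [k 8 0 3 1 2 4 (3) (5) (3) (4) (2) (2) [[0],[3]],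
  k 28 4 1 2 0 3 (1) (1) (1) (2) (1) (1) [[-1],[0]],
  k 28 1 4 0 2 3 (-1) (-1) (-1) (-2) (-1) (-1) [[1],[0]],
  k 8 0 3 1 2 4 (3) (5) (3) (4) (2) (2) [[0],[3]],
  z,
  k 8 0 3 1 2 4 (1) (5) (3) (4) (2) (2) [[0],[1]],
  k 8 0 3 1 2 4 (4) (5) (3) (4) (2) (2) [[0],[4]],
  k 14 0 3 1 4 2 (-1) (3) (1) (0) (2) (2) [[0],[1]],
  k 14 1 2 3 4 0 (-1) (-1) (0) (-1) (-1) (-1) [[-1],[0]],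
  k 8 0 3 1 2 4 (1) (5) (3) (4) (2) (2) [[0],[1]],
  k 8 0 3 1 2 4 (3) (5) (3) (4) (2) (2) [[0],[3]],
  k 8 0 3 1 2 4 (1) (5) (3) (4) (2) (2) [[0],[1]],
  k 8 0 3 1 2 4 (2) (5) (3) (4) (2) (2) [[0],[2]],
  k 8 0 3 1 2 4 (2) (5) (3) (4) (2) (2) [[0],[2]],
  k 26 0 3 2 4 1 (1) (-1) (0) (0) (0) (-1) [[-1],[0]],
  k 120 2 4 0 3 1 (-1) (0) (0) (0) (-1) (-1) [[-1],[0]],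
  k 120 0 1 2 3 4 (1) (1) (2) (3) (0) (-2) [[0],[-1]],
  k 120 2 4 0 3 1 (-1) (0) (0) (0) (-1) (-1) [[-1],[0]],
  k 8 0 3 1 2 4 (-1) (5) (3) (4) (2) (2) [[0],[-1]],
  k 26 2 3 0 1 4 (-1) (1) (0) (0) (0) (1) [[1],[0]],
  k 8 0 3 1 2 4 (2) (5) (3) (4) (2) (2) [[0],[2]],
  k 120 0 1 2 3 4 (1) (1) (2) (3) (0) (-2) [[0],[-1]]]⟩,
⟨[⟨1,2,0,4,2⟩, ⟨0,0,1,-1,-1⟩], .br 8 [k 13 0 3 1 4 2 (-1) (2) (0) (0) (0) (1) [[1],[0]],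
  k 121 0 1 2 3 4 (-3) (0) (0) (1) (-1) (-1) [[-1],[0]],
  k 31 1 4 2 3 0 (1) (1) (-1) (3) (4) (2) [[0],[-1]],
  k 13 0 3 1 4 2 (-1) (2) (0) (0) (0) (1) [[1],[0]],
  k 122 0 1 2 3 4 (-2) (0) (0) (1) (-1) (-1) [[-1],[0]],
  k 40 0 4 1 2 3 (1) (2) (1) (0) (-4) (-2) [[0],[-1]],
  k 83 0 1 4 3 2 (-1) (0) (0) (2) (1) (0) [[1],[0]],
  k 31 2 0 3 1 4 (-3) (-1) (-2) (-1) (-2) (-1) [[3],[0]],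
  z,
  k 31 2 0 3 1 4 (-2) (-1) (-2) (-1) (-2) (-1) [[2],[0]],
  k 13 0 3 1 4 2 (-2) (2) (0) (0) (0) (1) [[2],[0]],
  k 31 2 0 3 1 4 (-2) (-1) (-2) (-1) (-2) (-1) [[2],[0]],
  k 31 2 0 3 1 4 (-1) (-1) (-2) (-1) (-2) (-1) [[1],[0]],
  k 31 2 0 3 1 4 (-1) (-1) (-2) (-1) (-2) (-1) [[1],[0]],
  k 31 2 0 3 1 4 (-4) (-1) (-2) (-1) (-2) (-1) [[4],[0]],
  k 31 1 4 2 3 0 (2) (1) (-1) (3) (4) (2) [[0],[-2]],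
  k 120 0 1 2 3 4 (-3) (0) (0) (1) (-1) (-1) [[-1],[0]],
  k 31 1 4 2 3 0 (2) (1) (-1) (3) (4) (2) [[0],[-2]],
  k 40 0 4 1 2 3 (2) (2) (1) (0) (-4) (-2) [[0],[-2]],
  k 31 1 4 2 3 0 (-1) (1) (-1) (3) (4) (2) [[0],[1]],
  k 83 4 3 0 1 2 (-2) (-1) (-2) (-2) (-2) (-2) [[1],[0]],
  k 83 4 3 0 1 2 (-2) (-1) (-2) (-2) (-2) (-2) [[1],[0]]]⟩,
⟨[⟨2,0,-2,-1,-1⟩, ⟨0,2,4,3,1⟩], .br 14 [k 6 0 1 2 3 4 (-5) (2) (0) (-2) (-1) (-1) [[0],[10]],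
  k 6 0 1 2 3 4 (-4) (2) (0) (-2) (-1) (-1) [[0],[8]],
  k 6 0 1 2 3 4 (-4) (2) (0) (-2) (-1) (-1) [[0],[8]],
  k 6 0 1 2 3 4 (-5) (2) (0) (-2) (-1) (-1) [[0],[10]],
  k 25 0 1 2 4 3 (1) (-1) (-1) (0) (1) (3) [[-2],[0]],
  k 123 0 1 2 3 4 (3) (0) (2) (4) (3) (1) [[2],[0]],
  k 123 4 1 2 3 0 (-3) (0) (2) (4) (3) (1) [[0],[-2]],
  k 6 0 1 2 3 4 (-2) (2) (0) (-2) (-1) (-1) [[0],[4]],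
  k 6 0 1 2 3 4 (-2) (2) (0) (-2) (-1) (-1) [[0],[4]],
  k 6 0 1 2 3 4 (-1) (2) (0) (-2) (-1) (-1) [[0],[2]],
  k 25 4 1 2 0 3 (-1) (-1) (-1) (0) (1) (3) [[0],[2]],
  k 6 0 1 2 3 4 (-1) (2) (0) (-2) (-1) (-1) [[0],[2]],
  k 124 0 1 2 3 4 (5) (0) (2) (4) (3) (1) [[2],[0]],
  k 6 0 1 2 3 4 (-3) (2) (0) (-2) (-1) (-1) [[0],[6]],
  z,
  k 122 2 0 4 3 1 (-2) (0) (2) (2) (3) (-1) [[0],[-2]],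
  k 122 2 0 4 3 1 (-2) (0) (2) (2) (3) (-1) [[0],[-2]],
  k 122 2 0 4 3 1 (-2) (0) (2) (2) (3) (-1) [[0],[-2]],
  k 12 0 1 4 3 2 (-1) (2) (0) (-1) (1) (0) [[0],[-2]],
  k 122 0 1 2 3 4 (2) (0) (2) (4) (3) (1) [[2],[0]],
  k 6 0 1 2 3 4 (-3) (2) (0) (-2) (-1) (-1) [[0],[6]],
  k 6 0 1 2 3 4 (-6) (2) (0) (-2) (-1) (-1) [[0],[12]]]⟩,
⟨[⟨1,0,-1,-2,-2⟩, ⟨0,1,2,1,0⟩], .br 2 [k 6 0 1 4 3 2 (-2) (1) (0) (1) (2) (0) [[0],[-2]],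
  k 126 0 1 2 3 4 (-1) (0) (1) (2) (1) (0) [[-1],[0]],
  z,
  k 6 0 1 4 3 2 (-2) (1) (0) (1) (2) (0) [[0],[-2]],
  k 124 0 1 2 3 4 (-1) (1) (0) (-1) (-2) (-2) [[0],[1]],
  k 60 1 4 3 0 2 (-1) (1) (0) (0) (1) (0) [[1],[0]],
  k 6 0 1 4 3 2 (-1) (1) (0) (1) (2) (0) [[0],[-1]],
  k 35 3 0 4 1 2 (-2) (1) (2) (0) (0) (1) [[0],[2]],
  k 8 3 0 4 1 2 (1) (1) (2) (0) (0) (1) [[0],[-1]],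
  k 23 0 1 2 4 3 (-2) (-1) (-1) (-1) (0) (1) [[2],[0]],
  k 23 0 1 2 4 3 (-1) (-1) (-1) (-1) (0) (1) [[1],[0]],
  k 23 0 1 2 4 3 (-2) (-1) (-1) (-1) (0) (1) [[2],[0]],
  k 6 0 1 4 3 2 (-3) (1) (0) (1) (2) (0) [[0],[-3]],
  k 35 3 0 4 1 2 (-1) (1) (2) (0) (0) (1) [[0],[1]],
  k 125 0 1 2 3 4 (-1) (1) (0) (-1) (-2) (-2) [[0],[1]],
  k 6 0 1 4 3 2 (1) (1) (0) (1) (2) (0) [[0],[1]],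
  k 60 1 4 3 0 2 (-1) (1) (0) (0) (1) (0) [[1],[0]],
  k 6 0 1 4 3 2 (1) (1) (0) (1) (2) (0) [[0],[1]],
  k 23 0 1 2 4 3 (-3) (-1) (-1) (-1) (0) (1) [[3],[0]],
  k 23 0 1 2 4 3 (-1) (-1) (-1) (-1) (0) (1) [[1],[0]],
  k 35 3 0 4 1 2 (-1) (1) (2) (0) (0) (1) [[0],[1]],
  k 6 0 1 4 3 2 (-4) (1) (0) (1) (2) (0) [[0],[-4]]]⟩,
⟨[⟨1,0,-1,-3,-3⟩, ⟨0,1,2,2,1⟩], .br 5 [k 36 1 4 0 3 2 (1) (1) (0) (0) (0) (-1) [[1],[0]],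
  k 10 0 3 1 4 2 (1) (0) (0) (0) (1) (-1) [[-1],[0]],
  k 21 0 1 2 4 3 (3) (-1) (-2) (-5) (-3) (-3) [[0],[3]],
  k 36 1 4 0 3 2 (1) (1) (0) (0) (0) (-1) [[1],[0]],
  k 7 3 0 4 1 2 (1) (2) (3) (0) (0) (1) [[0],[-1]],
  z,
  k 120 0 3 2 1 4 (1) (2) (3) (4) (3) (0) [[0],[-1]],
  k 21 0 1 2 4 3 (-1) (-1) (-2) (-5) (-3) (-3) [[0],[-1]],
  k 123 0 3 2 1 4 (-1) (0) (-1) (-2) (-2) (-1) [[-1],[0]],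
  k 10 0 3 1 4 2 (-1) (0) (0) (0) (1) (-1) [[1],[0]],
  k 21 0 1 2 4 3 (2) (-1) (-2) (-5) (-3) (-3) [[0],[2]],
  k 10 0 3 1 4 2 (-1) (0) (0) (0) (1) (-1) [[1],[0]],
  k 7 3 0 4 1 2 (-1) (2) (3) (0) (0) (1) [[0],[1]],
  k 21 0 1 2 4 3 (1) (-1) (-2) (-5) (-3) (-3) [[0],[1]],
  k 36 1 4 0 3 2 (-1) (1) (0) (0) (0) (-1) [[-1],[0]],
  k 21 0 1 2 4 3 (4) (-1) (-2) (-5) (-3) (-3) [[0],[4]],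
  k 7 3 0 4 1 2 (-1) (2) (3) (0) (0) (1) [[0],[1]],
  k 21 0 1 2 4 3 (4) (-1) (-2) (-5) (-3) (-3) [[0],[4]],
  k 7 3 0 4 1 2 (2) (2) (3) (0) (0) (1) [[0],[-2]],
  k 95 4 1 3 2 0 (-1) (1) (-1) (0) (0) (0) [[-1],[0]],
  k 21 0 1 2 4 3 (1) (-1) (-2) (-5) (-3) (-3) [[0],[1]],
  k 126 0 1 2 3 4 (2) (0) (1) (2) (2) (1) [[1],[0]]]⟩,
⟨[⟨1,0,0,2,2⟩, ⟨0,1,0,1,0⟩], .br 2 [k 3 0 2 1 4 3 (2) (2) (3) (4) (2) (2) [[0],[-2]],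
  k 118 3 4 2 0 1 (1) (0) (1) (0) (1) (0) [[-1],[0]],
  z,
  k 3 0 2 1 4 3 (2) (2) (3) (4) (2) (2) [[0],[-2]],
  k 3 0 2 1 4 3 (2) (2) (3) (4) (2) (2) [[0],[-2]],
  k 118 4 2 3 0 1 (-1) (-1) (-1) (-1) (-1) (0) [[1],[0]],
  k 3 0 2 1 4 3 (3) (2) (3) (4) (2) (2) [[0],[-3]],
  k 3 0 2 1 4 3 (5) (2) (3) (4) (2) (2) [[0],[-5]],
  k 18 0 2 4 3 1 (1) (-1) (-1) (-3) (-2) (0) [[0],[-1]],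
  k 3 0 2 1 4 3 (3) (2) (3) (4) (2) (2) [[0],[-3]],
  k 18 1 2 3 4 0 (1) (-1) (0) (0) (0) (-1) [[-1],[0]],
  k 3 0 2 1 4 3 (3) (2) (3) (4) (2) (2) [[0],[-3]],
  k 3 0 2 1 4 3 (1) (2) (3) (4) (2) (2) [[0],[-1]],
  k 126 1 0 2 4 3 (-1) (0) (-1) (0) (-1) (0) [[-1],[0]],
  k 126 0 1 2 3 4 (1) (0) (1) (0) (1) (0) [[1],[0]],
  k 3 0 2 1 4 3 (1) (2) (3) (4) (2) (2) [[0],[-1]],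
  k 126 0 1 2 3 4 (1) (0) (1) (0) (1) (0) [[1],[0]],
  k 3 0 2 1 4 3 (1) (2) (3) (4) (2) (2) [[0],[-1]],
  k 126 1 0 2 4 3 (-1) (0) (-1) (0) (-1) (0) [[-1],[0]],
  k 8 0 3 2 1 4 (-1) (-1) (0) (-1) (-1) (-1) [[-1],[0]],
  k 8 1 4 2 0 3 (1) (1) (0) (1) (1) (1) [[1],[0]],
  k 3 0 2 1 4 3 (4) (2) (3) (4) (2) (2) [[0],[-4]]]⟩,
⟨[⟨1,0,0,2,2⟩, ⟨0,1,0,0,-1⟩], .br 1 [k 2 0 4 1 3 2 (-2) (0) (1) (-2) (0) (-2) [[0],[-2]],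
  z,
  k 126 0 1 2 3 4 (1) (0) (1) (0) (0) (-1) [[1],[0]],
  k 2 0 4 1 3 2 (-2) (0) (1) (-2) (0) (-2) [[0],[-2]],
  k 2 0 4 1 3 2 (-2) (0) (1) (-2) (0) (-2) [[0],[-2]],
  k 126 0 1 4 2 3 (-1) (0) (-1) (0) (-1) (0) [[-1],[0]],
  k 2 0 4 1 3 2 (-1) (0) (1) (-2) (0) (-2) [[0],[-1]],
  k 29 0 2 4 3 1 (1) (-1) (-1) (-3) (-2) (0) [[0],[-1]],
  k 2 0 4 1 3 2 (-3) (0) (1) (-2) (0) (-2) [[0],[-3]],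
  k 2 0 4 1 3 2 (-1) (0) (1) (-2) (0) (-2) [[0],[-1]],
  k 29 0 2 4 3 1 (-1) (-1) (-1) (-3) (-2) (0) [[0],[1]],
  k 2 0 4 1 3 2 (-1) (0) (1) (-2) (0) (-2) [[0],[-1]],
  k 2 0 4 1 3 2 (-3) (0) (1) (-2) (0) (-2) [[0],[-3]],
  k 107 3 0 1 4 2 (-1) (-3) (-1) (-3) (-1) (-1) [[0],[-1]],
  k 2 0 4 1 3 2 (1) (0) (1) (-2) (0) (-2) [[0],[1]],
  k 107 2 0 4 3 1 (1) (1) (0) (1) (1) (1) [[1],[0]],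
  k 2 0 4 1 3 2 (1) (0) (1) (-2) (0) (-2) [[0],[1]],
  k 107 2 0 4 3 1 (1) (1) (0) (1) (1) (1) [[1],[0]],
  k 107 3 0 1 4 2 (-1) (-3) (-1) (-3) (-1) (-1) [[0],[-1]],
  k 2 0 4 1 3 2 (-4) (0) (1) (-2) (0) (-2) [[0],[-4]],
  k 7 1 2 3 0 4 (1) (0) (-1) (0) (0) (1) [[1],[0]],
  k 7 0 3 2 1 4 (-1) (0) (1) (0) (0) (-1) [[-1],[0]]]⟩]

end Pool.Agent.Y734.M.PAIR
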