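import Pool.Agent.Y734.M.PAIR.Chk

/-!
# Project Y734/M, job PAIR: certificate number 3
-/

set_option autoImplicit false
set_option maxRecDepth 100000

namespace Pool.Agent.Y734.M.PAIR

/-- nodes -/
def A3 : List Nd := [
⟨[⟨1,1,0,0,0⟩, ⟨0,0,1,1,0⟩], .pI [k 1 0 1 2 3 4 (1) (1) (1) (0) (0) (0) [[0],[-1]],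
  k 1 1 0 3 4 2 (1) (0) (-1) (0) (-1) (0) [[-1],[0]],
  k 1 0 3 1 4 2 (1) (-1) (0) (-1) (0) (0) [[0],[-1]],
  k 5 4 1 2 3 0 (-1) (0) (0) (-1) (0) (-1) [[1],[0]],
  k 5 4 0 2 1 3 (-1) (-1) (-1) (-1) (-1) (0) [[0],[-1]],
  k 5 2 0 4 3 1 (1) (1) (1) (1) (1) (0) [[0],[1]]]⟩,
⟨[⟨1,0,0,1,0⟩, ⟨0,1,0,0,1⟩], .pII [k 1 0 1 2 3 4 (1) (1) (0) (0) (1) (0) [[0],[-1]],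
  k 1 0 2 3 1 4 (1) (1) (0) (0) (1) (0) [[1],[0]],
  k 1 0 1 3 2 4 (1) (1) (0) (0) (1) (0) [[0],[1]],
  k 6 0 2 1 3 4 (-1) (1) (0) (0) (1) (0) [[1],[0]],
  k 6 0 1 2 3 4 (-1) (1) (0) (0) (1) (0) [[0],[1]],
  k 6 0 1 3 2 4 (1) (1) (0) (0) (1) (0) [[0],[1]]]⟩,
⟨[⟨-1,-1,-1,-1,0⟩], .ray 0⟩,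
⟨[⟨-1,-1,0,-1,-1⟩], .ray 1⟩,
⟨[⟨-1,0,-1,-1,0⟩], .ray 2⟩,
⟨[⟨-2,-2,0,-1,-1⟩], .ray 3⟩,
⟨[⟨-1,-1,0,-1,1⟩], .ray 4⟩,
⟨[⟨-2,-2,-1,-2,0⟩], .ray 5⟩,
⟨[⟨-2,-1,0,-2,-1⟩], .ray 6⟩,
⟨[⟨0,2,1,-1,-3⟩], .bad 7⟩,
⟨[⟨0,2,3,1,-1⟩], .bad 7⟩,
⟨[⟨0,4,3,-1,-3⟩], .bad 7⟩,
⟨[⟨0,0,1,1,1⟩], .bad 21⟩,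
⟨[⟨0,2,-1,-3,-4⟩], .bad 7⟩,
⟨[⟨0,2,0,-2,-3⟩], .bad 13⟩,
⟨[⟨0,2,1,-1,-2⟩], .bad 7⟩,
⟨[⟨0,1,3,2,-2⟩], .bad 17⟩,
⟨[⟨0,1,3,2,-1⟩], .bad 17⟩,
⟨[⟨0,1,3,2,-3⟩], .bad 17⟩,
⟨[⟨0,0,1,1,2⟩], .bad 17⟩,
⟨[⟨0,1,3,2,2⟩], .bad 21⟩,
⟨[⟨0,1,0,-1,-4⟩], .bad 17⟩,
⟨[⟨0,2,5,3,2⟩], .bad 9⟩,
⟨[⟨0,3,8,5,4⟩], .bad 9⟩,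
⟨[⟨0,1,0,-1,-3⟩], .bad 17⟩,
⟨[⟨0,2,5,3,4⟩], .bad 9⟩,
⟨[⟨0,0,2,2,1⟩], .bad 21⟩,
⟨[⟨0,3,-1,3,1⟩], .bad 14⟩,
⟨[⟨0,2,-1,2,1⟩], .bad 14⟩,
⟨[⟨0,1,2,1,-1⟩], .bad 17⟩,
⟨[⟨0,2,1,2,0⟩], .bad 18⟩,
⟨[⟨0,1,3,4,2⟩], .bad 21⟩,
⟨[⟨0,2,0,-1,1⟩], .bad 13⟩,
⟨[⟨0,2,5,4,1⟩], .bad 14⟩,
⟨[⟨0,1,0,2,3⟩], .bad 8⟩,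
⟨[⟨0,0,1,3,2⟩], .bad 19⟩,
⟨[⟨0,1,3,5,-1⟩], .bad 17⟩,
⟨[⟨0,4,5,6,3⟩], .bad 8⟩,
⟨[⟨0,3,4,5,2⟩], .bad 18⟩,
⟨[⟨0,2,3,4,2⟩], .bad 18⟩,
⟨[⟨0,0,2,4,1⟩], .bad 19⟩,
⟨[⟨0,4,2,0,1⟩], .bad 9⟩,
⟨[⟨0,5,2,-1,1⟩], .bad 9⟩,
⟨[⟨0,2,3,4,0⟩], .bad 18⟩,
⟨[⟨0,2,-1,-2,0⟩], .bad 13⟩,
⟨[⟨3,1,-1,0,1⟩], .bad 3⟩,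
⟨[⟨6,2,3,5,2⟩], .bad 4⟩,
⟨[⟨3,1,-3,-2,1⟩], .bad 3⟩,
⟨[⟨3,1,2,3,1⟩], .bad 4⟩,
⟨[⟨6,2,-1,1,2⟩], .bad 3⟩,
⟨[⟨4,1,3,4,1⟩], .bad 4⟩,
⟨[⟨1,1,3,4,1⟩], .bad 11⟩,
⟨[⟨5,1,3,4,1⟩], .bad 4⟩,
⟨[⟨2,1,3,4,1⟩], .bad 4⟩,
⟨[⟨2,3,4,7,3⟩], .bad 16⟩,
⟨[⟨3,2,1,3,2⟩], .bad 14⟩,
⟨[⟨4,3,1,4,3⟩], .bad 6⟩,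
⟨[⟨4,2,1,3,2⟩], .bad 12⟩,
⟨[⟨3,2,-1,1,2⟩], .bad 11⟩,
⟨[⟨3,1,-2,-1,1⟩], .bad 11⟩,
⟨[⟨6,1,4,5,1⟩], .bad 4⟩,
⟨[⟨5,6,3,4,1⟩], .bad 5⟩,
⟨[⟨4,5,3,4,1⟩], .bad 5⟩,
⟨[⟨4,3,-3,-4,-1⟩], .bad 3⟩,
⟨[⟨3,4,3,4,1⟩], .bad 10⟩,
⟨[⟨2,3,2,3,1⟩], .bad 10⟩,
⟨[⟨1,-1,-4,-6,-2⟩], .bad 3⟩,
⟨[⟨2,3,-1,0,1⟩], .bad 3⟩,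
⟨[⟨2,3,-2,-1,1⟩], .bad 3⟩,
⟨[⟨2,3,6,7,1⟩], .bad 4⟩,
⟨[⟨4,3,2,1,-1⟩], .bad 5⟩,
⟨[⟨1,1,0,-2,-2⟩], .bad 15⟩,
⟨[⟨1,5,4,2,-2⟩], .bad 7⟩,
⟨[⟨4,1,-3,-1,2⟩], .bad 7⟩,
⟨[⟨1,2,1,-2,-3⟩], .bad 10⟩,
⟨[⟨1,-3,-4,-2,2⟩], .bad 7⟩,
⟨[⟨1,-2,-3,-2,1⟩], .bad 14⟩,
⟨[⟨2,1,-1,-4,-3⟩], .bad 1⟩,
⟨[⟨1,2,-2,0,2⟩], .bad 3⟩,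
⟨[⟨3,6,1,0,-1⟩], .bad 3⟩,
⟨[⟨1,2,3,7,4⟩], .bad 1⟩,
⟨[⟨1,2,5,7,2⟩], .bad 4⟩,
⟨[⟨1,2,-4,-2,2⟩], .bad 3⟩,
⟨[⟨1,2,4,6,2⟩], .bad 4⟩,
⟨[⟨1,2,6,3,-3⟩], .bad 4⟩,
⟨[⟨1,2,2,-1,-3⟩], .bad 2⟩,
⟨[⟨1,2,-3,-6,-3⟩], .bad 1⟩,
⟨[⟨1,0,-2,-4,-2⟩], .bad 19⟩,
⟨[⟨3,0,-4,-2,2⟩], .bad 3⟩,
⟨[⟨3,1,-3,-4,1⟩], .bad 3⟩,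
⟨[⟨3,1,5,4,1⟩], .bad 4⟩,
⟨[⟨3,1,4,3,1⟩], .bad 4⟩,
⟨[⟨4,2,0,-1,1⟩], .bad 11⟩,
⟨[⟨5,1,3,1,2⟩], .bad 4⟩,
⟨[⟨1,-3,5,3,2⟩], .bad 3⟩,
⟨[⟨5,-1,4,1,3⟩], .bad 4⟩,
⟨[⟨4,-2,2,-1,3⟩], .bad 12⟩,
⟨[⟨2,-4,-2,-5,3⟩], .bad 14⟩,
⟨[⟨3,4,0,2,1⟩], .bad 10⟩,
⟨[⟨4,2,5,6,3⟩], .bad 4⟩,
⟨[⟨2,2,-3,-2,1⟩], .bad 6⟩,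
⟨[⟨1,-3,-2,-1,5⟩], .bad 2⟩,
⟨[⟨3,5,4,3,-3⟩], .bad 2⟩,
⟨[⟨1,3,-1,-2,-3⟩], .bad 3⟩,
⟨[⟨4,6,-1,-2,-3⟩], .bad 3⟩,
⟨[⟨6,4,1,2,3⟩], .bad 3⟩,
⟨[⟨2,1,3,2,1⟩], .bad 4⟩,
⟨[⟨3,1,4,2,1⟩], .bad 4⟩,
⟨[⟨3,1,7,6,5⟩], .bad 4⟩,
⟨[⟨5,3,7,4,1⟩], .bad 4⟩,
⟨[⟨5,2,8,6,4⟩], .bad 2⟩,
⟨[⟨2,4,9,5,1⟩], .bad 2⟩,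
⟨[⟨2,4,5,1,-3⟩], .bad 2⟩,
⟨[⟨2,4,1,1,-3⟩], .bad 5⟩,
⟨[⟨1,2,3,-1,-3⟩], .bad 2⟩,
⟨[⟨3,6,8,4,-2⟩], .bad 2⟩,
⟨[⟨3,6,7,5,-1⟩], .bad 4⟩,
⟨[⟨2,4,3,5,1⟩], .bad 5⟩,
⟨[⟨2,4,6,5,1⟩], .bad 4⟩,
⟨[⟨3,5,7,6,1⟩], .bad 4⟩,
⟨[⟨5,7,9,8,1⟩], .bad 4⟩,
⟨[⟨2,-1,-4,-5,-4⟩], .bad 1⟩,
⟨[⟨3,-1,-5,-7,-6⟩], .bad 1⟩,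
⟨[⟨1,-3,-7,-5,-2⟩], .bad 4⟩,
⟨[⟨2,3,4,0,-3⟩], .bad 2⟩,
⟨[⟨1,-5,0,-3,2⟩], .bad 1⟩,
⟨[⟨1,4,0,2,-2⟩], .bad 5⟩]

end Pool.Agent.Y734.M.PAIR
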