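import Pool.Agent.Y734.M.PAIR.C0
import Pool.Agent.Y734.M.PAIR.C1
import Pool.Agent.Y734.M.PAIR.C2
import Pool.Agent.Y734.M.PAIR.C3

/-!
# Project Y734/M, job PAIR: the classification
-/

set_option autoImplicit false
set_option maxRecDepth 100000

namespace Pool.Agent.Y734.M.PAIR
open Pool.Agent.Y734.M

theorem chk3 : chk [] A3 = true := by decide +kernel

theorem chk2 : chk (A3 ++ []) A2 = true := by decide +kernel

theorem chk1 : chk (A2 ++ (A3 ++ [])) A1 = true := by decide +kernel

theorem chk0 : chk (A1 ++ (A2 ++ (A3 ++ []))) A0 = true := by decide +kernel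

theorem all0 : ∀ n ∈ A0 ++ (A1 ++ (A2 ++ (A3 ++ []))), PS n.B :=
  chk_spec _ (chk_spec _ (chk_spec _ (chk_spec [] (by simp) _ chk3) _ chk2) _ chk1) _ chk0

theorem pair : PairStmt := by
  apply ps_all
  exact all0 (A0.headD ⟨[], .bad 0⟩) (by
    apply List.mem_append_left
    exact List.mem_cons_self)

end Pool.Agent.Y734.M.PAIR
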