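import Pool.Agent.Y734.M.PAIR.Chk

/-!
# Project Y734/M, job PAIR: certificate number 0
-/

set_option autoImplicit false
set_option maxRecDepth 100000

namespace Pool.Agent.Y734.M.PAIR

/-- nodes -/
def A0 : List Nd := [
⟨[⟨1,0,0,0,0⟩, ⟨0,1,0,0,0⟩, ⟨0,0,1,0,0⟩, ⟨0,0,0,1,0⟩, ⟨0,0,0,0,1⟩], .br 0 [z,
  k 0 0 3 2 1 4 (-1) (1) (0) (0) (0) (0) [[0,-1,0,0],[-1,0,0,0],[0,0,0,0],[1,1,1,1],[0,0,0,-1]],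
  k 0 1 2 4 0 3 (-1) (-1) (-1) (-1) (0) (0) [[0,-1,0,0],[0,0,0,-1],[0,1,1,1],[-1,-1,-1,0],[0,0,0,0]],
  k 3 0 1 2 3 4 (-1) (0) (1) (0) (0) (0) [[-1,0,0,0],[0,0,0,0],[0,0,-1,0],[0,-1,0,-1],[0,1,0,0]],
  k 3 0 1 4 2 3 (-1) (-1) (-1) (-1) (0) (0) [[-1,0,0,0],[0,0,-1,0],[0,0,0,0],[0,0,1,1],[0,-1,-1,-1]],
  k 0 0 2 1 3 4 (-1) (1) (0) (0) (0) (0) [[-1,0,0,0],[0,0,0,0],[0,-1,0,0],[0,0,0,-1],[0,0,-1,0]],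
  k 0 0 1 3 4 2 (1) (1) (0) (0) (0) (0) [[0,0,0,0],[-1,-1,0,0],[1,0,0,0],[0,1,0,1],[-1,-1,-1,-1]],
  k 3 1 2 0 3 4 (1) (0) (1) (0) (0) (0) [[0,0,0,0],[-1,0,-1,-1],[0,1,0,1],[0,-1,0,0],[0,0,1,0]],
  k 3 0 3 1 4 2 (1) (0) (1) (0) (0) (0) [[0,0,0,0],[-1,0,-1,0],[1,0,0,0],[0,1,1,1],[-1,0,-1,-1]],
  k 2 0 1 2 3 4 (1) (1) (0) (0) (0) (0) [[0,0,0,0],[1,1,0,0],[1,0,1,0],[-1,0,0,1],[1,0,0,0]],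
  k 3 0 2 3 4 1 (1) (-1) (-1) (-1) (0) (0) [[0,0,0,0],[1,0,0,0],[-1,0,-1,0],[0,0,0,-1],[0,-1,0,0]],
  k 0 0 1 4 2 3 (1) (1) (0) (0) (0) (0) [[0,0,0,0],[0,1,0,0],[-1,-1,0,0],[0,-1,-1,-1],[1,1,1,0]],
  k 0 0 1 2 3 4 (-1) (1) (0) (0) (0) (0) [[0,0,0,0],[-1,0,0,0],[0,-1,0,0],[0,0,-1,0],[0,0,0,-1]],
  k 1 3 4 0 1 2 (1) (0) (0) (0) (1) (0) [[0,0,0,0],[1,0,1,2],[0,1,0,0],[-1,-1,-1,-1],[0,0,1,1]],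
  k 1 2 1 0 4 3 (1) (-1) (-1) (-1) (-1) (-1) [[0,0,0,0],[0,1,0,0],[-1,-2,-1,-2],[0,0,0,1],[0,1,1,1]],
  k 0 0 1 3 2 4 (1) (1) (0) (0) (0) (0) [[0,0,0,0],[0,1,0,0],[1,0,0,0],[0,0,1,0],[-1,-1,-1,-1]],
  k 0 0 1 2 4 3 (1) (1) (0) (0) (0) (0) [[0,0,0,0],[1,0,0,0],[-1,-1,0,0],[0,1,0,1],[1,1,1,0]],
  k 1 0 4 3 2 1 (1) (-1) (-1) (-1) (0) (0) [[0,0,0,0],[-1,-1,0,0],[0,1,0,0],[1,1,1,1],[-1,-2,-1,0]],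
  k 1 3 2 1 0 4 (1) (0) (0) (0) (1) (0) [[0,0,0,0],[0,0,0,1],[0,0,1,1],[1,0,0,0],[0,1,0,0]],
  k 0 1 2 3 0 4 (-1) (-1) (-1) (-1) (-1) (-1) [[0,-1,0,0],[0,0,0,-1],[0,0,-1,0],[0,0,0,0],[-1,0,0,0]],
  k 1 0 1 2 3 4 (-1) (0) (0) (1) (0) (0) [[-1,0,0,0],[0,-1,0,0],[0,0,0,0],[0,0,-1,-1],[0,0,1,0]],
  k 0 0 2 3 1 4 (-1) (1) (0) (0) (0) (0) [[0,-1,0,0],[0,0,0,0],[-1,0,0,0],[1,1,1,1],[0,0,-1,0]]]⟩,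
⟨[⟨0,1,0,0,0⟩, ⟨0,0,1,0,0⟩, ⟨0,0,0,1,0⟩, ⟨0,0,0,0,1⟩], .br 5 [k 8 0 1 2 3 4 (1) (0) (1) (0) (0) (0) [[0,0,0],[1,0,0],[0,1,0],[0,0,1]],
  k 3 0 1 2 3 4 (1) (0) (1) (0) (0) (0) [[0,0,0],[1,1,0],[-1,0,0],[0,0,1]],
  k 3 1 0 4 3 2 (1) (0) (1) (1) (1) (0) [[0,0,0],[0,0,1],[0,-1,-1],[1,2,0]],
  k 4 4 0 1 3 2 (1) (0) (0) (-1) (-1) (-1) [[1,1,0],[0,0,1],[0,0,0],[0,-1,-1]],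
  k 4 2 1 0 3 4 (1) (0) (1) (0) (0) (0) [[0,0,0],[1,0,0],[0,1,0],[0,0,1]],
  z,
  k 4 4 0 1 3 2 (1) (0) (0) (-1) (-1) (-1) [[1,1,0],[0,0,1],[0,0,0],[0,-1,-1]],
  k 9 1 0 3 4 2 (-1) (-1) (-1) (-1) (-1) (-1) [[-1,-1,-1],[0,0,0],[1,0,1],[-1,0,0]],
  k 9 0 1 2 3 4 (-1) (0) (0) (0) (0) (1) [[-1,0,0],[0,-1,0],[0,0,-1],[0,0,0]],
  k 7 0 1 2 3 4 (-1) (0) (0) (1) (0) (0) [[-1,0,0],[0,0,0],[0,-1,-1],[0,1,0]],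
  k 5 0 1 2 3 4 (1) (0) (1) (0) (0) (0) [[0,0,0],[1,1,0],[-1,0,1],[1,0,0]],
  k 4 2 1 0 3 4 (1) (0) (1) (0) (0) (0) [[0,0,0],[1,0,0],[0,1,0],[0,0,1]],
  k 8 0 1 2 3 4 (1) (0) (1) (0) (0) (0) [[0,0,0],[1,0,0],[0,1,0],[0,0,1]],
  k 4 0 4 2 3 1 (-1) (0) (1) (0) (0) (0) [[0,0,0],[0,-1,0],[-1,0,0],[1,1,1]],
  k 6 0 1 2 3 4 (1) (0) (1) (0) (0) (0) [[0,0,0],[2,1,0],[-1,0,0],[0,0,1]],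
  k 3 1 0 4 3 2 (1) (0) (1) (1) (1) (0) [[0,0,0],[0,0,1],[0,-1,-1],[1,2,0]],
  k 3 0 1 2 3 4 (1) (0) (1) (0) (0) (0) [[0,0,0],[1,1,0],[-1,0,0],[0,0,1]],
  k 6 1 0 4 3 2 (1) (0) (0) (-1) (-1) (-1) [[1,1,0],[0,0,1],[0,0,0],[0,-1,-2]],
  k 4 0 3 4 2 1 (-1) (1) (0) (0) (0) (0) [[0,-1,0],[0,0,0],[0,0,-1],[-1,-1,0]],
  k 4 0 1 2 3 4 (1) (0) (1) (0) (0) (0) [[0,0,0],[0,1,0],[1,0,0],[0,0,1]],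
  k 5 0 1 2 3 4 (1) (0) (1) (0) (0) (0) [[0,0,0],[1,1,0],[-1,0,1],[1,0,0]],
  k 4 1 0 4 3 2 (1) (0) (0) (-1) (-1) (-1) [[1,1,0],[0,0,1],[0,0,0],[0,1,0]]]⟩,
⟨[⟨1,0,0,0,0⟩, ⟨0,1,0,0,0⟩, ⟨0,0,1,0,-1⟩, ⟨0,0,0,1,1⟩], .br 9 [k 4 0 1 4 3 2 (-1) (1) (0) (0) (0) (0) [[0,0,0],[1,1,0],[0,-1,0],[0,1,1]],
  k 10 1 0 4 3 2 (-1) (1) (0) (0) (0) (0) [[0,0,0],[-1,-1,-1],[1,0,1],[-1,0,0]],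
  k 10 0 1 2 3 4 (-1) (1) (0) (0) (0) (0) [[0,0,0],[-1,-1,0],[-1,0,-1],[1,0,0]],
  k 11 1 0 4 3 2 (-1) (1) (0) (0) (0) (0) [[0,0,0],[0,-1,-1],[-1,0,0],[0,0,1]],
  k 11 0 1 2 3 4 (-1) (1) (0) (0) (0) (0) [[0,0,0],[-1,-1,0],[1,0,0],[0,0,-1]],
  k 6 0 1 2 3 4 (-1) (1) (0) (0) (0) (0) [[0,0,0],[-1,0,0],[0,-1,0],[0,0,-1]],
  k 2 3 1 4 0 2 (1) (-1) (0) (1) (0) (0) [[0,0,1],[0,-1,-1],[0,0,0],[-1,-1,0]],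
  k 3 4 0 3 1 2 (-1) (-1) (-1) (-1) (-2) (-1) [[0,0,-1],[-1,-1,0],[0,0,0],[1,0,0]],
  k 3 4 0 3 1 2 (1) (-1) (-1) (-1) (-2) (-1) [[0,0,1],[1,1,0],[0,0,0],[-1,0,0]],
  z,
  k 13 0 1 2 3 4 (1) (0) (1) (0) (0) (0) [[1,0,0],[0,0,0],[0,1,0],[0,0,1]],
  k 2 3 0 2 1 4 (1) (-1) (-1) (-1) (-1) (-1) [[0,0,1],[0,0,0],[-1,-2,-1],[1,1,0]],
  k 12 0 1 2 3 4 (1) (0) (1) (0) (0) (0) [[1,0,0],[0,0,0],[0,1,0],[0,0,1]],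
  k 2 3 0 2 1 4 (-1) (-1) (-1) (-1) (-1) (-1) [[0,0,-1],[0,0,0],[1,2,1],[-1,-1,0]],
  k 5 2 1 3 4 0 (1) (-1) (-1) (-1) (0) (0) [[1,1,0],[0,0,0],[-1,0,2],[1,0,-1]],
  k 9 0 1 2 3 4 (1) (0) (1) (0) (0) (0) [[1,0,0],[0,0,0],[0,-1,1],[0,1,0]],
  k 9 1 0 4 3 2 (1) (0) (1) (1) (1) (0) [[1,0,0],[0,0,0],[0,1,0],[0,-1,-1]],
  k 5 4 0 3 2 1 (-1) (1) (0) (1) (1) (1) [[-1,-1,0],[0,0,-1],[1,0,0],[0,0,0]],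
  k 2 3 1 4 0 2 (-1) (-1) (0) (1) (0) (0) [[0,0,-1],[0,1,1],[0,0,0],[1,1,0]],
  k 9 4 1 3 0 2 (-1) (0) (0) (0) (0) (1) [[0,0,0],[0,0,1],[-1,-1,-1],[0,1,0]],
  k 4 0 1 4 3 2 (-1) (1) (0) (0) (0) (0) [[0,0,0],[1,1,0],[0,-1,0],[0,1,1]],
  k 9 2 0 3 1 4 (-1) (0) (0) (0) (0) (1) [[0,0,0],[-1,0,0],[1,1,1],[0,-1,0]]]⟩,
⟨[⟨1,0,0,0,1⟩, ⟨0,1,0,0,-1⟩, ⟨0,0,1,0,-1⟩, ⟨0,0,0,1,1⟩], .br 1 [k 16 0 3 1 4 2 (1) (2) (1) (1) (1) (1) [[-1,0,-1],[0,0,1],[0,0,0],[1,1,1]],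
  z,
  k 13 0 1 2 3 4 (-2) (2) (0) (0) (0) (2) [[0,0,0],[-1,-1,0],[-2,0,-2],[2,0,0]],
  k 3 1 2 0 4 3 (-1) (-1) (0) (-1) (0) (0) [[0,0,0],[0,0,1],[-1,0,0],[0,-1,-1]],
  k 3 1 4 3 0 2 (-1) (1) (1) (1) (0) (1) [[-1,-1,0],[1,1,1],[1,0,-1],[0,0,0]],
  k 13 1 3 0 2 4 (-2) (-2) (0) (0) (2) (0) [[-1,-1,0],[0,0,0],[3,1,2],[-2,0,0]],
  k 13 1 4 2 0 3 (-2) (0) (-2) (0) (0) (2) [[1,1,0],[-1,-1,-2],[-1,1,0],[0,0,0]],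
  k 3 0 1 4 3 2 (1) (1) (0) (0) (0) (1) [[0,0,0],[-1,-1,0],[0,1,0],[0,-1,-1]],
  k 16 0 3 1 4 2 (2) (2) (1) (1) (1) (1) [[-2,0,-2],[0,0,2],[0,0,0],[2,2,2]],
  k 16 0 3 1 4 2 (1) (2) (1) (1) (1) (1) [[-1,0,-1],[0,0,1],[0,0,0],[1,1,1]],
  k 3 3 1 0 2 4 (1) (-1) (0) (0) (1) (0) [[-1,-1,-1],[0,0,0],[1,0,-1],[0,1,1]],
  k 13 2 1 0 4 3 (2) (-2) (0) (0) (0) (-2) [[0,0,0],[0,0,-2],[1,-1,0],[-2,0,0]],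
  k 3 0 3 2 4 1 (-1) (-1) (0) (0) (1) (0) [[0,0,0],[0,1,1],[1,1,0],[0,0,1]],
  k 15 0 1 2 3 4 (-1) (0) (1) (0) (0) (-1) [[-1,0,0],[0,0,0],[0,-2,-1],[0,1,0]],
  k 16 0 1 2 3 4 (1) (1) (0) (0) (0) (1) [[0,0,0],[0,1,0],[1,0,0],[0,0,1]],
  k 14 0 1 2 3 4 (1) (0) (1) (0) (0) (-1) [[1,0,0],[0,0,0],[0,-1,1],[0,1,0]],
  k 3 2 4 0 3 1 (1) (1) (0) (0) (-1) (0) [[0,0,0],[1,1,1],[0,1,2],[0,0,-1]],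
  k 17 2 1 0 4 3 (-1) (-1) (0) (0) (0) (-1) [[0,0,0],[1,0,1],[2,1,0],[-1,0,0]],
  k 17 0 1 2 3 4 (1) (1) (0) (0) (0) (1) [[0,0,0],[1,1,0],[0,0,1],[1,0,0]],
  k 14 2 1 0 4 3 (1) (1) (-1) (0) (-1) (1) [[-1,0,0],[0,0,-1],[0,0,0],[1,-1,0]],
  k 16 1 2 0 3 4 (-1) (0) (1) (1) (0) (0) [[0,0,0],[1,0,1],[0,-1,-1],[0,1,0]],
  k 3 4 3 0 1 2 (-1) (1) (0) (1) (0) (0) [[0,0,-1],[0,0,0],[1,0,1],[-1,-1,-1]]]⟩,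
⟨[⟨1,0,0,0,0⟩, ⟨0,1,0,0,-1⟩, ⟨0,0,1,0,0⟩, ⟨0,0,0,1,1⟩], .br 13 [k 0 1 0 2 3 4 (-1) (1) (0) (0) (0) (0) [[0,0,0],[1,2,1],[0,0,-1],[0,-1,0]],
  k 7 4 3 0 1 2 (-1) (0) (0) (0) (1) (0) [[0,0,0],[-1,0,-1],[1,1,1],[0,-1,-1]],
  k 7 0 3 4 1 2 (-1) (0) (0) (1) (0) (0) [[0,0,0],[1,1,-1],[-1,0,0],[0,-1,0]],
  k 0 1 0 2 3 4 (-1) (1) (0) (0) (0) (0) [[0,0,0],[1,2,1],[0,0,-1],[0,-1,0]],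
  k 7 4 1 0 3 2 (-1) (-1) (-1) (-1) (-1) (-1) [[0,0,0],[0,1,0],[-1,-1,-1],[0,0,1]],
  k 1 0 4 2 3 1 (-1) (-1) (-1) (-1) (0) (0) [[0,0,0],[-1,-1,-1],[0,-1,0],[0,1,1]],
  k 1 4 0 2 3 1 (1) (-1) (-1) (0) (0) (0) [[1,1,0],[0,0,0],[0,0,1],[0,-1,-1]],
  k 1 0 4 2 1 3 (-1) (-1) (-1) (-1) (0) (0) [[0,-1,0],[-1,-1,-1],[0,0,0],[1,1,0]],
  k 1 4 0 2 1 3 (1) (-1) (-1) (0) (0) (0) [[0,0,1],[0,0,0],[1,1,0],[-1,0,0]],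
  k 0 3 0 2 1 4 (1) (-1) (-1) (-2) (-1) (-1) [[0,0,1],[0,0,0],[-1,-2,-1],[1,1,0]],
  k 7 0 1 4 3 2 (-1) (0) (0) (1) (0) (0) [[-1,0,0],[1,1,-1],[0,0,0],[0,0,1]],
  k 0 3 0 2 1 4 (1) (-1) (-1) (-2) (-1) (-1) [[0,0,1],[0,0,0],[-1,-2,-1],[1,1,0]],
  k 19 0 1 2 3 4 (1) (0) (1) (0) (0) (-1) [[1,0,0],[0,0,0],[0,1,0],[0,0,1]],
  z,
  k 19 0 3 2 1 4 (1) (0) (1) (0) (0) (-1) [[0,1,0],[0,0,0],[1,0,0],[-1,-1,-1]],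
  k 17 0 1 2 3 4 (-1) (0) (0) (0) (1) (1) [[-1,0,0],[0,-1,0],[0,0,-1],[0,0,0]],
  k 18 0 1 2 3 4 (1) (0) (1) (0) (0) (-1) [[1,0,0],[0,0,0],[0,1,1],[0,-1,0]],
  k 17 0 1 2 3 4 (-1) (0) (0) (0) (1) (1) [[-1,0,0],[0,-1,0],[0,0,-1],[0,0,0]],
  k 21 0 1 2 3 4 (-1) (0) (0) (1) (0) (0) [[-1,0,0],[0,-1,0],[0,0,0],[0,0,-1]],
  k 18 0 3 2 1 4 (-1) (0) (0) (1) (0) (0) [[0,0,0],[0,-1,-1],[-1,0,0],[1,1,2]],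
  k 20 0 1 2 3 4 (-1) (1) (0) (0) (0) (0) [[0,0,0],[-2,-1,0],[1,0,0],[0,0,-1]],
  k 21 0 3 1 4 2 (-1) (0) (1) (0) (0) (0) [[0,0,0],[0,0,-1],[-1,0,0],[1,-1,0]]]⟩,
⟨[⟨0,1,0,-1,0⟩, ⟨0,0,1,1,0⟩, ⟨0,0,0,0,1⟩], .br 19 [k 21 0 2 4 1 3 (-1) (1) (-1) (-1) (-1) (0) [[0,0],[1,1],[0,1]],
  k 22 0 4 2 3 1 (1) (0) (0) (1) (1) (0) [[1,2],[0,0],[0,-1]],
  k 21 0 1 2 3 4 (-1) (0) (1) (0) (-1) (0) [[0,0],[-1,-1],[1,0]],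
  k 26 0 1 2 3 4 (-1) (0) (0) (0) (0) (1) [[-1,0],[0,-1],[0,0]],
  k 27 0 1 2 3 4 (-1) (0) (1) (0) (-1) (0) [[0,0],[-1,0],[0,-1]],
  k 22 0 4 2 3 1 (1) (0) (0) (1) (1) (0) [[1,2],[0,0],[0,-1]],
  k 26 0 1 2 3 4 (-1) (0) (0) (0) (0) (1) [[-1,0],[0,-1],[0,0]],
  k 24 0 1 2 3 4 (1) (0) (0) (1) (1) (0) [[1,0],[0,0],[0,1]],
  k 22 0 1 2 3 4 (1) (0) (0) (1) (1) (0) [[1,2],[0,0],[0,1]],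
  k 24 0 4 2 3 1 (1) (0) (0) (1) (1) (0) [[1,0],[0,0],[0,-1]],
  k 22 0 1 2 3 4 (1) (0) (0) (1) (1) (0) [[1,2],[0,0],[0,1]],
  k 27 0 1 2 3 4 (-1) (0) (1) (0) (-1) (0) [[0,0],[-1,0],[0,-1]],
  k 21 0 2 4 1 3 (-1) (1) (-1) (-1) (-1) (0) [[0,0],[1,1],[0,1]],
  k 25 0 1 2 3 4 (-1) (0) (0) (0) (0) (1) [[-1,0],[0,-1],[0,0]],
  k 27 0 1 2 3 4 (-2) (0) (1) (0) (-1) (0) [[0,0],[-2,0],[0,-2]],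
  k 21 0 1 2 3 4 (-1) (0) (1) (0) (-1) (0) [[0,0],[-1,-1],[1,0]],
  k 22 0 4 2 3 1 (1) (0) (0) (1) (1) (0) [[1,2],[0,0],[0,-1]],
  k 23 0 1 2 3 4 (2) (0) (0) (1) (1) (0) [[1,3],[0,0],[0,2]],
  k 27 0 1 2 3 4 (-2) (0) (1) (0) (-1) (0) [[0,0],[-2,0],[0,-2]],
  z,
  k 22 0 1 2 3 4 (1) (0) (0) (1) (1) (0) [[1,2],[0,0],[0,1]],
  k 23 0 4 2 3 1 (2) (0) (0) (1) (1) (0) [[1,3],[0,0],[0,-2]]]⟩,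
⟨[⟨0,1,0,1,0⟩, ⟨0,0,1,0,0⟩, ⟨0,0,0,0,1⟩], .br 9 [k 27 0 1 2 3 4 (1) (0) (0) (1) (0) (0) [[1,0],[0,0],[0,-1]],
  k 28 4 3 2 1 0 (1) (0) (-1) (0) (-1) (0) [[0,0],[1,1],[1,0]],
  k 20 2 0 4 1 3 (1) (0) (1) (1) (1) (0) [[-1,-1],[0,0],[0,-1]],
  k 20 2 0 4 1 3 (1) (0) (1) (1) (1) (0) [[-1,-1],[0,0],[0,-1]],
  k 29 0 1 2 3 4 (1) (0) (0) (0) (0) (1) [[1,0],[0,1],[0,0]],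
  k 28 0 1 2 3 4 (-1) (0) (1) (0) (1) (0) [[0,0],[-1,-1],[-1,0]],
  k 20 2 0 4 1 3 (1) (0) (1) (1) (1) (0) [[-1,-1],[0,0],[0,-1]],
  k 29 0 1 2 3 4 (1) (0) (0) (0) (0) (1) [[1,0],[0,1],[0,0]],
  k 26 0 3 2 1 4 (-1) (-1) (0) (-1) (-1) (-1) [[0,0],[1,1],[0,-1]],
  z,
  k 26 2 0 4 3 1 (1) (1) (0) (1) (0) (0) [[0,0],[0,1],[-1,-1]],
  k 29 0 1 2 3 4 (1) (0) (0) (0) (0) (1) [[1,0],[0,1],[0,0]],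
  k 27 0 1 2 3 4 (1) (0) (0) (1) (0) (0) [[1,0],[0,0],[0,-1]],
  k 26 0 3 2 1 4 (-1) (-1) (0) (-1) (-1) (-1) [[0,0],[1,1],[0,-1]],
  k 20 3 0 2 4 1 (1) (-1) (0) (-1) (-1) (-1) [[0,0],[0,-1],[-1,0]],
  k 20 2 0 4 1 3 (1) (0) (1) (1) (1) (0) [[-1,-1],[0,0],[0,-1]],
  k 28 4 3 2 1 0 (1) (0) (-1) (0) (-1) (0) [[0,0],[1,1],[1,0]],
  k 97 1 2 0 3 4 (1) (0) (0) (0) (1) (0) [[-1,-1],[0,0],[0,1]],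
  k 20 1 4 2 0 3 (-1) (1) (0) (1) (1) (1) [[0,0],[0,1],[1,0]],
  k 28 0 1 2 3 4 (-1) (0) (1) (0) (1) (0) [[0,0],[-1,-1],[-1,0]],
  k 26 2 0 4 3 1 (1) (1) (0) (1) (0) (0) [[0,0],[0,1],[-1,-1]],
  k 27 0 1 2 3 4 (1) (0) (0) (1) (0) (0) [[1,0],[0,0],[0,-1]]]⟩,
⟨[⟨0,1,0,0,1⟩, ⟨0,0,1,0,-1⟩, ⟨0,0,0,1,1⟩], .br 9 [k 33 0 1 2 3 4 (2) (0) (1) (0) (0) (1) [[0,0],[2,0],[0,2]],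
  k 29 1 0 4 3 2 (-1) (0) (0) (-1) (0) (1) [[-1,0],[0,0],[0,1]],
  k 29 0 1 2 3 4 (1) (0) (1) (0) (0) (1) [[0,0],[-1,1],[1,0]],
  k 30 0 1 2 3 4 (1) (0) (0) (1) (0) (-1) [[1,0],[0,0],[0,1]],
  k 30 1 0 4 3 2 (-1) (0) (0) (-1) (0) (1) [[-1,-1],[0,0],[0,1]],
  k 33 0 1 2 3 4 (1) (0) (1) (0) (0) (1) [[0,0],[1,0],[0,1]],
  k 30 0 1 2 3 4 (1) (0) (0) (1) (0) (-1) [[1,0],[0,0],[0,1]],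
  k 31 0 1 2 3 4 (1) (0) (1) (0) (0) (1) [[0,0],[1,1],[-1,0]],
  k 31 1 0 4 3 2 (1) (0) (0) (-1) (0) (1) [[1,2],[0,0],[0,-1]],
  z,
  k 33 0 1 2 3 4 (1) (0) (1) (0) (0) (1) [[0,0],[1,0],[0,1]],
  k 30 1 0 4 3 2 (-1) (0) (0) (-1) (0) (1) [[-1,-1],[0,0],[0,1]],
  k 33 0 1 2 3 4 (2) (0) (1) (0) (0) (1) [[0,0],[2,0],[0,2]],
  k 96 0 1 4 3 2 (-1) (-1) (-1) (-1) (0) (1) [[0,0],[1,0],[0,1]],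
  k 26 1 3 0 4 2 (1) (1) (1) (1) (1) (0) [[-2,-1],[1,1],[0,0]],
  k 29 0 1 2 3 4 (1) (0) (1) (0) (0) (1) [[0,0],[-1,1],[1,0]],
  k 29 1 0 4 3 2 (-1) (0) (0) (-1) (0) (1) [[-1,0],[0,0],[0,1]],
  k 26 0 3 1 2 4 (-1) (-1) (-1) (0) (-1) (-1) [[0,0],[1,-1],[0,1]],
  k 96 0 1 4 3 2 (1) (-1) (-1) (-1) (0) (1) [[0,0],[-1,0],[0,-1]],
  k 32 0 1 2 3 4 (-1) (0) (0) (0) (1) (1) [[-1,0],[0,-1],[0,0]],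
  k 33 0 1 2 3 4 (1) (0) (1) (0) (0) (1) [[0,0],[1,0],[0,1]],
  k 32 1 0 4 3 2 (1) (0) (1) (2) (1) (0) [[0,0],[0,-1],[-1,-2]]]⟩,
⟨[⟨0,1,0,-1,0⟩, ⟨0,0,1,2,0⟩, ⟨0,0,0,0,1⟩], .br 7 [k 21 2 1 0 3 4 (-1) (0) (0) (2) (1) (0) [[-1,0],[0,0],[0,-1]],
  k 37 0 1 2 3 4 (1) (0) (1) (0) (-1) (0) [[0,0],[1,0],[0,1]],
  k 34 0 1 2 3 4 (-1) (0) (0) (1) (2) (0) [[-1,-2],[0,0],[0,1]],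
  k 25 0 3 1 2 4 (1) (1) (0) (0) (0) (2) [[0,1],[0,0],[-1,-1]],
  k 24 0 3 2 1 4 (2) (1) (2) (1) (1) (1) [[0,0],[-2,-2],[0,2]],
  k 24 0 3 2 1 4 (1) (1) (2) (1) (1) (1) [[0,0],[-1,-1],[0,1]],
  k 25 0 3 1 2 4 (1) (1) (0) (0) (0) (2) [[0,1],[0,0],[-1,-1]],
  z,
  k 35 0 1 2 3 4 (1) (0) (1) (0) (-1) (0) [[0,0],[1,1],[1,0]],
  k 39 0 1 2 3 4 (-1) (0) (0) (0) (0) (1) [[-1,0],[0,-1],[0,0]],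
  k 36 0 1 2 3 4 (1) (0) (1) (0) (-1) (0) [[0,0],[0,1],[1,0]],
  k 24 0 3 2 1 4 (2) (1) (2) (1) (1) (1) [[0,0],[-2,-2],[0,2]],
  k 21 2 1 0 3 4 (-1) (0) (0) (2) (1) (0) [[-1,0],[0,0],[0,-1]],
  k 26 2 4 0 3 1 (-1) (0) (1) (-1) (0) (0) [[0,0],[-1,-1],[1,0]],
  k 24 0 3 2 1 4 (1) (1) (2) (1) (1) (1) [[0,0],[-1,-1],[0,1]],
  k 34 0 1 2 3 4 (-1) (0) (0) (1) (2) (0) [[-1,-2],[0,0],[0,1]],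
  k 37 0 1 2 3 4 (1) (0) (1) (0) (-1) (0) [[0,0],[1,0],[0,1]],
  k 38 0 1 2 3 4 (1) (0) (0) (1) (2) (0) [[1,0],[0,0],[0,1]],
  k 33 0 1 2 3 4 (1) (0) (1) (0) (-1) (0) [[0,0],[1,0],[0,1]],
  k 24 0 3 2 1 4 (3) (1) (2) (1) (1) (1) [[0,0],[-3,-3],[0,3]],
  k 36 0 1 2 3 4 (1) (0) (1) (0) (-1) (0) [[0,0],[0,1],[1,0]],
  k 26 0 3 4 2 1 (1) (1) (0) (0) (0) (2) [[0,1],[0,0],[1,1]]]⟩,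
⟨[⟨0,1,0,0,0⟩, ⟨0,0,1,0,-1⟩, ⟨0,0,0,1,1⟩], .br 7 [k 40 0 1 2 3 4 (1) (0) (1) (0) (0) (0) [[0,0],[-1,1],[1,0]],
  k 31 0 1 2 3 4 (1) (0) (1) (0) (0) (0) [[0,0],[1,0],[0,1]],
  k 39 0 1 2 3 4 (1) (0) (1) (0) (0) (0) [[0,0],[-1,1],[1,0]],
  k 25 4 2 1 3 0 (-1) (0) (0) (0) (1) (1) [[-1,-1],[0,1],[0,0]],
  k 25 0 1 2 3 4 (1) (0) (1) (0) (0) (0) [[0,0],[0,1],[1,0]],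
  k 26 0 1 3 2 4 (1) (1) (2) (1) (1) (1) [[0,1],[0,0],[1,0]],
  k 25 4 2 1 3 0 (-1) (0) (0) (0) (1) (1) [[-1,-1],[0,1],[0,0]],
  z,
  k 26 0 1 3 2 4 (2) (1) (2) (1) (1) (1) [[0,2],[0,0],[2,0]],
  k 26 0 1 3 2 4 (1) (1) (2) (1) (1) (1) [[0,1],[0,0],[1,0]],
  k 40 0 1 2 3 4 (1) (0) (1) (0) (0) (0) [[0,0],[-1,1],[1,0]],
  k 25 0 1 2 3 4 (1) (0) (1) (0) (0) (0) [[0,0],[0,1],[1,0]],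
  k 40 0 1 2 3 4 (1) (0) (1) (0) (0) (0) [[0,0],[-1,1],[1,0]],
  k 25 2 4 0 3 1 (-1) (0) (1) (0) (0) (0) [[0,0],[-2,-1],[1,0]],
  k 17 3 0 2 1 4 (1) (-1) (-1) (-1) (-1) (-1) [[0,0],[-1,-2],[1,1]],
  k 39 0 1 2 3 4 (1) (0) (1) (0) (0) (0) [[0,0],[-1,1],[1,0]],
  k 31 0 1 2 3 4 (1) (0) (1) (0) (0) (0) [[0,0],[1,0],[0,1]],
  k 34 1 2 4 3 0 (-2) (0) (0) (1) (0) (1) [[-2,-2],[0,1],[0,0]],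
  k 25 1 0 4 3 2 (-1) (0) (0) (0) (-1) (-1) [[-1,-1],[0,1],[0,0]],
  k 34 2 1 0 3 4 (1) (0) (1) (0) (0) (0) [[0,0],[-1,0],[2,1]],
  k 40 0 1 2 3 4 (1) (0) (1) (0) (0) (0) [[0,0],[-1,1],[1,0]],
  k 17 3 1 4 0 2 (1) (-1) (0) (1) (0) (0) [[0,-1],[0,0],[-1,-1]]]⟩,
⟨[⟨0,0,1,0,0⟩, ⟨0,0,0,1,0⟩, ⟨0,0,0,0,1⟩], .br 14 [k 35 0 1 2 3 4 (-1) (0) (0) (0) (1) (0) [[-1,0],[0,0],[0,-1]],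
  k 22 0 1 4 3 2 (1) (0) (0) (1) (0) (0) [[0,0],[-1,-1],[0,1]],
  k 35 0 4 1 3 2 (-1) (0) (0) (-1) (-1) (-1) [[1,2],[0,0],[-1,-1]],
  k 35 0 2 1 3 4 (-1) (0) (0) (0) (1) (0) [[-1,0],[0,-1],[0,0]],
  k 22 0 1 2 3 4 (1) (0) (0) (1) (0) (0) [[0,0],[1,0],[0,1]],
  k 35 0 1 2 3 4 (-1) (0) (0) (0) (1) (0) [[-1,0],[0,0],[0,-1]],
  k 35 0 2 1 3 4 (-1) (0) (0) (0) (1) (0) [[-1,0],[0,-1],[0,0]],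
  k 22 0 1 4 3 2 (1) (0) (0) (1) (0) (0) [[0,0],[-1,-1],[0,1]],
  k 35 0 4 1 3 2 (-1) (0) (0) (-1) (-1) (-1) [[1,2],[0,0],[-1,-1]],
  k 22 0 2 1 3 4 (1) (0) (0) (1) (0) (0) [[0,0],[0,1],[1,0]],
  k 22 0 2 1 3 4 (1) (0) (0) (1) (0) (0) [[0,0],[0,1],[1,0]],
  k 22 0 1 2 3 4 (1) (0) (0) (1) (0) (0) [[0,0],[1,0],[0,1]],
  k 35 0 1 2 3 4 (-1) (0) (0) (0) (1) (0) [[-1,0],[0,0],[0,-1]],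
  k 35 0 2 1 3 4 (-1) (0) (0) (0) (1) (0) [[-1,0],[0,-1],[0,0]],
  z,
  k 35 0 4 1 3 2 (-1) (0) (0) (-1) (-1) (-1) [[1,2],[0,0],[-1,-1]],
  k 22 0 1 4 3 2 (1) (0) (0) (1) (0) (0) [[0,0],[-1,-1],[0,1]],
  k 22 0 2 1 3 4 (2) (0) (0) (1) (0) (0) [[0,0],[0,2],[2,0]],
  k 22 0 1 2 3 4 (1) (0) (0) (1) (0) (0) [[0,0],[1,0],[0,1]],
  k 22 0 1 2 3 4 (2) (0) (0) (1) (0) (0) [[0,0],[2,0],[0,2]],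
  k 22 0 2 1 3 4 (1) (0) (0) (1) (0) (0) [[0,0],[0,1],[1,0]],
  k 22 0 1 4 3 2 (2) (0) (0) (1) (0) (0) [[0,0],[-2,-2],[0,2]]]⟩,
⟨[⟨0,1,0,0,0⟩, ⟨0,0,1,0,0⟩, ⟨0,0,0,1,0⟩], .br 18 [k 39 2 1 0 3 4 (1) (0) (1) (0) (0) (0) [[0,0],[-1,0],[0,1]],
  k 39 0 1 2 3 4 (1) (0) (1) (0) (0) (0) [[0,0],[0,1],[-1,0]],
  k 39 2 1 0 3 4 (1) (0) (1) (0) (0) (0) [[0,0],[-1,0],[0,1]],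
  k 39 0 1 3 2 4 (1) (0) (1) (0) (0) (0) [[0,1],[0,0],[-1,0]],
  k 21 1 0 4 3 2 (1) (0) (1) (1) (1) (0) [[0,0],[0,1],[-1,-1]],
  k 21 1 0 4 2 3 (1) (0) (1) (1) (1) (0) [[0,1],[0,0],[-1,-1]],
  k 39 0 1 3 2 4 (1) (0) (1) (0) (0) (0) [[0,1],[0,0],[-1,0]],
  k 21 1 2 4 0 3 (1) (0) (1) (1) (1) (0) [[0,1],[-1,-1],[0,0]],
  k 21 1 0 4 2 3 (1) (0) (1) (1) (1) (0) [[0,1],[0,0],[-1,-1]],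
  k 21 1 2 4 0 3 (1) (0) (1) (1) (1) (0) [[0,1],[-1,-1],[0,0]],
  k 39 0 1 2 3 4 (1) (0) (1) (0) (0) (0) [[0,0],[0,1],[-1,0]],
  k 21 1 0 4 3 2 (1) (0) (1) (1) (1) (0) [[0,0],[0,1],[-1,-1]],
  k 39 2 1 0 3 4 (1) (0) (1) (0) (0) (0) [[0,0],[-1,0],[0,1]],
  k 27 0 1 3 2 4 (-1) (0) (0) (1) (0) (0) [[0,0],[-1,-1],[0,-1]],
  k 27 0 1 2 3 4 (1) (0) (1) (0) (0) (0) [[0,0],[1,1],[-1,0]],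
  k 39 2 1 0 3 4 (1) (0) (1) (0) (0) (0) [[0,0],[-1,0],[0,1]],
  k 39 0 1 2 3 4 (1) (0) (1) (0) (0) (0) [[0,0],[0,1],[-1,0]],
  k 39 0 1 3 2 4 (1) (0) (1) (0) (0) (0) [[0,1],[0,0],[-1,0]],
  z,
  k 27 2 1 0 3 4 (1) (0) (1) (0) (0) (0) [[0,0],[-1,0],[1,1]],
  k 39 0 1 2 3 4 (1) (0) (1) (0) (0) (0) [[0,0],[0,1],[-1,0]],
  k 39 0 1 3 2 4 (1) (0) (1) (0) (0) (0) [[0,1],[0,0],[-1,0]]]⟩,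
⟨[⟨1,0,0,0,0⟩, ⟨0,1,0,1,1⟩, ⟨0,0,1,1,0⟩], .br 8 [k 43 0 1 2 3 4 (-1) (1) (0) (0) (0) (0) [[0,0],[-1,0],[0,-1]],
  k 39 0 1 2 3 4 (-1) (1) (0) (0) (0) (0) [[0,0],[-1,0],[0,-1]],
  k 25 1 0 2 3 4 (-1) (1) (0) (0) (0) (0) [[0,0],[1,0],[0,-1]],
  k 42 0 1 2 3 4 (-1) (1) (0) (0) (0) (0) [[0,0],[-1,-1],[-1,0]],
  k 41 0 1 2 3 4 (-1) (1) (0) (0) (0) (0) [[0,0],[-2,-1],[1,0]],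
  k 25 1 0 2 3 4 (-1) (1) (0) (0) (0) (0) [[0,0],[1,0],[0,-1]],
  k 17 2 1 4 0 3 (1) (-1) (0) (1) (1) (0) [[0,1],[0,0],[-1,-1]],
  k 14 3 4 2 0 1 (2) (-1) (0) (-1) (1) (0) [[0,-2],[0,0],[2,2]],
  z,
  k 14 3 4 2 0 1 (1) (-1) (0) (-1) (1) (0) [[0,-1],[0,0],[1,1]],
  k 14 3 4 2 0 1 (2) (-1) (0) (-1) (1) (0) [[0,-2],[0,0],[2,2]],
  k 31 2 1 3 4 0 (-1) (1) (1) (1) (0) (1) [[-1,-1],[-1,0],[0,0]],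
  k 25 1 0 2 3 4 (-2) (1) (0) (0) (0) (0) [[0,0],[2,0],[0,-2]],
  k 15 3 2 4 0 1 (1) (1) (0) (1) (0) (0) [[0,-1],[-1,-1],[0,0]],
  k 40 0 1 2 3 4 (-1) (0) (0) (1) (1) (0) [[-1,0],[0,-1],[0,0]],
  k 14 3 4 2 0 1 (1) (-1) (0) (-1) (1) (0) [[0,-1],[0,0],[1,1]],
  k 14 3 4 2 0 1 (3) (-1) (0) (-1) (1) (0) [[0,-3],[0,0],[3,3]],
  k 15 3 2 4 0 1 (1) (1) (0) (1) (0) (0) [[0,-1],[-1,-1],[0,0]],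
  k 22 3 1 4 2 0 (1) (1) (0) (0) (-1) (-1) [[1,1],[0,0],[-1,0]],
  k 44 0 1 2 3 4 (-1) (1) (0) (0) (0) (0) [[0,0],[-1,-1],[1,0]],
  k 43 0 1 2 3 4 (-1) (1) (0) (0) (0) (0) [[0,0],[-1,0],[0,-1]],
  k 45 0 1 2 3 4 (-1) (1) (0) (0) (0) (0) [[0,0],[-2,-1],[-1,0]]]⟩,
⟨[⟨1,0,0,-1,-1⟩, ⟨0,1,0,1,1⟩, ⟨0,0,1,1,0⟩], .br 1 [k 90 0 1 2 3 4 (1) (1) (0) (0) (-1) (-1) [[0,0],[1,0],[0,1]],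
  z,
  k 90 0 1 2 3 4 (2) (1) (0) (0) (-1) (-1) [[0,0],[2,0],[0,2]],
  k 31 2 1 3 4 0 (1) (1) (1) (2) (2) (1) [[0,0],[1,2],[0,-1]],
  k 50 0 1 2 3 4 (1) (1) (0) (0) (-1) (-1) [[0,0],[1,1],[1,0]],
  k 42 1 0 4 3 2 (1) (1) (0) (0) (1) (1) [[0,0],[1,1],[0,-1]],
  k 47 0 1 2 3 4 (1) (0) (0) (1) (1) (0) [[1,0],[0,1],[0,0]],
  k 90 0 1 2 3 4 (1) (1) (0) (0) (-1) (-1) [[0,0],[1,0],[0,1]],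
  k 90 0 1 2 3 4 (3) (1) (0) (0) (-1) (-1) [[0,0],[3,0],[0,3]],
  k 90 0 1 2 3 4 (2) (1) (0) (0) (-1) (-1) [[0,0],[2,0],[0,2]],
  k 31 4 3 1 2 0 (-1) (-1) (-1) (-2) (-2) (-1) [[1,2],[0,0],[-1,-1]],
  k 42 2 0 3 1 4 (-1) (1) (1) (0) (1) (0) [[-1,0],[0,0],[1,1]],
  k 46 0 1 2 3 4 (-1) (0) (1) (0) (1) (1) [[-1,0],[0,0],[0,-1]],
  k 48 0 3 4 1 2 (1) (1) (1) (1) (1) (0) [[-1,-2],[1,3],[0,0]],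
  k 46 0 3 4 1 2 (1) (0) (-1) (0) (-1) (-1) [[0,0],[-1,0],[1,1]],
  k 48 0 1 2 3 4 (-2) (0) (1) (0) (1) (1) [[-1,0],[0,0],[0,-2]],
  k 36 0 1 2 3 4 (1) (1) (0) (0) (-1) (-1) [[0,0],[1,0],[0,1]],
  k 45 0 1 2 3 4 (1) (0) (0) (1) (1) (0) [[1,0],[0,1],[0,0]],
  k 49 0 1 2 3 4 (-1) (0) (0) (1) (1) (0) [[-1,0],[0,-1],[0,0]],
  k 49 0 1 2 3 4 (-1) (0) (0) (1) (1) (0) [[-1,0],[0,-1],[0,0]],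
  k 90 0 1 2 3 4 (1) (1) (0) (0) (-1) (-1) [[0,0],[1,0],[0,1]],
  k 36 0 3 4 1 2 (-1) (-1) (0) (0) (1) (1) [[1,0],[0,0],[-1,-1]]]⟩,
⟨[⟨1,0,-1,0,1⟩, ⟨0,1,1,0,-1⟩, ⟨0,0,0,1,1⟩], .br 16 [k 31 2 1 0 4 3 (1) (1) (0) (0) (-1) (1) [[-1,0],[0,0],[0,1]],
  k 12 3 0 2 1 4 (-1) (-1) (0) (1) (0) (1) [[0,0],[1,2],[-1,-1]],
  k 50 3 1 2 0 4 (2) (-1) (0) (1) (1) (0) [[-1,0],[0,0],[0,2]],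
  k 50 0 1 2 3 4 (1) (0) (1) (1) (0) (-1) [[1,3],[0,0],[0,1]],
  k 17 1 0 2 4 3 (-1) (0) (-2) (-2) (-1) (0) [[0,0],[-1,-1],[-1,-2]],
  k 52 0 1 2 3 4 (-1) (0) (0) (0) (1) (1) [[-1,0],[0,-1],[0,0]],
  k 31 2 1 0 4 3 (1) (1) (0) (0) (-1) (1) [[-1,0],[0,0],[0,1]],
  k 45 1 0 2 3 4 (-1) (-1) (-1) (-2) (-1) (0) [[-1,-1],[0,0],[0,-1]],
  k 52 3 1 2 0 4 (1) (-1) (0) (1) (1) (0) [[-1,0],[0,0],[-1,1]],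
  k 17 1 0 2 4 3 (-1) (0) (-2) (-2) (-1) (0) [[0,0],[-1,-1],[-1,-2]],
  k 12 0 3 2 1 4 (-1) (-1) (0) (1) (0) (1) [[0,0],[-1,-1],[1,2]],
  k 45 1 3 2 0 4 (-1) (0) (-1) (-1) (-1) (-1) [[-1,-1],[1,0],[0,0]],
  k 50 0 1 2 3 4 (1) (0) (1) (1) (0) (-1) [[1,3],[0,0],[0,1]],
  k 52 0 1 2 3 4 (-1) (0) (0) (0) (1) (1) [[-1,0],[0,-1],[0,0]],
  k 24 0 1 4 3 2 (1) (1) (0) (-1) (0) (1) [[0,0],[-1,-1],[0,-1]],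
  k 12 0 3 2 1 4 (-2) (-1) (0) (1) (0) (1) [[0,0],[-2,-2],[2,4]],
  z,
  k 50 3 1 2 0 4 (2) (-1) (0) (1) (1) (0) [[-1,0],[0,0],[0,2]],
  k 51 0 1 2 3 4 (-1) (0) (1) (1) (0) (-1) [[-1,0],[0,0],[0,1]],
  k 52 3 1 2 0 4 (1) (-1) (0) (1) (1) (0) [[-1,0],[0,0],[-1,1]],
  k 31 2 1 0 4 3 (1) (1) (0) (0) (-1) (1) [[-1,0],[0,0],[0,1]],
  k 12 3 0 2 1 4 (-2) (-1) (0) (1) (0) (1) [[0,0],[2,4],[-2,-2]]]⟩,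
⟨[⟨1,2,0,0,0⟩, ⟨0,0,1,0,-1⟩, ⟨0,0,0,1,1⟩], .br 5 [k 25 0 1 2 3 4 (2) (1) (2) (0) (0) (0) [[0,0],[2,0],[0,2]],
  k 54 1 0 4 3 2 (-1) (0) (0) (-1) (0) (1) [[-1,0],[0,0],[0,1]],
  k 54 0 1 2 3 4 (1) (0) (0) (1) (0) (-1) [[1,-2],[0,0],[0,1]],
  k 29 1 3 2 0 4 (1) (-1) (0) (0) (0) (1) [[0,1],[0,0],[-1,-1]],
  k 29 0 3 4 1 2 (-1) (1) (0) (0) (0) (-1) [[2,1],[0,0],[-1,-1]],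
  z,
  k 54 4 2 0 3 1 (1) (-1) (-2) (-1) (-2) (-1) [[0,0],[1,2],[0,-1]],
  k 29 2 3 0 4 1 (1) (1) (2) (1) (0) (1) [[0,0],[0,-1],[-1,0]],
  k 29 4 3 1 2 0 (1) (1) (0) (-1) (-2) (-1) [[0,0],[2,3],[-1,-2]],
  k 25 0 1 2 3 4 (1) (1) (2) (0) (0) (0) [[0,0],[1,0],[0,1]],
  k 25 0 1 2 3 4 (3) (1) (2) (0) (0) (0) [[0,0],[3,0],[0,3]],
  k 54 2 4 1 3 0 (-1) (0) (0) (-1) (-2) (-1) [[1,4],[0,0],[0,-1]],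
  k 25 0 1 2 3 4 (1) (1) (2) (0) (0) (0) [[0,0],[1,0],[0,1]],
  k 56 0 1 2 3 4 (-1) (1) (2) (0) (0) (0) [[0,0],[-1,0],[0,-1]],
  k 53 1 0 4 3 2 (1) (0) (0) (0) (-1) (-1) [[1,2],[0,-1],[0,0]],
  k 55 1 0 4 3 2 (1) (0) (0) (-1) (0) (1) [[1,5],[0,0],[0,-1]],
  k 55 0 1 2 3 4 (-1) (0) (0) (1) (0) (-1) [[-1,-3],[0,0],[0,-1]],
  k 53 0 1 2 3 4 (1) (1) (2) (0) (0) (0) [[0,0],[-2,1],[1,0]],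
  k 56 0 1 2 3 4 (1) (1) (2) (0) (0) (0) [[0,0],[1,0],[0,1]],
  k 52 1 0 4 3 2 (-1) (0) (0) (0) (-1) (-1) [[-1,-2],[0,1],[0,0]],
  k 25 0 1 2 3 4 (2) (1) (2) (0) (0) (0) [[0,0],[2,0],[0,2]],
  k 52 0 1 2 3 4 (1) (0) (0) (0) (1) (1) [[1,0],[0,1],[0,0]]]⟩,
⟨[⟨1,0,0,0,0⟩, ⟨0,0,1,0,-1⟩, ⟨0,0,0,1,1⟩], .br 12 [k 24 0 1 2 3 4 (1) (1) (0) (0) (0) (0) [[0,0],[1,0],[0,1]],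
  k 43 0 1 2 3 4 (1) (1) (0) (0) (0) (0) [[0,0],[1,1],[-1,0]],
  k 43 1 0 4 3 2 (1) (1) (0) (0) (0) (0) [[0,0],[-1,-1],[1,0]],
  k 43 1 0 2 3 4 (1) (1) (0) (0) (0) (0) [[0,0],[-1,-1],[0,1]],
  k 43 0 1 4 3 2 (1) (1) (0) (0) (0) (0) [[0,0],[1,1],[0,-1]],
  k 24 0 1 2 3 4 (1) (1) (0) (0) (0) (0) [[0,0],[1,0],[0,1]],
  k 56 1 0 2 3 4 (1) (0) (0) (-1) (0) (1) [[1,2],[0,0],[0,1]],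
  k 56 0 1 2 3 4 (-1) (0) (0) (1) (0) (-1) [[-1,-2],[0,0],[0,-1]],
  k 56 1 0 4 3 2 (1) (0) (0) (-1) (0) (1) [[1,2],[0,0],[0,-1]],
  k 24 0 1 2 3 4 (2) (1) (0) (0) (0) (0) [[0,0],[2,0],[0,2]],
  k 24 0 1 2 3 4 (2) (1) (0) (0) (0) (0) [[0,0],[2,0],[0,2]],
  k 56 0 1 4 3 2 (-1) (0) (0) (1) (0) (-1) [[-1,-2],[0,0],[0,1]],
  z,
  k 56 1 0 2 3 4 (1) (0) (0) (-1) (0) (1) [[1,2],[0,0],[0,1]],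
  k 57 1 0 2 3 4 (1) (0) (0) (1) (1) (0) [[1,-2],[0,1],[0,0]],
  k 56 1 0 4 3 2 (1) (0) (0) (-1) (0) (1) [[1,2],[0,0],[0,-1]],
  k 56 0 1 2 3 4 (-1) (0) (0) (1) (0) (-1) [[-1,-2],[0,0],[0,-1]],
  k 57 0 1 2 3 4 (-1) (0) (0) (0) (1) (1) [[-1,0],[0,-1],[0,0]],
  k 56 0 1 4 3 2 (-1) (0) (0) (1) (0) (-1) [[-1,-2],[0,0],[0,1]],
  k 15 2 0 4 3 1 (1) (0) (1) (1) (1) (0) [[0,0],[0,1],[1,1]],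
  k 24 0 1 2 3 4 (1) (1) (0) (0) (0) (0) [[0,0],[1,0],[0,1]],
  k 15 4 0 2 3 1 (1) (0) (1) (1) (1) (0) [[0,0],[0,1],[-1,-2]]]⟩,
⟨[⟨2,0,0,-1,1⟩, ⟨0,2,0,1,-1⟩, ⟨0,0,1,1,0⟩], .br 10 [k 61 0 1 2 3 4 (-2) (0) (2) (0) (1) (-1) [[-2,0],[0,0],[0,-2]],
  k 16 0 4 3 2 1 (-1) (-1) (-2) (-1) (-1) (1) [[0,0],[-2,-2],[-1,0]],
  k 16 0 4 3 2 1 (-1) (-1) (-2) (-1) (-1) (1) [[0,0],[-2,-2],[-1,0]],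
  k 60 0 1 2 3 4 (1) (0) (0) (1) (1) (0) [[1,0],[0,1],[0,0]],
  k 60 1 0 4 3 2 (-1) (0) (0) (-1) (-1) (0) [[-1,0],[0,-1],[0,0]],
  k 61 0 1 2 3 4 (-4) (0) (2) (0) (1) (-1) [[-4,0],[0,0],[0,-4]],
  k 19 3 4 2 1 0 (1) (-1) (0) (-1) (0) (0) [[-1,-1],[1,-1],[0,0]],
  k 57 0 1 2 3 4 (1) (2) (0) (0) (-1) (1) [[0,0],[2,0],[0,1]],
  k 57 0 1 2 3 4 (1) (2) (0) (0) (-1) (1) [[0,0],[2,0],[0,1]],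
  k 61 0 1 2 3 4 (-2) (0) (2) (0) (1) (-1) [[-2,0],[0,0],[0,-2]],
  z,
  k 19 3 2 4 0 1 (-1) (1) (0) (1) (0) (0) [[1,1],[-1,1],[0,0]],
  k 16 0 4 3 2 1 (-2) (-1) (-2) (-1) (-1) (1) [[0,0],[-4,-4],[-2,0]],
  k 58 1 0 4 3 2 (1) (0) (0) (-1) (-1) (0) [[1,0],[0,1],[0,0]],
  k 20 4 1 2 0 3 (1) (-1) (1) (0) (1) (1) [[0,0],[0,2],[1,0]],
  k 86 0 1 2 3 4 (1) (2) (0) (0) (-1) (1) [[0,0],[2,0],[0,1]],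
  k 86 0 1 2 3 4 (1) (2) (0) (0) (-1) (1) [[0,0],[2,0],[0,1]],
  k 20 2 0 4 1 3 (-1) (1) (1) (0) (-1) (1) [[0,0],[2,-2],[-1,0]],
  k 58 0 1 2 3 4 (-1) (0) (0) (1) (1) (0) [[-1,0],[0,-1],[0,0]],
  k 59 0 1 2 3 4 (1) (2) (0) (0) (-1) (1) [[0,0],[3,1],[1,0]],
  k 31 0 4 2 3 1 (-2) (-2) (-2) (-3) (-2) (-1) [[0,0],[-2,-2],[0,-2]],
  k 59 1 0 4 3 2 (-1) (2) (0) (2) (1) (1) [[0,0],[3,-1],[-1,0]]]⟩,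
⟨[⟨1,0,0,0,1⟩, ⟨0,2,0,1,-1⟩, ⟨0,0,1,1,0⟩], .br 8 [k 85 1 3 0 2 4 (1) (-1) (0) (0) (2) (1) [[1,0],[0,0],[-1,-1]],
  k 85 1 3 0 2 4 (2) (-1) (0) (0) (2) (1) [[2,0],[0,0],[-2,-2]],
  k 64 0 1 2 3 4 (-1) (1) (0) (0) (0) (1) [[0,0],[-1,0],[0,-1]],
  k 18 4 0 3 2 1 (-1) (1) (1) (2) (1) (1) [[0,0],[-1,-1],[0,-1]],
  k 18 0 2 3 1 4 (1) (1) (-1) (-1) (-2) (-1) [[0,1],[0,0],[-1,-2]],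
  k 85 1 3 0 2 4 (-1) (-1) (0) (0) (2) (1) [[-1,0],[0,0],[1,1]],
  k 62 0 1 2 3 4 (1) (0) (2) (0) (1) (-1) [[1,0],[0,0],[0,-1]],
  k 30 0 4 2 3 1 (1) (-1) (-1) (-2) (-1) (-1) [[0,0],[1,1],[0,1]],
  z,
  k 85 1 3 0 2 4 (1) (-1) (0) (0) (2) (1) [[1,0],[0,0],[-1,-1]],
  k 85 1 3 0 2 4 (3) (-1) (0) (0) (2) (1) [[3,0],[0,0],[-3,-3]],
  k 63 0 1 2 3 4 (1) (1) (0) (0) (0) (1) [[0,0],[-1,1],[1,0]],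
  k 61 1 3 2 4 0 (-1) (0) (-1) (-1) (0) (0) [[0,0],[0,1],[1,0]],
  k 18 0 2 3 1 4 (-1) (1) (-1) (-1) (-2) (-1) [[0,-1],[0,0],[1,2]],
  k 33 4 1 3 2 0 (1) (-1) (0) (0) (0) (-1) [[0,0],[1,-1],[0,1]],
  k 85 1 3 0 2 4 (2) (-1) (0) (0) (2) (1) [[2,0],[0,0],[-2,-2]],
  k 65 0 1 2 3 4 (1) (1) (0) (0) (0) (1) [[0,0],[-1,0],[0,1]],
  k 24 4 2 3 0 1 (-1) (1) (0) (0) (-1) (0) [[0,0],[1,2],[1,1]],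
  k 18 4 0 3 2 1 (1) (1) (1) (2) (1) (1) [[0,0],[1,1],[0,1]],
  k 61 0 1 2 3 4 (-1) (0) (0) (1) (1) (0) [[-1,0],[0,-1],[0,0]],
  k 33 2 1 0 3 4 (-1) (-1) (-1) (-1) (-1) (0) [[0,0],[1,2],[0,-1]],
  k 61 0 1 2 3 4 (1) (0) (0) (1) (1) (0) [[1,0],[0,1],[0,0]]]⟩,
⟨[⟨1,0,0,0,1⟩, ⟨0,1,0,-1,-2⟩, ⟨0,0,1,2,1⟩], .br 8 [k 21 0 2 3 1 4 (-1) (2) (1) (1) (-1) (1) [[-1,-1],[0,0],[1,2]],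
  k 21 0 2 3 1 4 (-2) (2) (1) (1) (-1) (1) [[-2,-2],[0,0],[2,4]],
  k 14 0 3 1 4 2 (-1) (-1) (0) (-1) (-1) (-1) [[0,0],[0,1],[-1,-1]],
  k 67 0 1 2 3 4 (-2) (2) (0) (0) (0) (2) [[0,0],[1,-1],[-2,0]],
  k 65 0 1 2 3 4 (-1) (0) (1) (0) (-1) (-2) [[-1,0],[0,0],[0,-1]],
  k 62 0 3 1 4 2 (1) (0) (1) (1) (1) (-1) [[-1,0],[1,1],[0,0]],
  k 62 2 4 1 3 0 (-1) (-1) (-1) (-2) (-2) (0) [[-1,0],[0,0],[2,1]],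
  k 67 2 1 0 4 3 (2) (-2) (0) (0) (0) (-2) [[0,0],[-2,0],[1,-1]],
  z,
  k 21 0 2 3 1 4 (-1) (2) (1) (1) (-1) (1) [[-1,-1],[0,0],[1,2]],
  k 65 2 1 0 4 3 (1) (-1) (-1) (0) (1) (1) [[-1,0],[1,-1],[0,0]],
  k 14 0 3 1 4 2 (1) (-1) (0) (-1) (-1) (-1) [[0,0],[0,-1],[1,1]],
  k 66 0 1 2 3 4 (-1) (1) (0) (0) (0) (1) [[0,0],[1,-1],[-1,0]],
  k 21 0 2 3 1 4 (-2) (2) (1) (1) (-1) (1) [[-2,-2],[0,0],[2,4]],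
  k 60 3 1 4 2 0 (1) (1) (1) (1) (1) (0) [[0,0],[0,1],[-1,-1]],
  k 65 0 1 2 3 4 (1) (0) (1) (0) (-1) (-2) [[1,0],[0,0],[0,1]],
  k 66 2 1 0 4 3 (1) (-1) (0) (0) (0) (-1) [[0,0],[-1,0],[1,-1]],
  k 68 2 1 0 4 3 (-1) (-1) (0) (0) (0) (-1) [[0,0],[0,1],[1,0]],
  k 68 0 1 2 3 4 (1) (1) (0) (0) (0) (1) [[0,0],[1,0],[0,1]],
  k 65 2 1 0 4 3 (-1) (-1) (-1) (0) (1) (1) [[1,0],[-1,1],[0,0]],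
  k 60 4 1 3 0 2 (-1) (-1) (-1) (-1) (-1) (0) [[0,0],[-1,-1],[0,1]],
  k 21 0 2 3 1 4 (-3) (2) (1) (1) (-1) (1) [[-3,-3],[0,0],[3,6]]]⟩,
⟨[⟨1,0,1,0,0⟩, ⟨0,1,0,0,-1⟩, ⟨0,0,0,1,1⟩], .br 13 [k 18 1 0 2 3 4 (-1) (1) (0) (0) (0) (1) [[0,0],[1,2],[0,-1]],
  k 59 4 1 3 0 2 (1) (1) (1) (0) (0) (0) [[2,1],[0,0],[-1,-1]],
  k 59 0 1 3 4 2 (-1) (1) (1) (0) (0) (0) [[0,0],[-2,-1],[1,1]],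
  k 18 1 0 2 3 4 (-1) (1) (0) (0) (0) (1) [[0,0],[1,2],[0,-1]],
  k 59 4 3 1 0 2 (1) (1) (1) (0) (0) (0) [[2,1],[0,0],[-1,0]],
  k 83 2 3 0 4 1 (-1) (0) (-1) (0) (-1) (0) [[0,0],[0,1],[-1,-1]],
  k 83 0 3 1 2 4 (1) (1) (1) (2) (1) (1) [[1,0],[0,0],[-1,-1]],
  k 83 1 4 0 2 3 (-1) (1) (1) (1) (0) (1) [[0,0],[-1,-1],[0,1]],
  k 83 0 1 3 2 4 (1) (1) (1) (2) (1) (1) [[1,0],[0,0],[0,1]],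
  k 18 1 0 2 3 4 (-1) (1) (0) (0) (0) (1) [[0,0],[1,2],[0,-1]],
  k 59 0 3 1 4 2 (-1) (1) (1) (0) (0) (0) [[0,0],[-2,-1],[1,0]],
  k 18 1 0 2 3 4 (-1) (1) (0) (0) (0) (1) [[0,0],[1,2],[0,-1]],
  k 59 4 3 1 0 2 (1) (1) (1) (0) (0) (0) [[2,1],[0,0],[-1,0]],
  z,
  k 59 4 1 3 0 2 (1) (1) (1) (0) (0) (0) [[2,1],[0,0],[-1,-1]],
  k 64 4 0 1 2 3 (-1) (1) (0) (0) (-1) (0) [[1,0],[-1,1],[0,0]],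
  k 58 0 4 1 2 3 (-1) (-1) (0) (-1) (0) (0) [[0,0],[1,1],[0,1]],
  k 64 4 0 1 2 3 (-1) (1) (0) (0) (-1) (0) [[1,0],[-1,1],[0,0]],
  k 83 2 3 0 4 1 (-1) (0) (-1) (0) (-1) (0) [[0,0],[0,1],[-1,-1]],
  k 58 0 4 3 2 1 (-1) (-1) (0) (-1) (0) (0) [[0,0],[1,1],[-1,-2]],
  k 18 1 0 2 3 4 (-2) (1) (0) (0) (0) (1) [[0,0],[2,4],[0,-2]],
  k 83 1 4 0 2 3 (-1) (1) (1) (1) (0) (1) [[0,0],[-1,-1],[0,1]]]⟩,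
⟨[⟨1,0,0,1,2⟩, ⟨0,1,0,-1,-2⟩, ⟨0,0,1,0,-1⟩], .br 8 [k 17 0 3 1 2 4 (1) (-2) (-1) (-2) (-2) (-1) [[0,0],[1,1],[0,-1]],
  k 17 0 3 1 2 4 (2) (-2) (-1) (-2) (-2) (-1) [[0,0],[2,2],[0,-2]],
  k 16 1 4 3 0 2 (-1) (1) (2) (2) (0) (1) [[0,0],[0,1],[1,-1]],
  k 63 4 2 0 3 1 (-1) (-1) (-1) (1) (1) (0) [[-1,1],[0,0],[0,-1]],
  k 67 0 1 2 3 4 (2) (2) (0) (0) (2) (4) [[0,0],[1,1],[2,0]],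
  k 61 1 3 0 2 4 (1) (2) (1) (0) (0) (1) [[0,0],[1,0],[0,-1]],
  k 16 1 4 3 0 2 (1) (1) (2) (2) (0) (1) [[0,0],[0,-1],[-1,1]],
  k 65 4 0 1 2 3 (-4) (-2) (2) (0) (2) (-2) [[1,-1],[1,3],[0,0]],
  z,
  k 17 0 3 1 2 4 (1) (-2) (-1) (-2) (-2) (-1) [[0,0],[1,1],[0,-1]],
  k 57 0 4 1 2 3 (1) (2) (1) (1) (-1) (1) [[0,0],[-1,0],[0,-1]],
  k 59 4 2 0 3 1 (-1) (-1) (-1) (1) (1) (0) [[1,1],[0,0],[-2,-1]],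
  k 55 3 4 0 1 2 (-2) (4) (2) (0) (0) (2) [[1,1],[0,0],[2,0]],
  k 18 2 0 4 1 3 (1) (-1) (-1) (-3) (-2) (-1) [[0,0],[-1,-3],[1,2]],
  k 62 3 1 4 2 0 (-2) (-2) (0) (-2) (-1) (-1) [[1,2],[0,0],[-1,-4]],
  k 63 4 2 0 3 1 (1) (-1) (-1) (1) (1) (0) [[1,-1],[0,0],[0,1]],
  k 55 0 2 4 1 3 (-4) (2) (-2) (2) (2) (4) [[-3,1],[0,0],[4,0]],
  k 17 0 3 1 2 4 (-1) (-2) (-1) (-2) (-2) (-1) [[0,0],[-1,-1],[0,1]],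
  k 17 0 3 1 2 4 (2) (-2) (-1) (-2) (-2) (-1) [[0,0],[2,2],[0,-2]],
  k 58 1 0 3 2 4 (-1) (-1) (-2) (-1) (-1) (-1) [[-1,-1],[0,1],[0,0]],
  k 58 1 0 3 2 4 (-1) (-1) (-2) (-1) (-1) (-1) [[-1,-1],[0,1],[0,0]],
  k 64 4 1 3 0 2 (-1) (1) (1) (1) (2) (1) [[-1,0],[2,1],[0,0]]]⟩,
⟨[⟨1,0,0,0,0⟩, ⟨0,1,0,2,1⟩, ⟨0,0,1,0,0⟩], .br 20 [k 12 3 1 4 2 0 (-1) (1) (0) (1) (-1) (-1) [[-1,-1],[0,0],[1,0]],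
  k 10 2 1 4 0 3 (1) (-2) (-1) (0) (1) (0) [[0,1],[0,0],[-1,-1]],
  k 12 3 1 2 4 0 (1) (-1) (-1) (-1) (0) (0) [[1,1],[0,-1],[0,0]],
  k 12 3 1 4 2 0 (-1) (1) (0) (1) (-1) (-1) [[-1,-1],[0,0],[1,0]],
  k 10 2 1 4 0 3 (-1) (-2) (-1) (0) (1) (0) [[0,-1],[0,0],[1,1]],
  k 12 3 1 2 4 0 (1) (-1) (-1) (-1) (0) (0) [[1,1],[0,-1],[0,0]],
  k 31 4 1 0 3 2 (1) (-1) (-1) (-1) (-1) (-1) [[0,0],[0,-1],[1,1]],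
  k 12 1 3 2 4 0 (1) (-1) (-1) (-1) (0) (0) [[0,0],[-2,-1],[1,1]],
  k 31 2 1 0 3 4 (1) (-1) (-1) (-1) (-1) (-1) [[0,0],[-3,-2],[1,1]],
  k 12 1 3 4 2 0 (1) (-1) (-1) (-1) (0) (0) [[0,0],[-1,-2],[1,1]],
  k 12 1 3 2 4 0 (1) (-1) (-1) (-1) (0) (0) [[0,0],[-2,-1],[1,1]],
  k 12 1 3 4 2 0 (1) (-1) (-1) (-1) (0) (0) [[0,0],[-1,-2],[1,1]],
  k 69 0 1 2 3 4 (-1) (1) (0) (0) (0) (0) [[0,0],[1,-1],[-1,0]],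
  k 68 0 1 2 3 4 (1) (1) (0) (0) (0) (0) [[0,0],[2,1],[-1,0]],
  k 69 0 1 2 3 4 (1) (1) (0) (0) (0) (0) [[0,0],[-1,1],[1,0]],
  k 68 0 1 2 3 4 (1) (1) (0) (0) (0) (0) [[0,0],[2,1],[-1,0]],
  k 67 0 1 2 3 4 (1) (1) (0) (0) (0) (0) [[0,0],[-1,0],[0,1]],
  k 68 0 1 2 3 4 (1) (1) (0) (0) (0) (0) [[0,0],[2,1],[-1,0]],
  k 67 0 1 4 3 2 (1) (1) (0) (0) (0) (0) [[0,0],[1,-3],[0,1]],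
  k 67 0 3 2 1 4 (1) (1) (0) (0) (0) (0) [[0,1],[1,-2],[0,0]],
  z,
  k 67 0 3 4 1 2 (1) (1) (0) (0) (0) (0) [[0,1],[-1,1],[0,0]]]⟩,
⟨[⟨1,0,0,0,0⟩, ⟨0,1,0,-1,-2⟩, ⟨0,0,1,1,1⟩], .br 12 [k 4 0 1 2 3 4 (1) (1) (0) (0) (0) (0) [[0,0],[1,0],[0,1]],
  k 4 0 1 2 4 3 (1) (1) (0) (0) (0) (0) [[0,0],[-1,-3],[0,1]],
  k 55 0 3 1 2 4 (1) (0) (1) (0) (0) (0) [[0,0],[1,3],[0,-1]],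
  k 4 0 1 2 3 4 (1) (1) (0) (0) (0) (0) [[0,0],[1,0],[0,1]],
  k 55 0 4 1 2 3 (1) (0) (1) (0) (0) (0) [[0,0],[-1,0],[0,-1]],
  k 4 0 1 2 4 3 (1) (1) (0) (0) (0) (0) [[0,0],[-1,-3],[0,1]],
  k 4 0 1 2 3 4 (2) (1) (0) (0) (0) (0) [[0,0],[2,0],[0,2]],
  k 4 0 1 2 4 3 (2) (1) (0) (0) (0) (0) [[0,0],[-2,-6],[0,2]],
  k 69 0 1 2 3 4 (1) (0) (1) (0) (-1) (-2) [[1,-2],[0,0],[0,1]],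
  k 69 0 1 2 4 3 (-1) (0) (0) (1) (1) (1) [[-1,0],[1,1],[0,0]],
  k 69 0 1 2 3 4 (1) (0) (1) (0) (-1) (-2) [[1,-2],[0,0],[0,1]],
  k 69 0 1 2 4 3 (-1) (0) (0) (1) (1) (1) [[-1,0],[1,1],[0,0]],
  z,
  k 71 0 1 2 3 4 (-1) (0) (1) (0) (-1) (-2) [[-1,0],[0,0],[0,-1]],
  k 70 0 1 2 3 4 (-1) (0) (1) (0) (-1) (-2) [[-1,-2],[0,0],[0,1]],
  k 70 0 1 2 4 3 (-1) (0) (0) (1) (1) (1) [[-1,0],[1,1],[0,0]],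
  k 71 0 1 2 3 4 (-1) (0) (1) (0) (-1) (-2) [[-1,0],[0,0],[0,-1]],
  k 70 0 1 2 4 3 (-1) (0) (0) (1) (1) (1) [[-1,0],[1,1],[0,0]],
  k 70 0 1 2 3 4 (-1) (0) (1) (0) (-1) (-2) [[-1,-2],[0,0],[0,1]],
  k 68 2 0 3 1 4 (1) (0) (0) (0) (0) (1) [[0,0],[1,-1],[-1,0]],
  k 68 2 0 3 1 4 (1) (0) (0) (0) (0) (1) [[0,0],[1,-1],[-1,0]],
  k 81 0 1 3 4 2 (1) (1) (0) (0) (0) (0) [[0,0],[2,1],[-1,0]]]⟩,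
⟨[⟨1,2,0,0,-2⟩, ⟨0,0,1,0,0⟩, ⟨0,0,0,1,1⟩], .br 20 [k 20 0 3 4 1 2 (1) (1) (0) (0) (0) (0) [[-2,-1],[0,0],[1,1]],
  k 17 1 3 4 0 2 (1) (1) (1) (1) (1) (0) [[1,-2],[0,1],[0,0]],
  k 71 0 1 2 3 4 (1) (0) (0) (1) (0) (0) [[1,0],[0,0],[0,1]],
  k 20 0 3 4 1 2 (1) (1) (0) (0) (0) (0) [[-2,-1],[0,0],[1,1]],
  k 8 1 0 2 3 4 (-2) (-1) (-2) (-4) (-2) (-2) [[0,0],[0,-2],[-2,0]],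
  k 45 0 1 4 3 2 (1) (0) (0) (1) (0) (0) [[-1,2],[0,0],[0,-1]],
  k 55 4 3 1 0 2 (-1) (2) (2) (0) (1) (0) [[0,0],[-2,-1],[1,0]],
  k 19 4 3 1 2 0 (1) (-1) (-1) (-1) (-1) (0) [[-1,-2],[1,1],[0,0]],
  k 5 0 3 2 4 1 (-1) (-1) (-1) (-3) (-2) (0) [[0,0],[1,0],[-1,1]],
  k 8 1 0 2 3 4 (-1) (-1) (-2) (-4) (-2) (-2) [[0,0],[0,-1],[-1,0]],
  k 8 1 0 2 3 4 (1) (-1) (-2) (-4) (-2) (-2) [[0,0],[0,1],[1,0]],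
  k 8 1 0 2 3 4 (-1) (-1) (-2) (-4) (-2) (-2) [[0,0],[0,-1],[-1,0]],
  k 72 0 1 2 3 4 (1) (0) (0) (1) (0) (0) [[1,0],[0,0],[0,1]],
  k 72 0 1 2 3 4 (1) (0) (0) (1) (0) (0) [[1,0],[0,0],[0,1]],
  k 65 4 1 0 3 2 (-1) (1) (-1) (1) (-1) (-1) [[0,0],[1,1],[-1,0]],
  k 65 4 1 0 3 2 (1) (1) (-1) (1) (-1) (-1) [[0,0],[-1,-1],[1,0]],
  k 65 0 4 2 3 1 (-1) (-1) (1) (1) (2) (2) [[0,0],[0,-1],[1,0]],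
  k 65 4 1 0 3 2 (1) (1) (-1) (1) (-1) (-1) [[0,0],[-1,-1],[1,0]],
  k 8 1 0 2 3 4 (-3) (-1) (-2) (-4) (-2) (-2) [[0,0],[0,-3],[-3,0]],
  k 70 0 1 2 3 4 (1) (0) (0) (1) (0) (0) [[1,2],[0,0],[0,1]],
  z,
  k 73 0 1 2 3 4 (1) (0) (0) (1) (0) (0) [[1,4],[0,0],[0,-1]]]⟩,
⟨[⟨1,0,-1,0,0⟩, ⟨0,1,2,0,-1⟩, ⟨0,0,0,1,1⟩], .br 16 [k 5 0 1 2 4 3 (-1) (1) (1) (2) (1) (1) [[1,3],[0,-1],[0,0]],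
  k 12 1 0 4 3 2 (-1) (1) (0) (0) (0) (-1) [[0,0],[-1,-1],[0,1]],
  k 74 0 3 2 1 4 (-2) (-1) (0) (1) (0) (0) [[0,0],[-1,-2],[0,2]],
  k 5 0 1 2 4 3 (-1) (1) (1) (2) (1) (1) [[1,3],[0,-1],[0,0]],
  k 74 4 1 2 3 0 (-1) (0) (1) (2) (2) (1) [[0,0],[-1,0],[0,1]],
  k 74 0 1 2 3 4 (1) (0) (1) (2) (0) (-1) [[1,2],[0,0],[0,1]],
  k 12 3 0 4 1 2 (-1) (-1) (0) (0) (0) (1) [[0,0],[-1,-1],[1,0]],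
  k 12 1 4 0 3 2 (-1) (1) (0) (0) (2) (1) [[-1,1],[0,0],[0,1]],
  k 74 4 3 2 1 0 (-1) (0) (-1) (-2) (-2) (-1) [[0,0],[-1,0],[1,-1]],
  k 5 4 1 2 0 3 (-1) (1) (1) (2) (1) (1) [[0,-1],[1,3],[0,0]],
  k 12 3 4 0 1 2 (1) (1) (2) (0) (0) (1) [[-1,1],[0,0],[1,0]],
  k 5 4 1 2 0 3 (-1) (1) (1) (2) (1) (1) [[0,-1],[1,3],[0,0]],
  k 75 0 1 2 3 4 (-1) (0) (0) (0) (1) (1) [[-1,0],[0,-1],[0,0]],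
  k 79 0 1 3 4 2 (-1) (1) (-1) (0) (0) (0) [[0,0],[-1,-1],[1,0]],
  k 71 2 0 4 3 1 (1) (0) (1) (1) (1) (-1) [[0,0],[1,3],[0,-1]],
  k 73 0 1 2 3 4 (-2) (2) (0) (-2) (0) (0) [[0,0],[-3,-1],[2,0]],
  z,
  k 73 0 1 2 3 4 (-2) (2) (0) (-2) (0) (0) [[0,0],[-3,-1],[2,0]],
  k 75 4 1 2 3 0 (-1) (1) (0) (-1) (-2) (-2) [[0,-1],[0,0],[1,0]],
  k 79 0 1 3 4 2 (-2) (1) (-1) (0) (0) (0) [[0,0],[-2,-2],[2,0]],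
  k 79 0 1 3 4 2 (-1) (1) (-1) (0) (0) (0) [[0,0],[-1,-1],[1,0]],
  k 71 0 1 2 3 4 (1) (0) (1) (2) (0) (-1) [[1,0],[0,0],[0,1]]]⟩,
⟨[⟨1,0,0,0,0⟩, ⟨0,1,0,0,-1⟩, ⟨0,0,0,1,1⟩], .br 12 [k 77 2 3 0 4 1 (1) (1) (0) (1) (0) (1) [[0,0],[0,-1],[1,1]],
  k 23 3 0 1 4 2 (1) (-1) (-1) (-1) (-1) (-1) [[0,0],[0,1],[1,0]],
  k 23 4 0 1 2 3 (1) (-1) (-1) (-1) (-1) (-1) [[0,0],[1,0],[-1,-1]],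
  k 77 2 3 0 4 1 (1) (1) (0) (1) (0) (1) [[0,0],[0,-1],[1,1]],
  k 77 2 3 0 4 1 (1) (1) (0) (1) (0) (1) [[0,0],[0,-1],[1,1]],
  k 23 2 0 1 3 4 (1) (-1) (-1) (-1) (-1) (-1) [[0,0],[-1,-1],[0,1]],
  k 77 2 3 0 4 1 (2) (1) (0) (1) (0) (1) [[0,0],[0,-2],[2,2]],
  k 76 0 1 3 4 2 (-1) (0) (0) (0) (1) (1) [[-1,0],[0,0],[0,1]],
  k 76 0 1 2 3 4 (-1) (0) (0) (0) (1) (1) [[-1,0],[0,-1],[0,0]],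
  k 77 2 3 0 4 1 (2) (1) (0) (1) (0) (1) [[0,0],[0,-2],[2,2]],
  k 76 0 1 4 2 3 (1) (0) (-1) (0) (-1) (0) [[1,2],[0,0],[0,1]],
  k 77 2 3 0 4 1 (2) (1) (0) (1) (0) (1) [[0,0],[0,-2],[2,2]],
  z,
  k 75 0 1 3 4 2 (-1) (0) (0) (0) (1) (1) [[-1,0],[0,0],[0,1]],
  k 75 0 1 4 2 3 (1) (0) (1) (0) (0) (-1) [[1,-2],[0,-1],[0,0]],
  k 75 0 1 2 3 4 (1) (0) (1) (0) (0) (-1) [[1,-2],[0,0],[0,1]],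
  k 75 0 1 4 2 3 (1) (0) (1) (0) (0) (-1) [[1,-2],[0,-1],[0,0]],
  k 75 0 1 2 3 4 (1) (0) (1) (0) (0) (-1) [[1,-2],[0,0],[0,1]],
  k 75 0 1 3 4 2 (-1) (0) (0) (0) (1) (1) [[-1,0],[0,0],[0,1]],
  k 65 4 0 1 2 3 (1) (-1) (-1) (-1) (-1) (-1) [[0,0],[-1,0],[0,-1]],
  k 65 3 0 1 4 2 (1) (-1) (-1) (-1) (-1) (-1) [[0,0],[1,1],[-1,0]],
  k 65 2 0 1 3 4 (1) (-1) (-1) (-1) (-1) (-1) [[0,0],[0,-1],[1,1]]]⟩]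

end Pool.Agent.Y734.M.PAIR
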