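import Pool.Agent.Y734.M.PAIR.Inv

/-!
# Project Y734/M, job PAIR: the checker

Weights are described by five integers. A node is a subspace of `ℚ ^ 5`, given by generators; the
checker verifies that the conclusion for the subspace follows from the conclusion for later nodes,
up to permutations of the five vertices.
-/

set_option autoImplicit false

namespace Pool.Agent.Y734.M.PAIR
open Pool.Agent.Y734.M

/-- five integers -/
@[ext] structure V where
  a : ℤ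
  b : ℤ
  c : ℤ
  d : ℤ
  e : ℤ

/-- sum -/
def V.ad (x y : V) : V := ⟨x.a + y.a, x.b + y.b, x.c + y.c, x.d + y.d, x.e + y.e⟩
/-- multiple -/
def V.sm (k : ℤ) (x : V) : V := ⟨k * x.a, k * x.b, k * x.c, k * x.d, k * x.e⟩
/-- inner product -/
def V.dt (x y : V) : ℤ := x.a * y.a + x.b * y.b + x.c * y.c + x.d * y.d + x.e * y.e
/-- zero -/
def V.ze : V := ⟨0, 0, 0, 0, 0⟩
/-- comparison -/
def V.eqb (x y : V) : Bool := x.a == y.a && x.b == y.b && x.c == y.c && x.d == y.d && x.e == y.e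

theorem V.eq_of_eqb {x y : V} (h : x.eqb y = true) : x = y := by
  simp only [V.eqb, Bool.and_eq_true, beq_iff_eq] at h
  obtain ⟨⟨⟨⟨h1, h2⟩, h3⟩, h4⟩, h5⟩ := h
  exact V.ext h1 h2 h3 h4 h5

/-- the five invariants of the weights `u`, for the vertices in the given order -/
def wv {ι : Type} (u : ι → ι → ℤ) (s0 s1 s2 s3 s4 : ι) : V :=
  ⟨u s0 s1 - u s0 s4 - u s2 s1 + u s2 s4,
   u s0 s2 - u s0 s4 - u s1 s2 + u s1 s4,
   u s0 s3 - u s0 s4 - u s3 s4 - u s1 s2 + u s1 s4 + u s2 s4,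
   u s2 s3 - u s3 s4 - u s1 s2 + u s1 s4,
   u s1 s3 - u s3 s4 - u s1 s2 + u s2 s4⟩

/-- the weights with given invariants -/
def Ee (b : V) (i j : ℕ) : ℤ :=
  match i with
  | 0 => (match j with | 0 => 0 | 1 => b.a | 2 => b.b | 3 => b.c | _ => 0)
  | 1 => (match j with | 0 => b.a | 1 => 0 | 2 => 0 | 3 => b.e | _ => 0)
  | 2 => (match j with | 0 => b.b | 1 => 0 | 2 => 0 | 3 => b.d | _ => 0)
  | 3 => (match j with | 0 => b.c | 1 => b.e | 2 => b.d | 3 => 0 | _ => 0)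
  | _ => 0

/-- the weights with given invariants -/
def EF (b : V) (i j : Fin 5) : ℤ := Ee b i.val j.val

/-- equality up to `s i + s j` -/
def Eqv (e f : Fin 5 → Fin 5 → ℤ) : Prop :=
  ∃ s : Fin 5 → ℤ, ∀ i j, i ≠ j → 2 * e i j = 2 * f i j + s i + s j

/-- the invariants of the weights `e` -/
def iv (e : Fin 5 → Fin 5 → ℤ) : V := wv e 0 1 2 3 4

theorem eqv_EF {e : Fin 5 → Fin 5 → ℤ} (h : Sy e) : Eqv e (EF (iv e)) := by
  refine ⟨![e 1 2 - e 1 4 - e 2 4 + 2 * e 0 4, e 1 2 - e 1 4 - e 2 4 + 2 * e 1 4,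
    e 1 2 - e 1 4 - e 2 4 + 2 * e 2 4, e 1 2 - e 1 4 - e 2 4 + 2 * e 3 4,
    -(e 1 2 - e 1 4 - e 2 4)], ?_⟩
  have h01 := h 0 1
  have h02 := h 0 2
  have h03 := h 0 3
  have h04 := h 0 4
  have h12 := h 1 2
  have h13 := h 1 3
  have h14 := h 1 4
  have h23 := h 2 3
  have h24 := h 2 4
  have h34 := h 3 4
  intro i j hij
  fin_cases i <;> fin_cases j <;> first
    | exact absurd rfl hij
    | (simp [EF, Ee, iv, wv]; omega)

theorem wv_congr {e f : Fin 5 → Fin 5 → ℤ} (h : Eqv e f) (s0 s1 s2 s3 s4 : Fin 5)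
    (h01 : s0 ≠ s1) (h02 : s0 ≠ s2) (h03 : s0 ≠ s3) (h04 : s0 ≠ s4) (h12 : s1 ≠ s2)
    (h13 : s1 ≠ s3) (h14 : s1 ≠ s4) (h23 : s2 ≠ s3) (h24 : s2 ≠ s4) (h34 : s3 ≠ s4) :
    wv e s0 s1 s2 s3 s4 = wv f s0 s1 s2 s3 s4 := by
  obtain ⟨s, hs⟩ := h
  have k1 := hs s0 s1 h01
  have k2 := hs s0 s2 h02
  have k3 := hs s0 s3 h03
  have k4 := hs s0 s4 h04
  have k5 := hs s1 s2 h12
  have k6 := hs s1 s3 h13
  have k7 := hs s1 s4 h14
  have k8 := hs s2 s3 h23
  have k9 := hs s2 s4 h24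
  have k10 := hs s3 s4 h34
  have k11 := hs s2 s1 h12.symm
  unfold wv
  ext <;> simp only <;> omega

theorem EF_ad (x y : V) (i j : Fin 5) : EF (x.ad y) i j = EF x i j + EF y i j := by
  fin_cases i <;> fin_cases j <;> simp [EF, Ee, V.ad]

theorem EF_sm (k : ℤ) (x : V) (i j : Fin 5) : EF (x.sm k) i j = k * EF x i j := by
  fin_cases i <;> fin_cases j <;> simp [EF, Ee, V.sm]

theorem EF_ze (i j : Fin 5) : EF V.ze i j = 0 := by
  fin_cases i <;> fin_cases j <;> simp [EF, Ee, V.ze]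

/-- the invariants after a permutation -/
def av (s0 s1 s2 s3 s4 : ℕ) (x : V) : V := wv (Ee x) s0 s1 s2 s3 s4

theorem av_eq (s0 s1 s2 s3 s4 : Fin 5) (x : V) :
    av s0.val s1.val s2.val s3.val s4.val x = wv (EF x) s0 s1 s2 s3 s4 := rfl

theorem av_ad (s0 s1 s2 s3 s4 : Fin 5) (x y : V) :
    av s0.val s1.val s2.val s3.val s4.val (x.ad y) =
      (av s0.val s1.val s2.val s3.val s4.val x).ad (av s0.val s1.val s2.val s3.val s4.val y) := by
  simp only [av_eq, wv, EF_ad]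
  apply V.ext <;> simp only [V.ad] <;> ring

theorem av_sm (s0 s1 s2 s3 s4 : Fin 5) (k : ℤ) (x : V) :
    av s0.val s1.val s2.val s3.val s4.val (x.sm k) =
      (av s0.val s1.val s2.val s3.val s4.val x).sm k := by
  simp only [av_eq, wv, EF_sm]
  apply V.ext <;> simp only [V.sm] <;> ring

theorem av_ze (s0 s1 s2 s3 s4 : Fin 5) :
    av s0.val s1.val s2.val s3.val s4.val V.ze = V.ze := by
  simp only [av_eq, wv, EF_ze]
  simp [V.ze]

/-- the invariants of the moved weights -/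
theorem iv_pull {e : Fin 5 → Fin 5 → ℤ} (h : Sy e) (σ : Equiv.Perm (Fin 5)) :
    iv (pull e σ) =
      av (σ 0).val (σ 1).val (σ 2).val (σ 3).val (σ 4).val (iv e) := by
  have hne : ∀ i j : Fin 5, i ≠ j → σ i ≠ σ j := fun i j hij hh => hij (σ.injective hh)
  rw [av_eq]
  exact wv_congr (eqv_EF h) (σ 0) (σ 1) (σ 2) (σ 3) (σ 4) (hne _ _ (by decide))
    (hne _ _ (by decide)) (hne _ _ (by decide)) (hne _ _ (by decide)) (hne _ _ (by decide))
    (hne _ _ (by decide)) (hne _ _ (by decide)) (hne _ _ (by decide)) (hne _ _ (by decide))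
    (hne _ _ (by decide))

/-- the exponents of the terms -/
def mv : List V := [⟨1, 0, 0, 1, 0⟩, ⟨1, 0, 1, 0, 0⟩, ⟨1, 0, 0, 1, 1⟩, ⟨1, 1, 0, 0, 1⟩,
  ⟨1, 0, 1, 1, 0⟩, ⟨1, 1, 0, 1, 0⟩, ⟨0, 1, 0, 0, 1⟩, ⟨0, 1, 1, 0, 0⟩, ⟨0, 1, 0, 1, 1⟩,
  ⟨0, 1, 1, 0, 1⟩, ⟨0, 0, 1, 0, 1⟩, ⟨0, 0, 1, 1, 0⟩, ⟨2, 0, 0, 1, 0⟩, ⟨0, 2, 0, 0, 1⟩,
  ⟨0, 0, 2, 0, 0⟩, ⟨0, 0, 0, 1, 1⟩, ⟨0, 0, 1, 0, 0⟩, ⟨0, 1, 0, 0, 2⟩, ⟨0, 1, 1, 1, 0⟩,
  ⟨1, 0, 0, 2, 0⟩, ⟨1, 0, 1, 0, 1⟩, ⟨1, 1, 0, 0, 0⟩]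

/-- an entry of the list `mv` -/
def mg (t : ℕ) : V := mv.getD t V.ze

theorem wt_mg {e : Fin 5 → Fin 5 → ℤ} (h : Sy e) (t : Fin 22) :
    wt e t = (mg t.val).dt (iv e) + 3 * (e 1 2 - e 1 4 - e 2 4) +
      2 * (e 0 4 + e 1 4 + e 2 4 + e 3 4) := by
  have h12 := h 1 2
  fin_cases t <;>
    (simp [wt, tm, Fin.sum_univ_five, mg, mv, V.dt, iv, wv]; omega)

/-- linear combination -/
def cb (f : ℕ → ℤ) : List V → V
  | [] => V.ze
  | b :: l => (b.sm (f 0)).ad (cb (fun n => f (n + 1)) l)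

/-- linear combination with coefficients in a list -/
def cl : List ℤ → List V → V
  | [], _ => V.ze
  | _, [] => V.ze
  | k :: ks, b :: l => (b.sm k).ad (cl ks l)

theorem cb_zero (l : List V) : cb (fun _ => 0) l = V.ze := by
  induction l with
  | nil => rfl
  | cons b l ih =>
    simp only [cb, ih]
    simp [V.ad, V.sm, V.ze]

theorem cl_cb (ks : List ℤ) (l : List V) : cl ks l = cb (fun n => ks.getD n 0) l := by
  induction ks generalizing l with
  | nil =>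
    rw [show (fun n => ([] : List ℤ).getD n 0) = fun _ => 0 by funext n; simp, cb_zero]
    rfl
  | cons k ks ih =>
    cases l with
    | nil => rfl
    | cons b l =>
      simp only [cl, cb, ih]
      rfl

theorem cb_ad (f g : ℕ → ℤ) (l : List V) :
    (cb f l).ad (cb g l) = cb (fun n => f n + g n) l := by
  induction l generalizing f g with
  | nil => simp [cb, V.ad, V.ze]
  | cons b l ih =>
    simp only [cb]
    rw [← ih]
    apply V.ext <;> simp only [V.ad, V.sm] <;> ring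

theorem cb_sm (k : ℤ) (f : ℕ → ℤ) (l : List V) : (cb f l).sm k = cb (fun n => k * f n) l := by
  induction l generalizing f with
  | nil => simp [cb, V.sm, V.ze]
  | cons b l ih =>
    simp only [cb]
    rw [← ih]
    apply V.ext <;> simp only [V.ad, V.sm] <;> ring

/-- `x` is a rational combination of the vectors of the list -/
def InS (l : List V) (x : V) : Prop := ∃ D : ℤ, D ≠ 0 ∧ ∃ f : ℕ → ℤ, x.sm D = cb f l

/-- the statement for a subspace -/
def PS (l : List V) : Prop := ∀ e : Fin 5 → Fin 5 → ℤ, Sy e → Hy e → InS l (iv e) → Con e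

/-- reference to a later node: index, permutation, linear relations -/
structure Ch where
  m : ℕ
  s0 : ℕ
  s1 : ℕ
  s2 : ℕ
  s3 : ℕ
  s4 : ℕ
  mu : ℤ
  y : V
  al : List (List ℤ)

/-- kinds of nodes -/
inductive Kd where
  | bad (t : ℕ)
  | ray (n : ℕ)
  | pI (cs : List Ch)
  | pII (cs : List Ch)
  | br (t : ℕ) (cs : List Ch)

/-- nodes -/
structure Nd where
  B : List V
  k : Kd

/-- the node with a given index -/
def nth : List Nd → ℕ → List V
  | [], _ => []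
  | n :: _, 0 => n.B
  | _ :: l, m + 1 => nth l m

/-- the linear relations -/
def rel (s0 s1 s2 s3 s4 : ℕ) (mu : ℤ) (y kp : V) (C : List V) : List V → List (List ℤ) → Bool
  | [], _ => true
  | _, [] => false
  | b :: l, r :: rs =>
    ((av s0 s1 s2 s3 s4 b).sm mu).eqb ((cl r C).ad (y.sm (kp.dt b))) &&
      rel s0 s1 s2 s3 s4 mu y kp C l rs

/-- the numbers are a permutation of `0, 1, 2, 3, 4` -/
def isP (s0 s1 s2 s3 s4 : ℕ) : Bool :=
  Nat.blt s0 5 && Nat.blt s1 5 && Nat.blt s2 5 && Nat.blt s3 5 && Nat.blt s4 5 &&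
  !(Nat.beq s0 s1) && !(Nat.beq s0 s2) && !(Nat.beq s0 s3) && !(Nat.beq s0 s4) &&
  !(Nat.beq s1 s2) && !(Nat.beq s1 s3) && !(Nat.beq s1 s4) && !(Nat.beq s2 s3) &&
  !(Nat.beq s2 s4) && !(Nat.beq s3 s4)

/-- check of a reference: the subspace of `B` with `kp = 0` is moved into the node -/
def chOK (L : List Nd) (B : List V) (kp : V) (c : Ch) : Bool :=
  !(c.mu == 0) && isP c.s0 c.s1 c.s2 c.s3 c.s4 &&
    rel c.s0 c.s1 c.s2 c.s3 c.s4 c.mu c.y kp (nth L c.m) B c.al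

theorem exP (s0 s1 s2 s3 s4 : ℕ) (h : isP s0 s1 s2 s3 s4 = true) :
    ∃ σ : Equiv.Perm (Fin 5), (σ 0).val = s0 ∧ (σ 1).val = s1 ∧ (σ 2).val = s2 ∧
      (σ 3).val = s3 ∧ (σ 4).val = s4 := by
  simp only [isP, Bool.and_eq_true, Nat.blt_eq, Bool.not_eq_true'] at h
  obtain ⟨⟨⟨⟨⟨⟨⟨⟨⟨⟨⟨⟨⟨⟨l0, l1⟩, l2⟩, l3⟩, l4⟩, n01⟩, n02⟩, n03⟩, n04⟩, n12⟩, n13⟩, n14⟩, n23⟩,
    n24⟩, n34⟩ := h
  replace n01 := Nat.ne_of_beq_eq_false n01
  replace n02 := Nat.ne_of_beq_eq_false n02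
  replace n03 := Nat.ne_of_beq_eq_false n03
  replace n04 := Nat.ne_of_beq_eq_false n04
  replace n12 := Nat.ne_of_beq_eq_false n12
  replace n13 := Nat.ne_of_beq_eq_false n13
  replace n14 := Nat.ne_of_beq_eq_false n14
  replace n23 := Nat.ne_of_beq_eq_false n23
  replace n24 := Nat.ne_of_beq_eq_false n24
  replace n34 := Nat.ne_of_beq_eq_false n34
  have hinj : Function.Injective
      (![⟨s0, l0⟩, ⟨s1, l1⟩, ⟨s2, l2⟩, ⟨s3, l3⟩, ⟨s4, l4⟩] : Fin 5 → Fin 5) := by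
    intro i j hij
    fin_cases i <;> fin_cases j <;> first
      | rfl
      | (exfalso; simp at hij; omega)
  exact ⟨Equiv.ofBijective _ (Finite.injective_iff_bijective.mp hinj), rfl, rfl, rfl, rfl, rfl⟩

theorem nth_or (L : List Nd) (m : ℕ) : nth L m = [] ∨ ∃ n ∈ L, n.B = nth L m := by
  induction L generalizing m with
  | nil => left; rfl
  | cons n L ih =>
    cases m with
    | zero => right; exact ⟨n, by simp, rfl⟩
    | succ m =>
      rcases ih m with h | ⟨n', hn', h⟩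
      · left; exact h
      · right; exact ⟨n', by simp [hn'], h⟩

theorem rel_spec (s0 s1 s2 s3 s4 : Fin 5) (mu : ℤ) (y kp : V) (C B : List V)
    (rs : List (List ℤ)) (h : rel s0.val s1.val s2.val s3.val s4.val mu y kp C B rs = true)
    (f : ℕ → ℤ) :
    ∃ g : ℕ → ℤ, (av s0.val s1.val s2.val s3.val s4.val (cb f B)).sm mu =
      (cb g C).ad (y.sm (kp.dt (cb f B))) := by
  induction B generalizing rs f with
  | nil =>
    refine ⟨fun _ => 0, ?_⟩
    rw [cb_zero]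
    simp only [cb, av_ze]
    simp [V.ad, V.sm, V.ze, V.dt]
  | cons b B ih =>
    cases rs with
    | nil => simp [rel] at h
    | cons r rs =>
      simp only [rel, Bool.and_eq_true] at h
      obtain ⟨h1, h2⟩ := h
      have h1 := V.eq_of_eqb h1
      obtain ⟨g, hg⟩ := ih rs h2 (fun n => f (n + 1))
      refine ⟨fun n => f 0 * r.getD n 0 + g n, ?_⟩
      rw [← cb_ad, ← cb_sm, ← cl_cb]
      simp only [cb, av_ad, av_sm]
      have e1 := congrArg (V.sm (f 0)) h1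
      rw [V.ext_iff] at e1 hg
      obtain ⟨a1, a2, a3, a4, a5⟩ := e1
      obtain ⟨c1, c2, c3, c4, c5⟩ := hg
      simp only [V.sm, V.ad, V.dt] at a1 a2 a3 a4 a5 c1 c2 c3 c4 c5
      apply V.ext <;> simp only [V.ad, V.sm, V.dt]
      · linear_combination a1 + c1
      · linear_combination a2 + c2
      · linear_combination a3 + c3
      · linear_combination a4 + c4
      · linear_combination a5 + c5

/-- equal invariants: trivial weights -/
theorem tri_of_iv {e : Fin 5 → Fin 5 → ℤ} (he : Sy e) (h : iv e = V.ze) : Tri0 e := by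
  obtain ⟨s, hs⟩ := eqv_EF he
  rw [h] at hs
  intro f hf
  have a1 := hs (f 0) (f 1) (fun h => absurd (hf h) (by decide))
  have a2 := hs (f 2) (f 3) (fun h => absurd (hf h) (by decide))
  have a3 := hs (f 0) (f 2) (fun h => absurd (hf h) (by decide))
  have a4 := hs (f 1) (f 3) (fun h => absurd (hf h) (by decide))
  simp only [EF_ze] at a1 a2 a3 a4
  omega

theorem iv_zero {x : V} {D : ℤ} (hD : D ≠ 0) (h : x.sm D = V.ze) : x = V.ze := by
  rw [V.ext_iff] at h ⊢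
  simpa [V.sm, V.ze, hD] using h

theorem PS_nil : PS [] := by
  rintro e he - ⟨D, hD, f, hf⟩
  left
  exact tri_of_iv he (iv_zero hD hf)

theorem chOK_spec (L : List Nd) (hL : ∀ n ∈ L, PS n.B) (B : List V) (kp : V) (c : Ch)
    (h : chOK L B kp c = true) (e : Fin 5 → Fin 5 → ℤ) (he : Sy e) (H : Hy e)
    (hB : InS B (iv e)) (hk : kp.dt (iv e) = 0) : Con e := by
  simp only [chOK, Bool.and_eq_true, Bool.not_eq_true'] at h
  obtain ⟨⟨hmu, hP⟩, hr⟩ := h
  have hmu : c.mu ≠ 0 := by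
    intro h0
    rw [h0] at hmu
    simp at hmu
  obtain ⟨σ, h0, h1, h2, h3, h4⟩ := exP _ _ _ _ _ hP
  rw [← h0, ← h1, ← h2, ← h3, ← h4] at hr
  obtain ⟨D, hD, f, hf⟩ := hB
  obtain ⟨g, hg⟩ := rel_spec _ _ _ _ _ _ _ _ _ _ _ hr f
  have hC : PS (nth L c.m) := by
    rcases nth_or L c.m with h | ⟨n, hn, h⟩
    · rw [h]; exact PS_nil
    · rw [← h]; exact hL n hn
  apply con_pull σ
  apply hC _ (sy_pull he σ) (hy_pull he H σ)
  refine ⟨c.mu * D, mul_ne_zero hmu hD, g, ?_⟩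
  rw [iv_pull he σ]
  rw [← hf, av_sm] at hg
  have hz : kp.dt ((iv e).sm D) = 0 := by
    have : kp.dt ((iv e).sm D) = D * kp.dt (iv e) := by
      simp only [V.dt, V.sm]; ring
    rw [this, hk, mul_zero]
  rw [hz] at hg
  rw [V.ext_iff] at hg ⊢
  obtain ⟨c1, c2, c3, c4, c5⟩ := hg
  simp only [V.sm, V.ad] at c1 c2 c3 c4 c5 ⊢
  refine ⟨?_, ?_, ?_, ?_, ?_⟩
  · linear_combination c1
  · linear_combination c2
  · linear_combination c3
  · linear_combination c4
  · linear_combination c5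

theorem ray_of_iv {R e : Fin 5 → Fin 5 → ℤ} (hR : Sy R) (he : Sy e) (k : ℤ) (hk : k ≠ 0)
    (h : iv e = (iv R).sm k) : Ray R e := by
  obtain ⟨s, hs⟩ := eqv_EF he
  obtain ⟨t, ht⟩ := eqv_EF hR
  refine ⟨k, fun i => s i - k * t i, hk, ?_⟩
  intro i j hij
  have a1 := hs i j hij
  have a2 := ht i j hij
  rw [h, EF_sm] at a1
  linear_combination a1 - k * a2

theorem ps_ray (R : Fin 5 → Fin 5 → ℤ) (hR : Sy R) (kp b : V) (hb : iv R = b)
    (h1 : kp.dt b = 1) (hc : ∀ e, Ray R e → Con e) : PS [b] := by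
  subst hb
  rintro e he - ⟨D, hD, f, hf⟩
  rw [V.ext_iff] at hf
  simp only [cb, V.ad, V.sm, V.ze, add_zero] at hf
  obtain ⟨c1, c2, c3, c4, c5⟩ := hf
  have hk : D * kp.dt (iv e) = f 0 := by
    simp only [V.dt] at h1 ⊢
    linear_combination kp.a * c1 + kp.b * c2 + kp.c * c3 + kp.d * c4 + kp.e * c5 + f 0 * h1
  have key : iv e = (iv R).sm (kp.dt (iv e)) := by
    apply V.ext <;> simp only [V.sm] <;> apply mul_left_cancel₀ hD
    · linear_combination c1 - (iv R).a * hk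
    · linear_combination c2 - (iv R).b * hk
    · linear_combination c3 - (iv R).c * hk
    · linear_combination c4 - (iv R).d * hk
    · linear_combination c5 - (iv R).e * hk
  by_cases h0 : kp.dt (iv e) = 0
  · left
    apply tri_of_iv he
    rw [key, h0]
    simp [V.sm, V.ze]
  · exact hc e (ray_of_iv hR he _ h0 key)

/-- the invariants of the rays -/
def rv : ℕ → V
  | 0 => ⟨-1, -1, -1, -1, 0⟩
  | 1 => ⟨-1, -1, 0, -1, -1⟩
  | 2 => ⟨-1, 0, -1, -1, 0⟩
  | 3 => ⟨-2, -2, 0, -1, -1⟩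
  | 4 => ⟨-1, -1, 0, -1, 1⟩
  | 5 => ⟨-2, -2, -1, -2, 0⟩
  | _ => ⟨-2, -1, 0, -2, -1⟩

theorem ps_rv (n : ℕ) : PS [rv n] := by
  match n with
  | 0 => exact ps_ray rA (by unfold Sy; decide) ⟨-1, 0, 0, 0, 0⟩ _ rfl rfl
                 fun e h => Or.inr ⟨1, Or.inl h⟩
  | 1 => exact ps_ray rB (by unfold Sy; decide) ⟨-1, 0, 0, 0, 0⟩ _ rfl rfl
                 fun e h => Or.inr ⟨1, Or.inr (Or.inl h)⟩
  | 2 => exact ps_ray rC (by unfold Sy; decide) ⟨-1, 0, 0, 0, 0⟩ _ rfl rfl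
                 fun e h => Or.inr ⟨1, Or.inr (Or.inr (Or.inl h))⟩
  | 3 => exact ps_ray rD (by unfold Sy; decide) ⟨0, 0, 0, -1, 0⟩ _ rfl rfl
                 fun e h => Or.inr ⟨1, Or.inr (Or.inr (Or.inr (Or.inl h)))⟩
  | 4 => exact ps_ray rE (by unfold Sy; decide) ⟨-1, 0, 0, 0, 0⟩ _ rfl rfl
                 fun e h => Or.inr ⟨1, Or.inr (Or.inr (Or.inr (Or.inr (Or.inl h))))⟩
  | 5 => exact ps_ray rF (by unfold Sy; decide) ⟨0, 0, -1, 0, 0⟩ _ rfl rfl
                 fun e h => Or.inr ⟨1, Or.inr (Or.inr (Or.inr (Or.inr (Or.inr (Or.inl h)))))⟩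
  | n + 6 => exact ps_ray rG (by unfold Sy; decide) ⟨0, -1, 0, 0, 0⟩ _ rfl rfl
                 fun e h => Or.inr ⟨1, Or.inr (Or.inr (Or.inr (Or.inr (Or.inr (Or.inr
                   (Or.inl h))))))⟩

/-- all numbers below `n` -/
def allB : ℕ → (ℕ → Bool) → Bool
  | 0, _ => true
  | n + 1, p => p n && allB n p

theorem allB_spec {n : ℕ} {p : ℕ → Bool} (h : allB n p = true) : ∀ i, i < n → p i = true := by
  induction n with
  | zero => intro i hi; omega
  | succ n ih =>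
    simp only [allB, Bool.and_eq_true] at h
    intro i hi
    rcases Nat.lt_succ_iff_lt_or_eq.mp hi with h1 | h1
    · exact ih h.2 i h1
    · rw [h1]; exact h.1

/-- difference -/
def V.sb (x y : V) : V := ⟨x.a - y.a, x.b - y.b, x.c - y.c, x.d - y.d, x.e - y.e⟩

/-- reference number `i` -/
def gc : List Ch → ℕ → Ch
  | [], _ => ⟨0, 0, 1, 2, 3, 4, 1, V.ze, []⟩
  | c :: _, 0 => c
  | _ :: l, i + 1 => gc l i

/-- the trivial reference -/
def z : Ch := ⟨0, 0, 1, 2, 3, 4, 1, V.ze, []⟩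

/-- a reference -/
def k (m s0 s1 s2 s3 s4 : ℕ) (mu y0 y1 y2 y3 y4 : ℤ) (al : List (List ℤ)) : Ch :=
  ⟨m, s0, s1, s2, s3, s4, mu, ⟨y0, y1, y2, y3, y4⟩, al⟩

/-- check of a node -/
def ndOK (L : List Nd) (n : Nd) : Bool :=
  match n.k with
  | .bad t => Nat.blt t 22 && (match n.B with
    | [b] => allB 22 (fun i => Nat.beq i t || !((mg i).dt b == (mg t).dt b))
    | _ => false)
  | .ray r => (match n.B with
    | [b] => b.eqb (rv r)
    | _ => false)
  | .pI cs => (match n.B with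
    | [b, b'] => b.eqb ⟨1, 1, 0, 0, 0⟩ && b'.eqb ⟨0, 0, 1, 1, 0⟩
    | _ => false) && (chOK L n.B ⟨1, 0, -1, 0, 0⟩ (gc cs 0) && chOK L n.B ⟨0, 0, 1, 0, 0⟩ (gc cs 1)
      && chOK L n.B ⟨1, 0, 0, 0, 0⟩ (gc cs 2) && chOK L n.B ⟨2, 0, -1, 0, 0⟩ (gc cs 3)
      && chOK L n.B ⟨-1, 0, 2, 0, 0⟩ (gc cs 4) && chOK L n.B ⟨1, 0, 1, 0, 0⟩ (gc cs 5))
  | .pII cs => (match n.B with
    | [b, b'] => b.eqb ⟨1, 0, 0, 1, 0⟩ && b'.eqb ⟨0, 1, 0, 0, 1⟩
    | _ => false) && (chOK L n.B ⟨1, -1, 0, 0, 0⟩ (gc cs 0) && chOK L n.B ⟨0, 1, 0, 0, 0⟩ (gc cs 1)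
      && chOK L n.B ⟨1, 0, 0, 0, 0⟩ (gc cs 2) && chOK L n.B ⟨2, -1, 0, 0, 0⟩ (gc cs 3)
      && chOK L n.B ⟨-1, 2, 0, 0, 0⟩ (gc cs 4) && chOK L n.B ⟨1, 1, 0, 0, 0⟩ (gc cs 5))
  | .br t cs => Nat.blt t 22 &&
      allB 22 (fun i => Nat.beq i t || chOK L n.B ((mg t).sb (mg i)) (gc cs i))

/-- check of a list of nodes, over a list of nodes which are checked already -/
def chk (L₀ : List Nd) : List Nd → Bool
  | [] => true
  | n :: L => ndOK (L ++ L₀) n && chk L₀ L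

theorem ps_pI (L : List Nd) (hL : ∀ n ∈ L, PS n.B) (cs : List Ch)
    (h : ndOK L ⟨[⟨1, 1, 0, 0, 0⟩, ⟨0, 0, 1, 1, 0⟩], .pI cs⟩ = true) :
    PS [⟨1, 1, 0, 0, 0⟩, ⟨0, 0, 1, 1, 0⟩] := by
  simp only [ndOK, Bool.and_eq_true] at h
  obtain ⟨-, ⟨⟨⟨⟨q0, q1⟩, q2⟩, q3⟩, q4⟩, q5⟩ := h
  intro e he H hB
  have hB' := hB
  obtain ⟨D, hD, f, hf⟩ := hB'
  rw [V.ext_iff] at hf
  simp only [cb, V.ad, V.sm, V.ze, add_zero, mul_zero, mul_one, zero_add] at hf
  obtain ⟨c1, c2, c3, c4, c5⟩ := hf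
  have e1 : (iv e).b = (iv e).a := mul_left_cancel₀ hD (c2.trans c1.symm)
  have e2 : (iv e).d = (iv e).c := mul_left_cancel₀ hD (c4.trans c3.symm)
  have e3 : (iv e).e = 0 := by simpa [hD] using c5
  by_cases hN : NonAP (2 * (iv e).a) (2 * (iv e).c) 0
  · right
    refine ⟨1, ?_⟩
    iterate 7 right
    left
    obtain ⟨s, hs⟩ := eqv_EF he
    refine ⟨_, _, _, s, hN, ?_⟩
    intro i j hij
    have h1 := hs i j hij
    have h2 : fI (2 * (iv e).a) (2 * (iv e).c) 0 i j = 2 * EF (iv e) i j := by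
      fin_cases i <;> fin_cases j <;> simp [fI, EF, Ee, e1, e2, e3]
    show 2 * e i j = _
    rw [h1, h2]
  · have fin : ∀ kp c, chOK L _ kp c = true → kp.dt (iv e) = 0 → Con e := fun kp c h1 h2 =>
      chOK_spec L hL _ kp c h1 e he H hB h2
    by_cases z0 : (iv e).a = (iv e).c
    · exact fin _ _ q0 (by simp only [V.dt]; linarith)
    by_cases z1 : (iv e).c = 0
    · exact fin _ _ q1 (by simp only [V.dt]; linarith)
    by_cases z2 : (iv e).a = 0
    · exact fin _ _ q2 (by simp only [V.dt]; linarith)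
    by_cases z3 : 2 * (iv e).a = (iv e).c
    · exact fin _ _ q3 (by simp only [V.dt]; linarith)
    by_cases z4 : 2 * (iv e).c = (iv e).a
    · exact fin _ _ q4 (by simp only [V.dt]; linarith)
    by_cases z5 : (iv e).a + (iv e).c = 0
    · exact fin _ _ q5 (by simp only [V.dt]; linarith)
    exfalso
    apply hN
    unfold NonAP
    refine ⟨?_, ?_, ?_, ?_, ?_, ?_⟩ <;> omega

theorem ps_pII (L : List Nd) (hL : ∀ n ∈ L, PS n.B) (cs : List Ch)
    (h : ndOK L ⟨[⟨1, 0, 0, 1, 0⟩, ⟨0, 1, 0, 0, 1⟩], .pII cs⟩ = true) :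
    PS [⟨1, 0, 0, 1, 0⟩, ⟨0, 1, 0, 0, 1⟩] := by
  simp only [ndOK, Bool.and_eq_true] at h
  obtain ⟨-, ⟨⟨⟨⟨q0, q1⟩, q2⟩, q3⟩, q4⟩, q5⟩ := h
  intro e he H hB
  have hB' := hB
  obtain ⟨D, hD, f, hf⟩ := hB'
  rw [V.ext_iff] at hf
  simp only [cb, V.ad, V.sm, V.ze, add_zero, mul_zero, mul_one, zero_add] at hf
  obtain ⟨c1, c2, c3, c4, c5⟩ := hf
  have e1 : (iv e).d = (iv e).a := mul_left_cancel₀ hD (c4.trans c1.symm)
  have e2 : (iv e).e = (iv e).b := mul_left_cancel₀ hD (c5.trans c2.symm)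
  have e3 : (iv e).c = 0 := by simpa [hD] using c3
  by_cases hN : NonAP (2 * (iv e).a) (2 * (iv e).b) 0
  · right
    refine ⟨1, ?_⟩
    iterate 8 right
    obtain ⟨s, hs⟩ := eqv_EF he
    refine ⟨_, _, _, s, hN, ?_⟩
    intro i j hij
    have h1 := hs i j hij
    have h2 : fII (2 * (iv e).a) (2 * (iv e).b) 0 i j = 2 * EF (iv e) i j := by
      fin_cases i <;> fin_cases j <;> simp [fII, EF, Ee, e1, e2, e3]
    show 2 * e i j = _
    rw [h1, h2]
  · have fin : ∀ kp c, chOK L _ kp c = true → kp.dt (iv e) = 0 → Con e := fun kp c h1 h2 =>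
      chOK_spec L hL _ kp c h1 e he H hB h2
    by_cases z0 : (iv e).a = (iv e).b
    · exact fin _ _ q0 (by simp only [V.dt]; linarith)
    by_cases z1 : (iv e).b = 0
    · exact fin _ _ q1 (by simp only [V.dt]; linarith)
    by_cases z2 : (iv e).a = 0
    · exact fin _ _ q2 (by simp only [V.dt]; linarith)
    by_cases z3 : 2 * (iv e).a = (iv e).b
    · exact fin _ _ q3 (by simp only [V.dt]; linarith)
    by_cases z4 : 2 * (iv e).b = (iv e).a
    · exact fin _ _ q4 (by simp only [V.dt]; linarith)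
    by_cases z5 : (iv e).a + (iv e).b = 0
    · exact fin _ _ q5 (by simp only [V.dt]; linarith)
    exfalso
    apply hN
    unfold NonAP
    refine ⟨?_, ?_, ?_, ?_, ?_, ?_⟩ <;> omega

theorem dt_sb (x y z : V) : (x.sb y).dt z = x.dt z - y.dt z := by
  simp only [V.dt, V.sb]
  ring

theorem ndOK_spec (L : List Nd) (hL : ∀ n ∈ L, PS n.B) (n : Nd) (h : ndOK L n = true) :
    PS n.B := by
  obtain ⟨B, k⟩ := n
  cases k with
  | bad t =>
    simp only [ndOK, Bool.and_eq_true, Nat.blt_eq] at h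
    obtain ⟨ht, h⟩ := h
    match B with
    | [] => simp at h
    | [b] =>
      simp only at h
      have h := allB_spec h
      rintro e he H ⟨D, hD, f, hf⟩
      left
      obtain ⟨t', ht', hw⟩ := H ⟨t, ht⟩
      have h1 := h t'.val t'.isLt
      have hne : Nat.beq t'.val t = false := by
        rw [Bool.eq_false_iff]
        intro hh
        exact ht' (Fin.ext (Nat.eq_of_beq_eq_true hh))
      rw [hne, Bool.false_or, Bool.not_eq_true', beq_eq_false_iff_ne] at h1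
      rw [wt_mg he, wt_mg he] at hw
      have hw' : (mg t'.val).dt (iv e) = (mg t).dt (iv e) := by
        have : (mg (⟨t, ht⟩ : Fin 22).val) = mg t := rfl
        rw [this] at hw
        linarith
      have key : ∀ x : V, D * x.dt (iv e) = f 0 * x.dt b := by
        intro x
        rw [V.ext_iff] at hf
        simp only [cb, V.ad, V.sm, V.ze, add_zero] at hf
        obtain ⟨c1, c2, c3, c4, c5⟩ := hf
        simp only [V.dt]
        linear_combination x.a * c1 + x.b * c2 + x.c * c3 + x.d * c4 + x.e * c5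
      have h0 : f 0 = 0 := by
        have k1 := key (mg t'.val)
        have k2 := key (mg t)
        rw [hw'] at k1
        have k3 : f 0 * ((mg t'.val).dt b - (mg t).dt b) = 0 := by linarith
        rcases mul_eq_zero.mp k3 with k4 | k4
        · exact k4
        · exact absurd (sub_eq_zero.mp k4) h1
      apply tri_of_iv he
      apply iv_zero hD
      rw [hf]
      simp [cb, V.ad, V.sm, V.ze, h0]
    | b :: b' :: l => simp at h
  | ray r =>
    simp only [ndOK] at h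
    match B with
    | [] => simp at h
    | [b] =>
      simp only at h
      have h := V.eq_of_eqb h
      show PS [b]
      rw [h]
      exact ps_rv r
    | b :: b' :: l => simp at h
  | pI cs =>
    have h' := h
    simp only [ndOK, Bool.and_eq_true] at h'
    obtain ⟨h1, -⟩ := h'
    match B with
    | [] => simp at h1
    | [b] => simp at h1
    | [b, b'] =>
      simp only [Bool.and_eq_true] at h1
      have e1 := V.eq_of_eqb h1.1
      have e2 := V.eq_of_eqb h1.2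
      subst e1
      subst e2
      exact ps_pI L hL cs h
    | b :: b' :: b'' :: l => simp at h1
  | pII cs =>
    have h' := h
    simp only [ndOK, Bool.and_eq_true] at h'
    obtain ⟨h1, -⟩ := h'
    match B with
    | [] => simp at h1
    | [b] => simp at h1
    | [b, b'] =>
      simp only [Bool.and_eq_true] at h1
      have e1 := V.eq_of_eqb h1.1
      have e2 := V.eq_of_eqb h1.2
      subst e1
      subst e2
      exact ps_pII L hL cs h
    | b :: b' :: b'' :: l => simp at h1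
  | br t cs =>
    simp only [ndOK, Bool.and_eq_true, Nat.blt_eq] at h
    obtain ⟨ht, h⟩ := h
    have h := allB_spec h
    intro e he H hB
    obtain ⟨t', ht', hw⟩ := H ⟨t, ht⟩
    have h1 := h t'.val t'.isLt
    have hne : Nat.beq t'.val t = false := by
      rw [Bool.eq_false_iff]
      intro hh
      exact ht' (Fin.ext (Nat.eq_of_beq_eq_true hh))
    rw [hne, Bool.false_or] at h1
    rw [wt_mg he, wt_mg he] at hw
    refine chOK_spec L hL B _ _ h1 e he H hB ?_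
    rw [dt_sb]
    have : (mg (⟨t, ht⟩ : Fin 22).val) = mg t := rfl
    rw [this] at hw
    linarith

theorem chk_spec (L₀ : List Nd) (h₀ : ∀ n ∈ L₀, PS n.B) (L : List Nd) (h : chk L₀ L = true) :
    ∀ n ∈ L ++ L₀, PS n.B := by
  induction L with
  | nil => exact h₀
  | cons n L ih =>
    simp only [chk, Bool.and_eq_true] at h
    have ih := ih h.2
    intro n' hn'
    rw [List.cons_append, List.mem_cons] at hn'
    rcases hn' with rfl | hn'
    · exact ndOK_spec _ ih _ h.1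
    · exact ih n' hn'

/-- the whole space -/
theorem ps_all (h : PS [⟨1, 0, 0, 0, 0⟩, ⟨0, 1, 0, 0, 0⟩, ⟨0, 0, 1, 0, 0⟩, ⟨0, 0, 0, 1, 0⟩,
    ⟨0, 0, 0, 0, 1⟩]) : PairStmt := by
  intro e he H
  refine h e he H ⟨1, one_ne_zero, fun n => if n = 0 then (iv e).a else if n = 1 then (iv e).b else
    if n = 2 then (iv e).c else if n = 3 then (iv e).d else (iv e).e, ?_⟩
  simp [cb, V.ad, V.sm, V.ze]

end Pool.Agent.Y734.M.PAIR
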