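import Pool.Agent.Y734.M.Stms

/-!
# Project Y734/M, job PAIR: invariance

The hypothesis and the conclusion of the classification are invariant under permutations of the
five vertices; and everything depends only on the five integers `wv e 0 1 2 3 4`.
-/

set_option autoImplicit false

namespace Pool.Agent.Y734.M.PAIR
open Pool.Agent.Y734.M

/-- every term has a partner of the same weight -/
def Hy (e : Fin 5 → Fin 5 → ℤ) : Prop := ∀ t, ∃ t', t' ≠ t ∧ wt e t' = wt e t

/-- the conclusion of the classification -/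
def Con (e : Fin 5 → Fin 5 → ℤ) : Prop :=
    Tri0 e ∨ ∃ σ : Equiv.Perm (Fin 5), Ray rA (pull e σ) ∨ Ray rB (pull e σ) ∨ Ray rC (pull e σ) ∨
      Ray rD (pull e σ) ∨ Ray rE (pull e σ) ∨ Ray rF (pull e σ) ∨ Ray rG (pull e σ) ∨
      Pl fI (pull e σ) ∨ Pl fII (pull e σ)

theorem sy_pull {e : Fin 5 → Fin 5 → ℤ} (h : Sy e) (σ : Equiv.Perm (Fin 5)) : Sy (pull e σ) :=
  fun i j => h (σ i) (σ j)

theorem con_pull {e : Fin 5 → Fin 5 → ℤ} (σ : Equiv.Perm (Fin 5)) (h : Con (pull e σ)) :
    Con e := by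
  rcases h with h | ⟨τ, h⟩
  · left
    intro f hf
    have := h (fun i => σ.symm (f i)) (σ.symm.injective.comp hf)
    simpa [pull] using this
  · right
    exact ⟨σ * τ, h⟩

/-- an edge with its end points in order -/
def nrm (p : Fin 5 × Fin 5) : ℕ :=
  if p.1.val ≤ p.2.val then 5 * p.1.val + p.2.val else 5 * p.2.val + p.1.val

/-- the list of the edges of a term, moved by a map -/
def edg (f : Fin 5 → Fin 5) (t : Fin 22) : List ℕ :=
  (List.finRange 5).map fun k => nrm (f (tm t k).1, f (tm t k).2)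

/-- the value at an edge -/
def evl (e : Fin 5 → Fin 5 → ℤ) (n : ℕ) : ℤ :=
  e (Fin.ofNat 5 (n / 5)) (Fin.ofNat 5 (n % 5))

theorem evl_nrm {e : Fin 5 → Fin 5 → ℤ} (h : Sy e) (i j : Fin 5) : evl e (nrm (i, j)) = e i j := by
  have key : ∀ a b : Fin 5, Fin.ofNat 5 ((5 * a.val + b.val) / 5) = a ∧
      Fin.ofNat 5 ((5 * a.val + b.val) % 5) = b := by decide
  unfold evl nrm
  by_cases hij : i.val ≤ j.val
  · simp only [hij, if_true]
    rw [(key i j).1, (key i j).2]
  · simp only [hij, if_false]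
    rw [(key j i).1, (key j i).2]
    exact h j i

theorem wt_edg {e : Fin 5 → Fin 5 → ℤ} (h : Sy e) (f : Fin 5 → Fin 5) (t : Fin 22) :
    wt (pull e f) t = ((edg f t).map (evl e)).sum := by
  unfold edg wt
  rw [List.map_map, Fin.sum_univ_def]
  congr 1
  apply List.map_congr_left
  intro k _
  simp only [Function.comp, pull]
  exact (evl_nrm h _ _).symm

theorem edg_swap : ∀ x y : Fin 5, ∀ t : Fin 22, ∃ s : Fin 22,
    List.Perm (edg (Equiv.swap x y) t) (edg id s) := by
  decide +kernel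

/-- test weights -/
def eT : Fin 5 → Fin 5 → ℤ := fun i j => 8 ^ (i.val * i.val + j.val * j.val)

theorem eT_sy : Sy eT := by
  intro i j
  simp only [eT, Nat.add_comm]

theorem eT_inj : ∀ s t : Fin 22, wt eT s = wt eT t → s = t := by
  decide +kernel

theorem wt_swap {e : Fin 5 → Fin 5 → ℤ} (h : Sy e) (x y : Fin 5) {t s : Fin 22}
    (hp : List.Perm (edg (Equiv.swap x y) t) (edg id s)) :
    wt (pull e (Equiv.swap x y)) t = wt e s := by
  rw [wt_edg h]
  have : wt e s = wt (pull e id) s := rfl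
  rw [this, wt_edg h]
  exact (hp.map _).sum_eq

theorem pull_swap (e : Fin 5 → Fin 5 → ℤ) (x y : Fin 5) :
    pull (pull e (Equiv.swap x y)) (Equiv.swap x y) = e := by
  funext i j
  simp [pull]

theorem hy_swap {e : Fin 5 → Fin 5 → ℤ} (h : Sy e) (H : Hy e) (x y : Fin 5) :
    Hy (pull e (Equiv.swap x y)) := by
  intro t
  obtain ⟨s, hs⟩ := edg_swap x y t
  obtain ⟨s', hs', hw⟩ := H s
  obtain ⟨t', ht'⟩ := edg_swap x y s'
  refine ⟨t', ?_, ?_⟩
  · rintro rfl
    apply hs'
    apply eT_inj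
    have h1 := wt_swap (sy_pull eT_sy (Equiv.swap x y)) x y ht'
    rw [pull_swap] at h1
    rw [h1]
    exact wt_swap eT_sy x y hs
  · have h1 := wt_swap (sy_pull h (Equiv.swap x y)) x y ht'
    rw [pull_swap] at h1
    rw [← h1, hw]
    exact (wt_swap h x y hs).symm

theorem hy_pull {e : Fin 5 → Fin 5 → ℤ} (h : Sy e) (H : Hy e) (σ : Equiv.Perm (Fin 5)) :
    Hy (pull e σ) := by
  induction σ using Equiv.Perm.swap_induction_on generalizing e with
  | one => exact H
  | swap_mul f x y hxy ih =>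
    have h1 := ih (sy_pull h (Equiv.swap x y)) (hy_swap h H x y)
    exact h1

end Pool.Agent.Y734.M.PAIR
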